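import Pool.Agent.Q49.AF.Thr

/-! Prime factors outside a window; the largest prime factors. -/

set_option autoImplicit false

namespace Pool.Agent.Q49.AF

open Pool.Agent.H320R2.PD Pool.Agent.H499R2.ND Pool.Agent.H499R2.CO Finset MeasureTheory Filter Topology
  Pool.Agent.H376R2.MR Pool.Agent.W41.FU Pool.Agent.W41 Pool.Agent.W41.MU

/-- the largest divisor of `n` which is composed of primes outside `(y, z]` -/
def outer (y z n : ℕ) : ℕ := (n.primeFactorsList.filter (fun p => p ≤ y ∨ z < p)).prod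

/-- the `k` largest prime factors of `n` (with multiplicity, in decreasing order) -/
def top (k n : ℕ) : List ℕ := n.primeFactorsList.reverse.take k

/-- the prime factors above `z` -/
def lf (z n : ℕ) : List ℕ := n.primeFactorsList.filter (fun p => z < p)

theorem outer_mul {y z p m : ℕ} (hp : p.Prime) (h1 : y < p) (h2 : p ≤ z) : outer y z (p * m) = outer y z m := by
  rcases Nat.eq_zero_or_pos m with rfl | hm
  · rw [mul_zero]
  · unfold outer
    have h3 := (Nat.perm_primeFactorsList_mul hp.ne_zero hm.ne').filter (fun p => decide (p ≤ y ∨ z < p))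
    rw [h3.prod_eq, Nat.primeFactorsList_prime hp, List.filter_append, List.prod_append]
    have h4 : [p].filter (fun p => decide (p ≤ y ∨ z < p)) = [] := by
      rw [List.filter_singleton]
      have : ¬ (p ≤ y ∨ z < p) := by omega
      simp [this]
    rw [h4, List.prod_nil, one_mul]

theorem outer_factors (y z n : ℕ) : (outer y z n).primeFactorsList = n.primeFactorsList.filter (fun p => p ≤ y ∨ z < p) := by
  symm
  apply List.Perm.eq_of_sortedLE
  · exact ((Nat.primeFactorsList_sorted n).pairwise.filter _).sortedLE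
  · exact Nat.primeFactorsList_sorted _
  · apply Nat.primeFactorsList_unique rfl
    intro p hp
    exact Nat.prime_of_mem_primeFactorsList (List.mem_of_mem_filter hp)

theorem split_sorted (z : ℕ) : ∀ l : List ℕ, l.Pairwise (· ≤ ·) →
    l.filter (fun p => p ≤ z) ++ l.filter (fun p => z < p) = l := by
  intro l
  induction l with
  | nil => intro _; rfl
  | cons a l ih =>
    intro h
    rw [List.pairwise_cons] at h
    by_cases ha : a ≤ z
    · have h1 : ¬ z < a := by omega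
      rw [List.filter_cons_of_pos (by simpa using ha), List.filter_cons_of_neg (by simpa using ha), List.cons_append, ih h.2]
    · have h1 : z < a := by omega
      have h2 : l.filter (fun p => decide (p ≤ z)) = [] := by
        rw [List.filter_eq_nil_iff]
        intro b hb
        have := h.1 b hb
        simp only [decide_eq_true_eq]; omega
      have h3 : l.filter (fun p => decide (z < p)) = l := by
        rw [List.filter_eq_self]
        intro b hb
        have := h.1 b hb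
        simp only [decide_eq_true_eq]; omega
      rw [List.filter_cons_of_neg (by simpa using h1), List.filter_cons_of_pos (by simpa using h1), h2, h3, List.nil_append]

theorem top_outer {y z k n : ℕ} (hyz : y ≤ z) (h : k ≤ (lf z n).length) : top k (outer y z n) = top k n := by
  unfold top
  rw [outer_factors]
  have h0 := split_sorted z n.primeFactorsList (Nat.primeFactorsList_sorted n).pairwise
  have key : ∀ l : List ℕ, l.Pairwise (· ≤ ·) → l.filter (fun p => z < p) = lf z n → l.reverse.take k = (lf z n).reverse.take k := by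
    intro l hl hlf
    have h1 := split_sorted z l hl
    rw [hlf] at h1
    rw [← h1, List.reverse_append, List.take_append_of_le_length (by rw [List.length_reverse]; exact h)]
  rw [key _ ((Nat.primeFactorsList_sorted n).pairwise.filter _), key n.primeFactorsList (Nat.primeFactorsList_sorted n).pairwise rfl]
  unfold lf
  rw [List.filter_filter]
  congr 1
  funext p
  by_cases hp : z < p
  · simp [hp]
  · simp [hp]

/-- few integers have fewer than `k` prime factors above `N ^ b`, for small `b` -/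
theorem few_large (k : ℕ) {ε : ℝ} (hε : 0 < ε) (hε1 : ε ≤ 1) : ∃ b0 : ℝ, 0 < b0 ∧ ∀ b : ℝ, 0 < b → b ≤ b0 →
    ∃ N0 : ℕ, 1 ≤ N0 ∧ ∀ N : ℕ, N0 ≤ N →
      (((Icc 1 N).filter (fun n => (lf ⌈(N : ℝ) ^ b⌉₊ n).length < k)).card : ℝ) ≤ ε * N := by
  obtain ⟨C, hC0, hC⟩ := Pool.Agent.H376R2.MR.tk
  obtain ⟨CW, hCW0, hCW⟩ := WW_bound
  set L : ℝ := CW + 2 * k + 2048 * C / ε ^ 2 + 1 with hL
  have hL0 : 0 < L := by positivity
  refine ⟨Real.exp (-L) / 32, by positivity, fun b hb hb0 => ?_⟩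
  obtain ⟨N1, hN1⟩ := eventually_atTop.1 ((Real.tendsto_log_atTop.comp tendsto_natCast_atTop_atTop).eventually_ge_atTop (4 / b + 16))
  refine ⟨N1 + ⌈32 * ((1 : ℕ) + 1 : ℝ) / ε⌉₊ + ⌈256 * (8 / ε + 3) / ε⌉₊ + ⌈(32 / ε) ^ 2⌉₊ + 2, by omega, fun N hN => ?_⟩
  have hlog := hN1 N (by omega)
  simp only [Function.comp] at hlog
  have hN0 : (0 : ℝ) < N := by exact_mod_cast (by omega : 0 < N)
  have hNX : 32 * (((1 : ℕ) : ℝ) + 1) / ε ≤ N := (Nat.le_ceil _).trans (by exact_mod_cast (by omega : ⌈32 * ((1 : ℕ) + 1 : ℝ) / ε⌉₊ ≤ N))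
  have hNK : 256 * (8 / ε + 3) / ε ≤ N := (Nat.le_ceil _).trans (by exact_mod_cast (by omega : ⌈256 * (8 / ε + 3) / ε⌉₊ ≤ N))
  have hNS : (32 / ε) ^ 2 ≤ N := (Nat.le_ceil _).trans (by exact_mod_cast (by omega : ⌈(32 / ε) ^ 2⌉₊ ≤ N))
  set z : ℕ := ⌈(N : ℝ) ^ b⌉₊ with hz
  set F : ℕ → ℂ := fun n => if (lf z n).length < k then 1 else 0 with hF
  have hF1 : ∀ n, ‖F n‖ ≤ 1 := fun n => by rw [hF]; simp only; split_ifs <;> simp
  have h4b : 0 < 4 / b := by positivity
  set ℓ : ℝ := Real.log N with hℓ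
  have hbℓ : 4 ≤ b * ℓ := by
    have h1 : 4 / b ≤ ℓ := by linarith
    rw [div_le_iff₀ hb] at h1
    linarith
  -- a block
  have hblock : ∀ X : ℕ, ⌈ε * N / 32⌉₊ ≤ X → 2 * X ≤ N → ‖∑ n ∈ Ico X (2 * X), F n‖ ≤ ε / 2 / 4 * X := by
    intro X hX hXN
    obtain ⟨hX1, hXX, -⟩ := num_blocks hε hNX hNK hNS hX
    have hX0 : (0 : ℝ) < X := by exact_mod_cast hX1
    have hlX : ℓ / 2 ≤ Real.log X := by
      have h1 : ℓ ≤ Real.log ((X * X : ℕ) : ℝ) := Real.log_le_log hN0 (by exact_mod_cast hXX)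
      rw [Nat.cast_mul, Real.log_mul hX0.ne' hX0.ne'] at h1
      linarith
    obtain ⟨v₀, hv₀⟩ : ∃ v₀ : ℕ, v₀ = ⌈10 * (b * ℓ)⌉₊ + 10 := ⟨_, rfl⟩
    obtain ⟨v₁, hv₁⟩ : ∃ v₁ : ℕ, v₁ = ⌊10 * (Real.log X / 4)⌋₊ := ⟨_, rfl⟩
    have a1 : 10 * (b * ℓ) + 10 ≤ v₀ := by
      rw [hv₀]; push_cast
      have := Nat.le_ceil (10 * (b * ℓ))
      linarith
    have a2 : (v₀ : ℝ) ≤ 10 * (b * ℓ) + 11 := by
      rw [hv₀]; push_cast
      have := (Nat.ceil_lt_add_one (by positivity : 0 ≤ 10 * (b * ℓ))).le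
      linarith
    have hlX0 : 0 ≤ Real.log X := Real.log_nonneg (by exact_mod_cast hX1)
    have a3 : (v₁ : ℝ) ≤ 10 * (Real.log X / 4) := by rw [hv₁]; exact Nat.floor_le (by positivity)
    have a4 : 10 * (Real.log X / 4) < (v₁ : ℝ) + 1 := by rw [hv₁]; exact Nat.lt_floor_add_one _
    have a5 : ℓ ≤ v₁ := by linarith
    have a6 : (v₀ : ℝ) ≤ 16 * (b * ℓ) := by linarith
    have hv00 : (0 : ℝ) < v₀ := by linarith
    have a7 : Real.exp L ≤ (v₁ : ℝ) / v₀ := by
      rw [le_div_iff₀ hv00]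
      refine le_trans ?_ a5
      have hℓ0 : 0 < ℓ := by linarith
      calc Real.exp L * v₀ ≤ Real.exp L * (16 * (b * ℓ)) := mul_le_mul_of_nonneg_left a6 (Real.exp_pos _).le
        _ ≤ Real.exp L * (16 * (Real.exp (-L) / 32 * ℓ)) := by gcongr
        _ = (Real.exp L * Real.exp (-L)) * (ℓ / 2) := by ring
        _ = ℓ / 2 := by rw [← Real.exp_add, add_neg_cancel, Real.exp_zero, one_mul]
        _ ≤ ℓ := by linarith
    have hv01 : v₀ ≤ v₁ := by
      have h1 : (1 : ℝ) ≤ (v₁ : ℝ) / v₀ := (Real.one_le_exp hL0.le).trans a7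
      rw [le_div_iff₀ hv00, one_mul] at h1
      exact_mod_cast h1
    obtain ⟨W, hW⟩ : ∃ W : ℝ, W = WW 10 v₀ v₁ := ⟨_, rfl⟩
    have hWL : L - CW ≤ W := by
      have h1 := hCW 10 v₀ v₁ (by norm_num) (by omega) hv01
      have h2 : L ≤ Real.log ((v₁ : ℝ) / v₀) := by
        rw [← Real.log_exp L]
        exact Real.log_le_log (Real.exp_pos _) a7
      rw [abs_le] at h1
      rw [hW]
      linarith [h1.1, h2]
    have hq0 : 0 < 2048 * C / ε ^ 2 := by positivity
    have hk0 : (0 : ℝ) ≤ k := Nat.cast_nonneg _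
    have hW1 : 1 ≤ W := by rw [hL] at hWL; linarith
    have hW2 : 2 * k ≤ W := by rw [hL] at hWL; linarith
    have hW3 : 2048 * C / ε ^ 2 ≤ W := by rw [hL] at hWL; linarith
    have hWsum : ∑ p ∈ PR 10 v₀ v₁, 1 / (p : ℝ) = W := by
      rw [PR_sum (by norm_num), hW]; rfl
    have hprim : ∀ p ∈ PR 10 v₀ v₁, (p.Prime ∧ (p : ℝ) ^ 4 ≤ X) ∧ z < p := by
      intro p hp
      unfold PR at hp
      rw [mem_biUnion] at hp
      obtain ⟨v, hv, hp⟩ := hp
      rw [mem_Ico] at hv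
      have h1 := cell_lt hp
      have hp0 : (0 : ℝ) < p := by exact_mod_cast h1.1.pos
      refine ⟨⟨h1.1, ?_⟩, ?_⟩
      · rw [← Real.exp_log hX0, ← Real.exp_log hp0, ← Real.exp_nat_mul]
        apply Real.exp_le_exp.2
        have h2 : ((v : ℝ) + 1) ≤ v₁ := by exact_mod_cast hv.2
        have h3 := h1.2.2
        push_cast at h3 ⊢
        have h4 : ((v : ℝ) + 1) / 10 ≤ Real.log X / 4 := by linarith
        linarith
      · have h2 : b * ℓ + 1 ≤ Real.log p := by
          refine le_trans ?_ h1.2.1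
          have h3 : (v₀ : ℝ) ≤ v := by exact_mod_cast hv.1
          push_cast
          linarith
        have h3 : (N : ℝ) ^ b + 1 < p := by
          have h4 : (N : ℝ) ^ b = Real.exp (b * ℓ) := by
            rw [Real.rpow_def_of_pos hN0, mul_comm]
          have h5 : (1 : ℝ) ≤ Real.exp (b * ℓ) := Real.one_le_exp (by linarith)
          have h6 : Real.exp (b * ℓ + 1) ≤ p := by
            rw [← Real.exp_log hp0]; exact Real.exp_le_exp.2 h2
          have h7 : (2.7 : ℝ) < Real.exp 1 := by linarith [Real.exp_one_gt_d9]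
          rw [Real.exp_add] at h6
          rw [h4]
          nlinarith
        have h4 : (z : ℝ) < (N : ℝ) ^ b + 1 := Nat.ceil_lt_add_one (by positivity)
        exact_mod_cast h4.trans h3
    have key := tk_pass hC0 hC hX1 (fun p hp => (hprim p hp).1) hWsum hW1 hF1
    have hmult : ‖∑ p ∈ PR 10 v₀ v₁, ∑ n ∈ (Ico X (2 * X)).filter (fun n => p ∣ n), F n‖
        ≤ k * ‖∑ n ∈ Ico X (2 * X), F n‖ := by
      have e1 : ∑ p ∈ PR 10 v₀ v₁, ∑ n ∈ (Ico X (2 * X)).filter (fun n => p ∣ n), F n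
          = ∑ n ∈ Ico X (2 * X), (((PR 10 v₀ v₁).filter (fun p => p ∣ n)).card : ℂ) * F n := by
        simp_rw [sum_filter]
        rw [sum_comm]
        apply sum_congr rfl; intro n _
        rw [← sum_filter, sum_const, nsmul_eq_mul]
      have e2 : ∑ n ∈ Ico X (2 * X), F n = ((∑ n ∈ Ico X (2 * X), (if (lf z n).length < k then (1 : ℝ) else 0) : ℝ) : ℂ) := by
        rw [Complex.ofReal_sum]
        apply sum_congr rfl; intro n _
        rw [hF]; simp only
        split_ifs <;> simp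
      rw [e1, e2, Complex.norm_real, Real.norm_eq_abs, abs_of_nonneg (sum_nonneg fun n _ => by split_ifs <;> norm_num),
        mul_sum]
      refine (norm_sum_le _ _).trans (sum_le_sum fun n hn => ?_)
      rw [norm_mul]
      rw [hF]; simp only
      split_ifs with h
      · rw [norm_one, mul_one, mul_one, Complex.norm_natCast]
        have hnpos : n ≠ 0 := by rw [mem_Ico] at hn; omega
        have h5 : ((PR 10 v₀ v₁).filter (fun p => p ∣ n)) ⊆ (lf z n).toFinset := by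
          intro p hp
          rw [mem_filter] at hp
          rw [List.mem_toFinset]
          unfold lf
          rw [List.mem_filter, Nat.mem_primeFactorsList hnpos]
          exact ⟨⟨(hprim p hp.1).1.1, hp.2⟩, by simpa using (hprim p hp.1).2⟩
        have h6 := (card_le_card h5).trans (List.toFinset_card_le _)
        exact_mod_cast (h6.trans h.le)
      · simp
    set Q := ‖∑ n ∈ Ico X (2 * X), F n‖ with hQ
    have hQ0 : 0 ≤ Q := norm_nonneg _
    have hsq : Real.sqrt (2 * C * W) ≤ W * (ε / 32) := by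
      apply Real.sqrt_le_iff.2
      refine ⟨by positivity, ?_⟩
      rw [div_le_iff₀ (by positivity)] at hW3
      have h1 : 2048 * C * W ≤ W * ε ^ 2 * W := mul_le_mul_of_nonneg_right hW3 (by linarith)
      nlinarith
    have h7 : W / 2 * Q ≤ X * (W * (ε / 32)) := by
      have h8 : X * Real.sqrt (2 * C * W) ≤ X * (W * (ε / 32)) := mul_le_mul_of_nonneg_left hsq hX0.le
      have h9 : 2 * k * Q ≤ W * Q := mul_le_mul_of_nonneg_right hW2 hQ0
      linarith
    have h8 : W / 2 * Q ≤ W / 2 * (ε / 2 / 4 * X) := by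
      refine h7.trans ?_
      have : 0 ≤ W * (ε * X) := by positivity
      linarith
    exact le_of_mul_le_mul_left h8 (by linarith)
  have key := halving' (ε := ε / 2) (by positivity) (X0 := ⌈ε * N / 32⌉₊) (B := N) hF1 hblock N le_rfl
  have e : ∑ n ∈ Icc 1 N, F n = ∑ n ∈ Ico 1 N, F n + F N := by
    have h2 : Icc 1 N = Ico 1 (N + 1) := by ext n; simp only [mem_Icc, mem_Ico]; omega
    rw [h2, sum_Ico_succ_top (by omega)]
  have e3 : (((Icc 1 N).filter (fun n => (lf z n).length < k)).card : ℝ) = ‖∑ n ∈ Icc 1 N, F n‖ := by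
    have e2 : ∑ n ∈ Icc 1 N, F n = ((((Icc 1 N).filter (fun n => (lf z n).length < k)).card : ℝ) : ℂ) := by
      rw [card_filter]
      push_cast
      apply sum_congr rfl; intro n _
      rw [hF]; simp only
      split_ifs <;> simp
    rw [e2, Complex.norm_real, Real.norm_eq_abs, abs_of_nonneg (Nat.cast_nonneg _)]
  rw [e3, e]
  refine (norm_add_le _ _).trans ?_
  have h3 := hF1 N
  have c1 : ((⌈ε * N / 32⌉₊ : ℕ) : ℝ) ≤ ε * N / 32 + 1 := (Nat.ceil_lt_add_one (by positivity)).le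
  have c2 : ((⌈4 / (ε / 2)⌉₊ : ℕ) : ℝ) ≤ 8 / ε + 1 := by
    have e4 : 4 / (ε / 2) = 8 / ε := by field_simp; norm_num
    rw [e4]
    exact (Nat.ceil_lt_add_one (by positivity)).le
  push_cast at key
  have h8 : 0 < 8 / ε := by positivity
  rw [div_le_iff₀ hε] at hNK
  have h9 : 0 < ε * N := by positivity
  linarith

/-- ORTHOGONALITY TO FUNCTIONS OF THE PRIME FACTORS OUTSIDE A WINDOW. -/
theorem orth_outer {s : ℤ} (hs : s = 1 ∨ s = -1) {ε : ℝ} (hε : 0 < ε) (hε1 : ε ≤ 1) : ∃ b0 : ℝ, 0 < b0 ∧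
    ∀ b : ℝ, 0 < b → b ≤ b0 → ∃ a : ℝ, 0 < a ∧ a < b ∧
    ∃ N0 : ℕ, 1 ≤ N0 ∧ ∀ S : Set ℤ, Inv 1 S → ∀ δ : ℝ, HD s S δ → ∀ N : ℕ, N0 ≤ N → ∀ y z : ℕ,
    (y : ℝ) ≤ (N : ℝ) ^ a → (N : ℝ) ^ b ≤ z → ∀ γ : ℝ,
    ∀ g : ℕ → ℂ, MulB g → ∀ Φ : ℕ → ℂ, (∀ n, ‖Φ n‖ ≤ 1) →
      ‖∑ n ∈ Icc 1 N, tw (bal s S δ) γ (n : ℤ) * (g n * Φ (outer y z n))‖ ≤ ε * N := by
  obtain ⟨H, hH10, hH, ϑ0, hϑ0, hgen⟩ := inv_gen hs hε hε1 (1 ^ 0)
  refine ⟨ϑ0 / 8, by positivity, fun b hb hb0 => ?_⟩
  obtain ⟨θ1, hθ1, N0, hN01, hN0⟩ := hgen (8 * b) (by positivity) (by linarith)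
  refine ⟨min (θ1 / 4) (b / 2), by positivity, (min_le_right _ _).trans_lt (by linarith), N0 + 2, by omega,
    fun S hS δ hδ N hN y z hy hz γ g hg Φ hΦ => ?_⟩
  have hN2 : (2 : ℝ) ≤ N := by exact_mod_cast (by omega : 2 ≤ N)
  have hNp : (0 : ℝ) < N := by linarith
  have key := hyp_thr (N := N) (ϑ := 8 * b) (θ1 := θ1) hε (d := 0) (K := 1) le_rfl (by simp) hH10 hH hg
    (f := fun i => Fin.elim0 i) (fun i => Fin.elim0 i) (fun i => Fin.elim0 i) (Ψ := fun n => Φ (outer y z n)) (fun n => hΦ _) (by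
      intro X p m hX1 hX2 hp hp1 hp2
      have hX0 : (0 : ℝ) < X := by
        have : 0 < X := by
          rcases Nat.eq_zero_or_pos X with h | h
          · subst h; omega
          · exact h
        exact_mod_cast this
      show Φ (outer y z (p * m)) = Φ (outer y z m)
      rw [outer_mul hp]
      · have h1 : (y : ℝ) < p := by
          have h2 : (N : ℝ) ^ (min (θ1 / 4) (b / 2)) ≤ (N : ℝ) ^ (θ1 / 4) :=
            Real.rpow_le_rpow_of_exponent_le (by linarith) (min_le_left _ _)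
          have h3 : (N : ℝ) ^ (θ1 / 4) < (N : ℝ) ^ (θ1 / 2) :=
            Real.rpow_lt_rpow_of_exponent_lt (by linarith) (by linarith)
          have h4 : (N : ℝ) ^ (θ1 / 2) ≤ (X : ℝ) ^ θ1 := by
            have h5 : (N : ℝ) ≤ (X : ℝ) ^ (2 : ℝ) := by
              rw [Real.rpow_two, sq]; exact_mod_cast hX1
            calc (N : ℝ) ^ (θ1 / 2) ≤ ((X : ℝ) ^ (2 : ℝ)) ^ (θ1 / 2) := Real.rpow_le_rpow hNp.le h5 (by positivity)
              _ = (X : ℝ) ^ θ1 := by rw [← Real.rpow_mul hX0.le]; congr 1; ring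
          linarith
        exact_mod_cast h1
      · have h1 : (p : ℝ) ≤ z := by
          have e : 8 * b / 8 = b := by ring
          rw [e] at hp2
          have h2 : (X : ℝ) ^ b ≤ (N : ℝ) ^ b := Real.rpow_le_rpow hX0.le (by exact_mod_cast hX2) hb.le
          linarith
        exact_mod_cast h1)
  have e : ∀ n : ℕ, thr g (fun i : Fin 0 => (Fin.elim0 i : ℕ → ℝ)) (fun i : Fin 0 => (Fin.elim0 i : ℝ)) (fun n => Φ (outer y z n)) n
      = g n * Φ (outer y z n) := by
    intro n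
    unfold thr
    exact if_pos (fun i => Fin.elim0 i)
  have h9 := hN0 N (by omega) S hS δ hδ γ _ key
  simp only [e] at h9
  exact h9

/-- ORTHOGONALITY TO FUNCTIONS OF THE LARGEST PRIME FACTORS. -/
theorem orth_top {s : ℤ} (hs : s = 1 ∨ s = -1) {ε : ℝ} (hε : 0 < ε) (hε1 : ε ≤ 1) (k : ℕ) :
    ∃ N0 : ℕ, 1 ≤ N0 ∧ ∀ S : Set ℤ, Inv 1 S → ∀ δ : ℝ, HD s S δ → ∀ N : ℕ, N0 ≤ N → ∀ γ : ℝ,
    ∀ g : ℕ → ℂ, MulB g → ∀ Φ : List ℕ → ℂ, (∀ l, ‖Φ l‖ ≤ 1) →
      ‖∑ n ∈ Icc 1 N, tw (bal s S δ) γ (n : ℤ) * (g n * Φ (top k n))‖ ≤ ε * N := by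
  obtain ⟨b0, hb0, h1⟩ := orth_outer hs (show 0 < ε / 4 by positivity) (by linarith)
  obtain ⟨b1, hb1, h2⟩ := few_large k (show 0 < ε / 4 by positivity) (by linarith)
  set b : ℝ := min b0 b1 with hb
  have hbp : 0 < b := by positivity
  obtain ⟨a, ha, hab, N0, hN0, h3⟩ := h1 b hbp (min_le_left _ _)
  obtain ⟨N1, hN1, h4⟩ := h2 b hbp (min_le_right _ _)
  refine ⟨N0 + N1 + 1, by omega, fun S hS δ hδ N hN γ g hg Φ hΦ => ?_⟩
  obtain ⟨hd0, hd1⟩ := HD_mem hs hδ
  have hNr : (1 : ℝ) ≤ N := by exact_mod_cast (by omega : 1 ≤ N)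
  set y : ℕ := ⌊(N : ℝ) ^ a⌋₊ with hy
  set z : ℕ := ⌈(N : ℝ) ^ b⌉₊ with hz
  have hyz : y ≤ z := by
    have h5 : (y : ℝ) ≤ z := by
      calc (y : ℝ) ≤ (N : ℝ) ^ a := Nat.floor_le (by positivity)
        _ ≤ (N : ℝ) ^ b := Real.rpow_le_rpow_of_exponent_le hNr hab.le
        _ ≤ z := Nat.le_ceil _
    exact_mod_cast h5
  have h5 := h3 S hS δ hδ N (by omega) y z (Nat.floor_le (by positivity)) (Nat.le_ceil _) γ g hg
    (fun n => Φ (top k n)) (fun n => hΦ _)
  have h6 := h4 N (by omega)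
  have h7 : ‖∑ n ∈ Icc 1 N, tw (bal s S δ) γ (n : ℤ) * (g n * Φ (top k n))
      - ∑ n ∈ Icc 1 N, tw (bal s S δ) γ (n : ℤ) * (g n * Φ (top k (outer y z n)))‖
      ≤ 2 * (((Icc 1 N).filter (fun n => (lf z n).length < k)).card : ℝ) := by
    rw [← sum_sub_distrib, card_filter]
    push_cast
    rw [mul_sum]
    refine (norm_sum_le _ _).trans (sum_le_sum fun n _ => ?_)
    split_ifs with h
    · have hb : ∀ w : ℂ, ‖w‖ ≤ 1 → ‖tw (bal s S δ) γ (n : ℤ) * (g n * w)‖ ≤ 1 := fun w hw => by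
        rw [norm_mul, norm_mul]
        exact mul_le_one₀ (tw_norm (fun n => bal_abs hd0 hd1 n) _ _) (by positivity)
          (mul_le_one₀ (hg.1 _) (norm_nonneg _) hw)
      have g1 := hb _ (hΦ (top k n))
      have g2 := hb _ (hΦ (top k (outer y z n)))
      refine (norm_sub_le _ _).trans ?_
      linarith
    · rw [top_outer hyz (not_lt.1 h), sub_self, norm_zero, mul_zero]
  have e : ∑ n ∈ Icc 1 N, tw (bal s S δ) γ (n : ℤ) * (g n * Φ (top k n))
      = (∑ n ∈ Icc 1 N, tw (bal s S δ) γ (n : ℤ) * (g n * Φ (top k n))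
      - ∑ n ∈ Icc 1 N, tw (bal s S δ) γ (n : ℤ) * (g n * Φ (top k (outer y z n))))
      + ∑ n ∈ Icc 1 N, tw (bal s S δ) γ (n : ℤ) * (g n * Φ (top k (outer y z n))) := by ring
  rw [e]
  refine (norm_add_le _ _).trans ?_
  have h8 : 0 < ε * N := by positivity
  linarith

end Pool.Agent.Q49.AF
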