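import Pool.Agent.Q49.AF.Gen
import Pool.Agent.Q49.AF.Outer
import Pool.Agent.Y964.LW.C4

/-! The total stopping time, additive functions and large prime factors. -/

set_option autoImplicit false

namespace Pool.Agent.Q49.AF

open Pool.Agent.H320R2.PD Pool.Agent.H499R2.ND Pool.Agent.H499R2.CO Finset MeasureTheory Filter Topology
  Pool.Agent.H376R2.MR Pool.Agent.W41.FU Pool.Agent.W41 Pool.Agent.W41.MU
open Pool.Agent.Y964.LW (Fam)

open scoped Classical in
/-- The property `P` has the frequency `l` relative to all multiplicative functions restricted by thresholds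
of additive functions and multiplied by functions of the largest prime factors. -/
def RT (P : ℕ → Prop) (l : ℝ) : Prop := ∀ (d k : ℕ) (ε : ℝ), 0 < ε → ε ≤ 1 → ∃ N0 : ℕ, 1 ≤ N0 ∧ ∀ N : ℕ, N0 ≤ N →
  ∀ g : ℕ → ℂ, MulB g → ∀ f : Fin d → ℕ → ℝ, (∀ i, AddR (f i)) → ∀ t : Fin d → ℝ, ∀ Φ : List ℕ → ℂ, (∀ l, ‖Φ l‖ ≤ 1) →
    ‖∑ n ∈ Icc 1 N, ((if P n then (1 : ℂ) else 0) - l) * thr g f t (fun n => Φ (top k n)) n‖ ≤ ε * N

theorem fam_RT {s : ℤ} (hs : s = 1 ∨ s = -1) {R : ℕ} {ι : Type} (A : Fam s R ι) (i : ι) (x : ℝ) :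
    RT (fun n => A.E i (Pool.Agent.Y964.LW.thr A.α A.σ x (Real.log n)) n) (A.F i x) := by
  classical
  intro d k ε hε hε1
  obtain ⟨F0, F1⟩ := A.F01 i x
  obtain ⟨K, hK⟩ : ∃ K : ℕ, K = ⌈512 * d / (ε / 4)⌉₊ + 1 := ⟨_, rfl⟩
  have hK1 : 1 ≤ K := by omega
  have hdK : 512 * d / (ε / 4) ≤ K := (Nat.le_ceil _).trans (by exact_mod_cast (by omega : ⌈512 * (d : ℝ) / (ε / 4)⌉₊ ≤ K))
  obtain ⟨H, hHd⟩ : ∃ H : ℕ, H = ⌈2048 / (ε / 4)⌉₊ + 10 := ⟨_, rfl⟩
  have hH10 : 10 ≤ H := by omega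
  have hH : 2048 / (ε / 4) ≤ H := (Nat.le_ceil _).trans (by exact_mod_cast (by omega : ⌈2048 / (ε / 4)⌉₊ ≤ H))
  obtain ⟨ϑ0, hϑ0, hgen⟩ := fam_gen hs A i x (show 0 < ε / 4 by positivity) (by linarith) (K ^ d) hH10 hH
  obtain ⟨b1, hb1, h2⟩ := few_large k (show 0 < ε / 4 by positivity) (by linarith)
  set b : ℝ := min (ϑ0 / 8) b1 with hb
  have hbp : 0 < b := by positivity
  obtain ⟨θ1, hθ1, N0, hN01, hN0⟩ := hgen (8 * b) (by positivity) (by
    have := min_le_left (ϑ0 / 8) b1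
    linarith)
  obtain ⟨N1, hN1, h4⟩ := h2 b hbp (min_le_right _ _)
  set a : ℝ := min (θ1 / 4) (b / 2) with ha
  have hap : 0 < a := by positivity
  have hab : a < b := (min_le_right _ _).trans_lt (by linarith)
  refine ⟨N0 + N1 + 2, by omega, fun N hN g hg f hf t Φ hΦ => ?_⟩
  have hN2 : (2 : ℝ) ≤ N := by exact_mod_cast (by omega : 2 ≤ N)
  have hNp : (0 : ℝ) < N := by linarith
  set y : ℕ := ⌊(N : ℝ) ^ a⌋₊ with hy
  set z : ℕ := ⌈(N : ℝ) ^ b⌉₊ with hz
  have hya : (y : ℝ) ≤ (N : ℝ) ^ a := Nat.floor_le (by positivity)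
  have hzb : (N : ℝ) ^ b ≤ z := Nat.le_ceil _
  have hyz : y ≤ z := by
    have h5 : (y : ℝ) ≤ z := by
      calc (y : ℝ) ≤ (N : ℝ) ^ a := hya
        _ ≤ (N : ℝ) ^ b := Real.rpow_le_rpow_of_exponent_le (by linarith) hab.le
        _ ≤ z := hzb
    exact_mod_cast h5
  have key := hyp_thr (N := N) (ϑ := 8 * b) (θ1 := θ1) (show 0 < ε / 4 by positivity) hK1 hdK hH10 hH hg
    hf t (Ψ := fun n => Φ (top k (outer y z n))) (fun n => hΦ _) (by
      intro X p m hX1 hX2 hp hp1 hp2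
      have hX0 : (0 : ℝ) < X := by
        have : 0 < X := by
          rcases Nat.eq_zero_or_pos X with h | h
          · subst h; omega
          · exact h
        exact_mod_cast this
      show Φ (top k (outer y z (p * m))) = Φ (top k (outer y z m))
      rw [outer_mul hp]
      · have h1 : (y : ℝ) < p := by
          have h2 : (N : ℝ) ^ a ≤ (N : ℝ) ^ (θ1 / 4) :=
            Real.rpow_le_rpow_of_exponent_le (by linarith) (min_le_left _ _)
          have h3 : (N : ℝ) ^ (θ1 / 4) < (N : ℝ) ^ (θ1 / 2) :=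
            Real.rpow_lt_rpow_of_exponent_lt (by linarith) (by linarith)
          have h4 : (N : ℝ) ^ (θ1 / 2) ≤ (X : ℝ) ^ θ1 := by
            have h5 : (N : ℝ) ≤ (X : ℝ) ^ (2 : ℝ) := by
              rw [Real.rpow_two, sq]; exact_mod_cast hX1
            calc (N : ℝ) ^ (θ1 / 2) ≤ ((X : ℝ) ^ (2 : ℝ)) ^ (θ1 / 2) := Real.rpow_le_rpow hNp.le h5 (by positivity)
              _ = (X : ℝ) ^ θ1 := by rw [← Real.rpow_mul hX0.le]; congr 1; ring
          linarith
        exact_mod_cast h1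
      · have h1 : (p : ℝ) ≤ z := by
          have e : 8 * b / 8 = b := by ring
          rw [e] at hp2
          have h2 : (X : ℝ) ^ b ≤ (N : ℝ) ^ b := Real.rpow_le_rpow hX0.le (by exact_mod_cast hX2) hbp.le
          linarith
        exact_mod_cast h1)
  have h5 := hN0 N (by omega) _ key
  have h6 := h4 N (by omega)
  set c : ℕ → ℂ := fun n => (if A.E i (Pool.Agent.Y964.LW.thr A.α A.σ x (Real.log n)) n then (1 : ℂ) else 0) - A.F i x with hc
  have hc1 : ∀ n, ‖c n‖ ≤ 1 := by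
    intro n
    rw [hc]; simp only
    split_ifs
    · have e : (1 : ℂ) - (A.F i x : ℂ) = ((1 - A.F i x : ℝ) : ℂ) := by push_cast; ring
      rw [e, Complex.norm_real, Real.norm_eq_abs, abs_le]
      constructor <;> linarith
    · rw [zero_sub, norm_neg, Complex.norm_real, Real.norm_eq_abs, abs_le]
      constructor <;> linarith
  have h7 : ‖∑ n ∈ Icc 1 N, c n * thr g f t (fun n => Φ (top k n)) n
      - ∑ n ∈ Icc 1 N, c n * thr g f t (fun n => Φ (top k (outer y z n))) n‖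
      ≤ 2 * (((Icc 1 N).filter (fun n => (lf z n).length < k)).card : ℝ) := by
    rw [← sum_sub_distrib, card_filter]
    push_cast
    rw [mul_sum]
    refine (norm_sum_le _ _).trans (sum_le_sum fun n _ => ?_)
    split_ifs with h
    · have g1 : ‖c n * thr g f t (fun n => Φ (top k n)) n‖ ≤ 1 := by
        rw [norm_mul]
        exact mul_le_one₀ (hc1 n) (norm_nonneg _) (thr_norm hg.1 f t (fun n => hΦ _) n)
      have g2 : ‖c n * thr g f t (fun n => Φ (top k (outer y z n))) n‖ ≤ 1 := by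
        rw [norm_mul]
        exact mul_le_one₀ (hc1 n) (norm_nonneg _) (thr_norm hg.1 f t (fun n => hΦ _) n)
      refine (norm_sub_le _ _).trans ?_
      linarith
    · have e : thr g f t (fun n => Φ (top k n)) n = thr g f t (fun n => Φ (top k (outer y z n))) n := by
        unfold thr
        simp only
        rw [top_outer hyz (not_lt.1 h)]
      rw [e, sub_self, norm_zero, mul_zero]
  have e : ∑ n ∈ Icc 1 N, c n * thr g f t (fun n => Φ (top k n)) n
      = (∑ n ∈ Icc 1 N, c n * thr g f t (fun n => Φ (top k n)) n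
      - ∑ n ∈ Icc 1 N, c n * thr g f t (fun n => Φ (top k (outer y z n))) n)
      + ∑ n ∈ Icc 1 N, c n * thr g f t (fun n => Φ (top k (outer y z n))) n := by ring
  show ‖∑ n ∈ Icc 1 N, c n * thr g f t (fun n => Φ (top k n)) n‖ ≤ ε * N
  rw [e]
  refine (norm_add_le _ _).trans ?_
  have h8 : 0 < ε * N := by positivity
  linarith

theorem RT_congr {P Q : ℕ → Prop} {l : ℝ} (h : ∀ n, 1 ≤ n → (P n ↔ Q n)) (H : RT P l) : RT Q l := by
  classical
  intro d k ε hε hε1
  obtain ⟨N0, h0, h1⟩ := H d k ε hε hε1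
  refine ⟨N0, h0, fun N hN g hg f hf t Φ hΦ => ?_⟩
  have h2 := h1 N hN g hg f hf t Φ hΦ
  refine le_trans (le_of_eq ?_) h2
  congr 1
  apply sum_congr rfl; intro n hn
  rw [mem_Icc] at hn
  have h3 := h n hn.1
  by_cases h4 : P n
  · rw [if_pos h4, if_pos (h3.1 h4)]
  · rw [if_neg h4, if_neg (fun h5 => h4 (h3.2 h5))]

end Pool.Agent.Q49.AF
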