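import Pool.Agent.Q49.AF.Lev
import Pool.Agent.Q49.AF.RT

/-! Thresholds of real additive functions, arbitrary functions of additive functions with few values at the
primes, and of the large prime factors, together. -/

set_option autoImplicit false

namespace Pool.Agent.Q49.AF

open Pool.Agent.H320R2.PD Pool.Agent.H499R2.ND Pool.Agent.H499R2.CO Finset MeasureTheory Filter Topology
  Pool.Agent.H376R2.MR Pool.Agent.W41.FU Pool.Agent.W41 Pool.Agent.W41.MU
open Pool.Agent.Y964.LW (Fam)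

open scoped Classical in
/-- the functions -/
noncomputable def cls {A : Type} {d : ℕ} (g : ℕ → ℂ) (f : Fin d → ℕ → ℝ) (t : Fin d → ℝ) (h : ℕ → A) (Φ : ℕ → A → ℂ) (n : ℕ) : ℂ :=
  if ∀ i, f i n ≤ t i then g n * Φ n (h n) else 0

theorem cls_norm {A : Type} {d : ℕ} {g : ℕ → ℂ} (hg : ∀ n, ‖g n‖ ≤ 1) (f : Fin d → ℕ → ℝ) (t : Fin d → ℝ) (h : ℕ → A)
    {Φ : ℕ → A → ℂ} (hΦ : ∀ n a, ‖Φ n a‖ ≤ 1) (n : ℕ) : ‖cls g f t h Φ n‖ ≤ 1 := by
  unfold cls
  split_ifs
  · rw [norm_mul]; exact mul_le_one₀ (hg n) (norm_nonneg _) (hΦ n _)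
  · simp

open scoped Classical in
theorem spl_all {A : Type} [AddCommMonoid A] {d K : ℕ} (hK : 1 ≤ K) {g : ℕ → ℂ} (hg : MulB g)
    {f : Fin d → ℕ → ℝ} (hf : ∀ i, AddR (f i)) (t : Fin d → ℝ) {h : ℕ → A} (hh : AddA h)
    {V : Finset A} (hV : ∀ p : ℕ, p.Prime → h p ∈ V) {r : ℕ} (hVr : V.card ≤ r)
    {Φ : ℕ → A → ℂ} (hΦ : ∀ n a, ‖Φ n a‖ ≤ 1) {η P : ℝ} {H v M : ℕ}
    (hΦc : ∀ p ∈ cell H v, ∀ m a, Φ (p * m) a = Φ m a)
    {T : Finset ℂ} (hT1 : 1 ≤ T.card) (hT : ∀ z ∈ T, ‖z‖ ≤ 1) (hTn : ∀ z : ℂ, ‖z‖ ≤ 1 → ∃ w ∈ T, ‖z - w‖ ≤ η / 4)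
    (hη : 0 ≤ η) (hP : P = Real.exp ((v : ℝ) / H)) (hM : 1 ≤ M)
    (h1 : (d : ℝ) / K ≤ η / 4) (h2 : 2 / P + 2 / M ≤ η / 2) :
    Spl (K ^ d * T.card ^ r) η (cls g f t h Φ) H v M := by
  have hK0 : (0 : ℝ) < K := by exact_mod_cast hK
  have hP0 : 0 < P := by rw [hP]; exact Real.exp_pos _
  have hM0 : (0 : ℝ) < M := by exact_mod_cast hM
  have hmm0 : 0 ≤ mm H v := sum_nonneg fun p _ => by positivity
  have hnet' := fun i : Fin d => prefix_net (cell H v) (fun p => 1 / (p : ℝ)) (fun p _ => by positivity) (f i) hK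
  choose B hB using hnet'
  choose k hk using hB
  have hnet : ∀ m a, ∃ w : ↥T, ‖Φ m (a + h m) - w‖ ≤ η / 4 := by
    intro m a
    obtain ⟨w, hw, hw2⟩ := hTn _ (hΦ m (a + h m))
    exact ⟨⟨w, hw⟩, hw2⟩
  choose w hw using hnet
  refine ⟨(Fin d → Fin K) × (↥V → ↥T), inferInstance,
    fun κ p => if ∀ i, p ∈ B i (κ.1 i) then (if hp : h p ∈ V then (κ.2 ⟨h p, hp⟩ : ℂ) * g p else 0) else 0,
    fun m => (fun i => k i (t i - f i m), fun a => w m a), g, ?_, ?_, hg.1, ?_⟩
  · rw [Fintype.card_prod, Fintype.card_fun, Fintype.card_fin, Fintype.card_fin, Fintype.card_fun, Fintype.card_coe,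
      Fintype.card_coe]
    exact Nat.mul_le_mul_left _ (Nat.pow_le_pow_right hT1 hVr)
  · intro κ p
    simp only
    split_ifs with hp1 hp
    · rw [norm_mul]
      exact mul_le_one₀ (hT _ (κ.2 ⟨h p, hp⟩).2) (norm_nonneg _) (hg.1 p)
    · simp
    · simp
  · have hterm : ∀ m ∈ Ico M (2 * M), ∀ p ∈ cell H v,
        ‖cls g f t h Φ (p * m) - g m * (if ∀ i, p ∈ B i (k i (t i - f i m)) then
          (if hp : h p ∈ V then ((w m (h p) : ↥T) : ℂ) * g p else 0) else 0)‖ / p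
        ≤ ∑ i : Fin d, (if (f i p ≤ t i - f i m ↔ p ∈ B i (k i (t i - f i m))) then 0 else 1 / (p : ℝ))
          + (η / 4 * (1 / p) + (if p ∣ m then 2 / (p : ℝ) else 0)) := by
      intro m _ p hp
      have hpp := (cell_lt hp).1
      have hp0 : (0 : ℝ) < p := by exact_mod_cast hpp.pos
      have hsum0 : 0 ≤ ∑ i : Fin d, (if (f i p ≤ t i - f i m ↔ p ∈ B i (k i (t i - f i m))) then 0 else 1 / (p : ℝ)) :=
        sum_nonneg fun i _ => by split_ifs <;> positivity
      have hη0 : 0 ≤ η / 4 * (1 / p) := by positivity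
      rw [dif_pos (hV p hpp)]
      by_cases hpm : p ∣ m
      · rw [if_pos hpm]
        have hn : ‖cls g f t h Φ (p * m) - g m * (if ∀ i, p ∈ B i (k i (t i - f i m)) then
            (((w m (h p) : ↥T) : ℂ) * g p) else 0)‖ ≤ 2 := by
          refine (norm_sub_le _ _).trans ?_
          have b1 := cls_norm hg.1 f t h hΦ (p * m)
          have b2 : ‖g m * (if ∀ i, p ∈ B i (k i (t i - f i m)) then (((w m (h p) : ↥T) : ℂ) * g p) else 0)‖ ≤ 1 := by
            rw [norm_mul]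
            apply mul_le_one₀ (hg.1 m) (norm_nonneg _)
            split_ifs
            · rw [norm_mul]; exact mul_le_one₀ (hT _ (w m (h p)).2) (norm_nonneg _) (hg.1 _)
            · simp
          linarith
        have := div_le_div_of_nonneg_right hn hp0.le
        linarith
      · rw [if_neg hpm, add_zero]
        have hco : Nat.Coprime p m := (Nat.Prime.coprime_iff_not_dvd hpp).2 hpm
        have e1 : (∀ i, f i (p * m) ≤ t i) ↔ ∀ i, f i p ≤ t i - f i m := by
          apply forall_congr'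
          intro i
          rw [hf i p m hco]
          constructor <;> intro h <;> linarith
        unfold cls
        rw [hg.2 p m hco, hΦc p hp m, hh p m hco]
        by_cases hall : ∀ i, (f i p ≤ t i - f i m ↔ p ∈ B i (k i (t i - f i m)))
        · have e2 : (∀ i, f i (p * m) ≤ t i) ↔ ∀ i, p ∈ B i (k i (t i - f i m)) := by
            rw [e1]; exact forall_congr' hall
          have e3 : ‖(if ∀ i, f i (p * m) ≤ t i then g p * g m * Φ m (h p + h m) else 0)
              - g m * (if ∀ i, p ∈ B i (k i (t i - f i m)) then (((w m (h p) : ↥T) : ℂ) * g p) else 0)‖ ≤ η / 4 := by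
            by_cases hb : ∀ i, p ∈ B i (k i (t i - f i m))
            · rw [if_pos (e2.2 hb), if_pos hb]
              have e : g p * g m * Φ m (h p + h m) - g m * (((w m (h p) : ↥T) : ℂ) * g p)
                  = (g p * g m) * (Φ m (h p + h m) - ((w m (h p) : ↥T) : ℂ)) := by ring
              rw [e, norm_mul, norm_mul]
              have h3 : ‖g p‖ * ‖g m‖ * ‖Φ m (h p + h m) - ((w m (h p) : ↥T) : ℂ)‖ ≤ 1 * (η / 4) :=
                mul_le_mul (mul_le_one₀ (hg.1 _) (norm_nonneg _) (hg.1 _)) (hw m (h p)) (norm_nonneg _) (by norm_num)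
              rwa [one_mul] at h3
            · rw [if_neg (fun h' => hb (e2.1 h')), if_neg hb, mul_zero, sub_zero, norm_zero]
              positivity
          have h4 := div_le_div_of_nonneg_right e3 hp0.le
          calc _ ≤ η / 4 / p := h4
            _ = η / 4 * (1 / p) := by ring
            _ ≤ _ := by linarith
        · push Not at hall
          obtain ⟨i, hi⟩ := hall
          have hi' : ¬ (f i p ≤ t i - f i m ↔ p ∈ B i (k i (t i - f i m))) := by
            rcases hi with ⟨a, b⟩ | ⟨a, b⟩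
            · exact fun h => b (h.1 a)
            · exact fun h => absurd (h.2 b) (not_le.2 a)
          have hiff : ¬ ((∀ i, f i (p * m) ≤ t i) ∧ ∀ i, p ∈ B i (k i (t i - f i m))) ∨
              ((∀ i, f i (p * m) ≤ t i) ∧ ∀ i, p ∈ B i (k i (t i - f i m))) := (em _).symm
          have hn : ‖(if ∀ i, f i (p * m) ≤ t i then g p * g m * Φ m (h p + h m) else 0)
              - g m * (if ∀ i, p ∈ B i (k i (t i - f i m)) then (((w m (h p) : ↥T) : ℂ) * g p) else 0)‖ ≤ 1 := by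
            have hb1 : ‖g p * g m * Φ m (h p + h m)‖ ≤ 1 := by
              rw [norm_mul, norm_mul]
              exact mul_le_one₀ (mul_le_one₀ (hg.1 _) (norm_nonneg _) (hg.1 _)) (norm_nonneg _) (hΦ _ _)
            have hb2 : ‖g m * (((w m (h p) : ↥T) : ℂ) * g p)‖ ≤ 1 := by
              rw [norm_mul, norm_mul]
              exact mul_le_one₀ (hg.1 _) (by positivity) (mul_le_one₀ (hT _ (w m (h p)).2) (norm_nonneg _) (hg.1 _))
            by_cases c1 : ∀ i, f i (p * m) ≤ t i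
            · by_cases c2 : ∀ i, p ∈ B i (k i (t i - f i m))
              · exfalso
                apply hi'
                exact ⟨fun _ => c2 i, fun _ => (e1.1 c1) i⟩
              · rw [if_pos c1, if_neg c2, mul_zero, sub_zero]; exact hb1
            · by_cases c2 : ∀ i, p ∈ B i (k i (t i - f i m))
              · rw [if_neg c1, if_pos c2, zero_sub, norm_neg]; exact hb2
              · rw [if_neg c1, if_neg c2, mul_zero, sub_zero, norm_zero]; norm_num
          have h5 := div_le_div_of_nonneg_right hn hp0.le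
          refine h5.trans ?_
          have h6 := single_le_sum (f := fun i : Fin d => (if (f i p ≤ t i - f i m ↔ p ∈ B i (k i (t i - f i m))) then 0 else 1 / (p : ℝ)))
            (fun i _ => by split_ifs <;> positivity) (mem_univ i)
          simp only [if_neg hi'] at h6
          linarith
    have hsum : ∑ m ∈ Ico M (2 * M), ∑ p ∈ cell H v,
        ‖cls g f t h Φ (p * m) - g m * (if ∀ i, p ∈ B i (k i (t i - f i m)) then
          (if hp : h p ∈ V then ((w m (h p) : ↥T) : ℂ) * g p else 0) else 0)‖ / p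
        ≤ ∑ m ∈ Ico M (2 * M), ∑ p ∈ cell H v,
          (∑ i : Fin d, (if (f i p ≤ t i - f i m ↔ p ∈ B i (k i (t i - f i m))) then 0 else 1 / (p : ℝ))
          + (η / 4 * (1 / (p : ℝ)) + (if p ∣ m then 2 / (p : ℝ) else 0))) :=
      sum_le_sum fun m hm => sum_le_sum fun p hp => hterm m hm p hp
    refine hsum.trans ?_
    simp_rw [sum_add_distrib]
    have hA0 : ∑ m ∈ Ico M (2 * M), ∑ p ∈ cell H v,
        ∑ i : Fin d, (if (f i p ≤ t i - f i m ↔ p ∈ B i (k i (t i - f i m))) then 0 else 1 / (p : ℝ))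
        ≤ M * (d * (mm H v / K)) := by
      have h3 : ∀ m ∈ Ico M (2 * M), ∑ p ∈ cell H v,
          ∑ i : Fin d, (if (f i p ≤ t i - f i m ↔ p ∈ B i (k i (t i - f i m))) then 0 else 1 / (p : ℝ))
          ≤ d * (mm H v / K) := by
        intro m _
        rw [sum_comm]
        refine (sum_le_sum fun i _ => hk i (t i - f i m)).trans (le_of_eq ?_)
        rw [sum_const, card_univ, Fintype.card_fin, nsmul_eq_mul]
        rfl
      refine (sum_le_sum h3).trans (le_of_eq ?_)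
      rw [sum_const, Nat.card_Ico, show 2 * M - M = M by omega, nsmul_eq_mul]
    have hA1 : ∑ m ∈ Ico M (2 * M), ∑ p ∈ cell H v, η / 4 * (1 / (p : ℝ)) = η / 4 * (M * mm H v) := by
      simp_rw [← mul_sum]
      rw [sum_const, Nat.card_Ico, show 2 * M - M = M by omega, nsmul_eq_mul]
      rfl
    have hA2 : ∑ m ∈ Ico M (2 * M), ∑ p ∈ cell H v, (if p ∣ m then 2 / (p : ℝ) else 0)
        ≤ (2 / P + 2 / M) * (M * mm H v) := by
      rw [sum_comm]
      have h3 : ∀ p ∈ cell H v, ∑ m ∈ Ico M (2 * M), (if p ∣ m then 2 / (p : ℝ) else 0)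
          ≤ (2 / P + 2 / M) * M * (1 / p) := by
        intro p hp
        have hpp := (cell_lt hp).1
        have hp0 : (0 : ℝ) < p := by exact_mod_cast hpp.pos
        have hPp : P ≤ p := by
          rw [hP, ← Real.exp_log hp0]
          exact Real.exp_le_exp.2 (cell_lt hp).2.1
        rw [← sum_filter, sum_const, nsmul_eq_mul]
        have h4 := card_mult (M := M) hpp.one_le
        have h5 : (M : ℝ) / p ≤ M / P := div_le_div_of_nonneg_left hM0.le hP0 hPp
        calc (((Ico M (2 * M)).filter (fun m => p ∣ m)).card : ℝ) * (2 / p) ≤ (M / P + 1) * (2 / p) :=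
              mul_le_mul_of_nonneg_right (h4.trans (by linarith)) (by positivity)
          _ = (2 / P + 2 / M) * M * (1 / p) := by field_simp
      refine (sum_le_sum h3).trans (le_of_eq ?_)
      rw [← mul_sum]
      unfold mm
      ring
    rw [hA1]
    have h4 : M * (d * (mm H v / K)) ≤ η / 4 * (M * mm H v) := by
      calc M * (d * (mm H v / K)) = (d / K) * (M * mm H v) := by ring
        _ ≤ _ := mul_le_mul_of_nonneg_right h1 (by positivity)
    have h5 : (2 / P + 2 / M) * (M * mm H v) ≤ η / 2 * (M * mm H v) := mul_le_mul_of_nonneg_right h2 (by positivity)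
    linarith

theorem hyp_all {ε : ℝ} (hε : 0 < ε) {d K H N : ℕ} (hK : 1 ≤ K) (hdK : 1024 * d / ε ≤ K) (hH10 : 10 ≤ H)
    (hH : 2048 / ε ≤ H) {A : Type} [AddCommMonoid A] {g : ℕ → ℂ} (hg : MulB g)
    {f : Fin d → ℕ → ℝ} (hf : ∀ i, AddR (f i)) (t : Fin d → ℝ) {h : ℕ → A} (hh : AddA h)
    {V : Finset A} (hV : ∀ p : ℕ, p.Prime → h p ∈ V) {r : ℕ} (hVr : V.card ≤ r)
    {Φ : ℕ → A → ℂ} (hΦ : ∀ n a, ‖Φ n a‖ ≤ 1)
    {T : Finset ℂ} (hT1 : 1 ≤ T.card) (hT : ∀ z ∈ T, ‖z‖ ≤ 1) (hTn : ∀ z : ℂ, ‖z‖ ≤ 1 → ∃ w ∈ T, ‖z - w‖ ≤ ε / 1024)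
    {ϑ θ1 : ℝ}
    (hΦc : ∀ X p m : ℕ, N ≤ X * X → X ≤ N → p.Prime → (X : ℝ) ^ θ1 ≤ p → (p : ℝ) ≤ (X : ℝ) ^ (ϑ / 8) →
      ∀ a, Φ (p * m) a = Φ m a) :
    Hyp (K ^ d * T.card ^ r) (ε / 256) H ϑ θ1 N (cls g f t h Φ) := by
  have hK0 : (0 : ℝ) < K := by exact_mod_cast hK
  have hHpos : (0 : ℝ) < H := by exact_mod_cast (by omega : 0 < H)
  refine ⟨cls_norm hg.1 f t h hΦ, fun X v M hX1 hX2 hv1 hv2 h8 h28 => ?_⟩
  have hM0 : (0 : ℝ) < M := by linarith
  have hM1 : 1 ≤ M := by exact_mod_cast hM0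
  have hdK' : (d : ℝ) / K ≤ ε / 256 / 4 := by
    rw [div_le_iff₀ hε] at hdK
    rw [div_le_iff₀ hK0]
    linarith
  have hXpos : (0 : ℝ) < X := by
    rcases Nat.eq_zero_or_pos X with h | h
    · exfalso
      subst h
      have h9 : Real.exp ((v : ℝ) / H) ≤ 1 := by
        rw [Nat.cast_zero, Real.log_zero, mul_zero] at hv2
        rw [Real.exp_le_one_iff]
        refine le_trans ?_ hv2
        exact div_le_div_of_nonneg_right (by linarith) hHpos.le
      have h10 : (10 : ℝ) ≤ H := by exact_mod_cast hH10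
      linarith
    · exact_mod_cast h
  have hcell : ∀ p ∈ cell H v, ∀ m a, Φ (p * m) a = Φ m a := by
    intro p hp m
    have h1 := cell_lt hp
    have hp0 : (0 : ℝ) < p := by exact_mod_cast h1.1.pos
    apply hΦc X p m hX1 hX2 h1.1
    · rw [Real.rpow_def_of_pos hXpos, ← Real.exp_log hp0]
      apply Real.exp_le_exp.2
      rw [mul_comm]
      exact hv1.trans h1.2.1
    · rw [Real.rpow_def_of_pos hXpos, ← Real.exp_log hp0]
      apply Real.exp_le_exp.2
      rw [mul_comm (Real.log (X : ℝ))]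
      exact h1.2.2.le.trans hv2
  have hHε : 2048 ≤ ε * H := by
    rw [div_le_iff₀ hε] at hH
    linarith
  have h3 : 2 / Real.exp ((v : ℝ) / H) ≤ ε / 256 / 4 := by
    rw [div_le_iff₀ (Real.exp_pos _)]
    nlinarith
  have h4 : 2 / (M : ℝ) ≤ ε / 256 / 4 := by
    rw [div_le_iff₀ hM0]
    nlinarith
  exact spl_all hK hg hf t hh hV hVr hΦ hcell hT1 hT (by
    intro z hz
    obtain ⟨w, hw, hw2⟩ := hTn z hz
    exact ⟨w, hw, by linarith⟩) (by positivity) rfl hM1 hdK' (by linarith)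

open scoped Classical in
/-- The property `P` has the frequency `l` relative to all functions of the class. -/
def RX (P : ℕ → Prop) (l : ℝ) : Prop := ∀ (d r k : ℕ) (ε : ℝ), 0 < ε → ε ≤ 1 → ∃ N0 : ℕ, 1 ≤ N0 ∧ ∀ N : ℕ, N0 ≤ N →
  ∀ g : ℕ → ℂ, MulB g → ∀ f : Fin d → ℕ → ℝ, (∀ i, AddR (f i)) → ∀ t : Fin d → ℝ,
  ∀ (A : Type) [AddCommMonoid A], ∀ h : ℕ → A, AddA h →
  ∀ V : Finset A, (∀ p : ℕ, p.Prime → h p ∈ V) → V.card ≤ r →
  ∀ Φ : List ℕ → A → ℂ, (∀ l a, ‖Φ l a‖ ≤ 1) →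
    ‖∑ n ∈ Icc 1 N, ((if P n then (1 : ℂ) else 0) - l) * cls g f t h (fun n => Φ (top k n)) n‖ ≤ ε * N

theorem fam_RX {s : ℤ} (hs : s = 1 ∨ s = -1) {R : ℕ} {ι : Type} (A : Fam s R ι) (i : ι) (x : ℝ) :
    RX (fun n => A.E i (Pool.Agent.Y964.LW.thr A.α A.σ x (Real.log n)) n) (A.F i x) := by
  classical
  intro d r k ε hε hε1
  obtain ⟨F0, F1⟩ := A.F01 i x
  obtain ⟨T, hT1, hT, hTn⟩ := disc_net (show 0 < ε / 4 / 1024 by positivity)
  obtain ⟨K, hK⟩ : ∃ K : ℕ, K = ⌈1024 * d / (ε / 4)⌉₊ + 1 := ⟨_, rfl⟩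
  have hK1 : 1 ≤ K := by omega
  have hdK : 1024 * d / (ε / 4) ≤ K := (Nat.le_ceil _).trans (by exact_mod_cast (by omega : ⌈1024 * (d : ℝ) / (ε / 4)⌉₊ ≤ K))
  obtain ⟨H, hHd⟩ : ∃ H : ℕ, H = ⌈2048 / (ε / 4)⌉₊ + 10 := ⟨_, rfl⟩
  have hH10 : 10 ≤ H := by omega
  have hH : 2048 / (ε / 4) ≤ H := (Nat.le_ceil _).trans (by exact_mod_cast (by omega : ⌈2048 / (ε / 4)⌉₊ ≤ H))
  obtain ⟨ϑ0, hϑ0, hgen⟩ := fam_gen hs A i x (show 0 < ε / 4 by positivity) (by linarith) (K ^ d * T.card ^ r) hH10 hH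
  obtain ⟨b1, hb1, h2⟩ := few_large k (show 0 < ε / 4 by positivity) (by linarith)
  set b : ℝ := min (ϑ0 / 8) b1 with hb
  have hbp : 0 < b := by positivity
  obtain ⟨θ1, hθ1, N0, hN01, hN0⟩ := hgen (8 * b) (by positivity) (by
    have := min_le_left (ϑ0 / 8) b1
    linarith)
  obtain ⟨N1, hN1, h4⟩ := h2 b hbp (min_le_right _ _)
  set a : ℝ := min (θ1 / 4) (b / 2) with ha
  have hap : 0 < a := by positivity
  have hab : a < b := (min_le_right _ _).trans_lt (by linarith)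
  refine ⟨N0 + N1 + 2, by omega, fun N hN g hg f hf t B _ h hh V hV hVr Φ hΦ => ?_⟩
  have hN2 : (2 : ℝ) ≤ N := by exact_mod_cast (by omega : 2 ≤ N)
  have hNp : (0 : ℝ) < N := by linarith
  set y : ℕ := ⌊(N : ℝ) ^ a⌋₊ with hy
  set z : ℕ := ⌈(N : ℝ) ^ b⌉₊ with hz
  have hya : (y : ℝ) ≤ (N : ℝ) ^ a := Nat.floor_le (by positivity)
  have hzb : (N : ℝ) ^ b ≤ z := Nat.le_ceil _
  have hyz : y ≤ z := by
    have h5 : (y : ℝ) ≤ z := by
      calc (y : ℝ) ≤ (N : ℝ) ^ a := hya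
        _ ≤ (N : ℝ) ^ b := Real.rpow_le_rpow_of_exponent_le (by linarith) hab.le
        _ ≤ z := hzb
    exact_mod_cast h5
  have key := hyp_all (N := N) (ϑ := 8 * b) (θ1 := θ1) (show 0 < ε / 4 by positivity) hK1 hdK hH10 hH hg
    hf t hh hV hVr (Φ := fun n => Φ (top k (outer y z n))) (fun n a => hΦ _ _) hT1 hT hTn (by
      intro X p m hX1 hX2 hp hp1 hp2 a'
      have hX0 : (0 : ℝ) < X := by
        have : 0 < X := by
          rcases Nat.eq_zero_or_pos X with h | h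
          · subst h; omega
          · exact h
        exact_mod_cast this
      show Φ (top k (outer y z (p * m))) a' = Φ (top k (outer y z m)) a'
      rw [outer_mul hp]
      · have h1 : (y : ℝ) < p := by
          have h2 : (N : ℝ) ^ a ≤ (N : ℝ) ^ (θ1 / 4) :=
            Real.rpow_le_rpow_of_exponent_le (by linarith) (min_le_left _ _)
          have h3 : (N : ℝ) ^ (θ1 / 4) < (N : ℝ) ^ (θ1 / 2) :=
            Real.rpow_lt_rpow_of_exponent_lt (by linarith) (by linarith)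
          have h4 : (N : ℝ) ^ (θ1 / 2) ≤ (X : ℝ) ^ θ1 := by
            have h5 : (N : ℝ) ≤ (X : ℝ) ^ (2 : ℝ) := by
              rw [Real.rpow_two, sq]; exact_mod_cast hX1
            calc (N : ℝ) ^ (θ1 / 2) ≤ ((X : ℝ) ^ (2 : ℝ)) ^ (θ1 / 2) := Real.rpow_le_rpow hNp.le h5 (by positivity)
              _ = (X : ℝ) ^ θ1 := by rw [← Real.rpow_mul hX0.le]; congr 1; ring
          linarith
        exact_mod_cast h1
      · have h1 : (p : ℝ) ≤ z := by
          have e : 8 * b / 8 = b := by ring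
          rw [e] at hp2
          have h2 : (X : ℝ) ^ b ≤ (N : ℝ) ^ b := Real.rpow_le_rpow hX0.le (by exact_mod_cast hX2) hbp.le
          linarith
        exact_mod_cast h1)
  have h5 := hN0 N (by omega) _ key
  have h6 := h4 N (by omega)
  set c : ℕ → ℂ := fun n => (if A.E i (Pool.Agent.Y964.LW.thr A.α A.σ x (Real.log n)) n then (1 : ℂ) else 0) - A.F i x with hc
  have hc1 : ∀ n, ‖c n‖ ≤ 1 := by
    intro n
    rw [hc]; simp only
    split_ifs
    · have e : (1 : ℂ) - (A.F i x : ℂ) = ((1 - A.F i x : ℝ) : ℂ) := by push_cast; ring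
      rw [e, Complex.norm_real, Real.norm_eq_abs, abs_le]
      constructor <;> linarith
    · rw [zero_sub, norm_neg, Complex.norm_real, Real.norm_eq_abs, abs_le]
      constructor <;> linarith
  have h7 : ‖∑ n ∈ Icc 1 N, c n * cls g f t h (fun n => Φ (top k n)) n
      - ∑ n ∈ Icc 1 N, c n * cls g f t h (fun n => Φ (top k (outer y z n))) n‖
      ≤ 2 * (((Icc 1 N).filter (fun n => (lf z n).length < k)).card : ℝ) := by
    rw [← sum_sub_distrib, card_filter]
    push_cast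
    rw [mul_sum]
    refine (norm_sum_le _ _).trans (sum_le_sum fun n _ => ?_)
    split_ifs with hl
    · have g1 : ‖c n * cls g f t h (fun n => Φ (top k n)) n‖ ≤ 1 := by
        rw [norm_mul]
        exact mul_le_one₀ (hc1 n) (norm_nonneg _) (cls_norm hg.1 f t h (fun n a => hΦ _ _) n)
      have g2 : ‖c n * cls g f t h (fun n => Φ (top k (outer y z n))) n‖ ≤ 1 := by
        rw [norm_mul]
        exact mul_le_one₀ (hc1 n) (norm_nonneg _) (cls_norm hg.1 f t h (fun n a => hΦ _ _) n)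
      refine (norm_sub_le _ _).trans ?_
      linarith
    · have e : cls g f t h (fun n => Φ (top k n)) n = cls g f t h (fun n => Φ (top k (outer y z n))) n := by
        unfold cls
        simp only
        rw [top_outer hyz (not_lt.1 hl)]
      rw [e, sub_self, norm_zero, mul_zero]
  have e : ∑ n ∈ Icc 1 N, c n * cls g f t h (fun n => Φ (top k n)) n
      = (∑ n ∈ Icc 1 N, c n * cls g f t h (fun n => Φ (top k n)) n
      - ∑ n ∈ Icc 1 N, c n * cls g f t h (fun n => Φ (top k (outer y z n))) n)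
      + ∑ n ∈ Icc 1 N, c n * cls g f t h (fun n => Φ (top k (outer y z n))) n := by ring
  show ‖∑ n ∈ Icc 1 N, c n * cls g f t h (fun n => Φ (top k n)) n‖ ≤ ε * N
  rw [e]
  refine (norm_add_le _ _).trans ?_
  have h8 : 0 < ε * N := by positivity
  linarith

theorem RX_congr {P Q : ℕ → Prop} {l : ℝ} (h : ∀ n, 1 ≤ n → (P n ↔ Q n)) (H : RX P l) : RX Q l := by
  classical
  intro d r k ε hε hε1
  obtain ⟨N0, h0, h1⟩ := H d r k ε hε hε1
  refine ⟨N0, h0, fun N hN g hg f hf t A _ hA hAA V hV hVr Φ hΦ => ?_⟩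
  have h2 := h1 N hN g hg f hf t A hA hAA V hV hVr Φ hΦ
  refine le_trans (le_of_eq ?_) h2
  congr 1
  apply sum_congr rfl; intro n hn
  rw [mem_Icc] at hn
  have h3 := h n hn.1
  by_cases h4 : P n
  · rw [if_pos h4, if_pos (h3.1 h4)]
  · rw [if_neg h4, if_neg (fun h5 => h4 (h3.2 h5))]

/-- finitely many exceptions are harmless -/
theorem RX_fin {P Q : ℕ → Prop} {l : ℝ} (hl : 0 ≤ l) (hl1 : l ≤ 1) {R : ℕ} (h : ∀ n, R < n → (P n ↔ Q n)) (H : RX P l) : RX Q l := by
  classical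
  intro d r k ε hε hε1
  obtain ⟨N0, h0, h1⟩ := H d r k (ε / 2) (by positivity) (by linarith)
  refine ⟨N0 + ⌈2 * (R : ℝ) / ε⌉₊, by omega, fun N hN g hg f hf t A _ hA hAA V hV hVr Φ hΦ => ?_⟩
  have h2 := h1 N (by omega) g hg f hf t A hA hAA V hV hVr Φ hΦ
  have hNR : 2 * (R : ℝ) / ε ≤ N := (Nat.le_ceil _).trans (by exact_mod_cast (by omega : ⌈2 * (R : ℝ) / ε⌉₊ ≤ N))
  rw [div_le_iff₀ hε] at hNR
  set u : ℕ → ℂ := fun n => cls g f t hA (fun n => Φ (top k n)) n with hu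
  have hu1 : ∀ n, ‖u n‖ ≤ 1 := fun n => cls_norm hg.1 f t hA (fun n a => hΦ _ _) n
  have h3 : ‖∑ n ∈ Icc 1 N, ((if Q n then (1 : ℂ) else 0) - l) * u n - ∑ n ∈ Icc 1 N, ((if P n then (1 : ℂ) else 0) - l) * u n‖ ≤ R := by
    rw [← sum_sub_distrib]
    have h4 : ∀ n ∈ Icc 1 N, ‖((if Q n then (1 : ℂ) else 0) - l) * u n - ((if P n then (1 : ℂ) else 0) - l) * u n‖
        ≤ if n ≤ R then (1 : ℝ) else 0 := by
      intro n _
      by_cases h5 : n ≤ R
      · rw [if_pos h5, ← sub_mul, norm_mul]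
        have h6 : ‖((if Q n then (1 : ℂ) else 0) - l) - ((if P n then (1 : ℂ) else 0) - l)‖ ≤ 1 := by
          rw [sub_sub_sub_cancel_right]
          split_ifs <;> simp
        exact mul_le_one₀ h6 (norm_nonneg _) (hu1 n)
      · rw [if_neg h5]
        have h6 := h n (by omega)
        by_cases h7 : P n
        · rw [if_pos h7, if_pos (h6.1 h7), sub_self, norm_zero]
        · rw [if_neg h7, if_neg (fun h8 => h7 (h6.2 h8)), sub_self, norm_zero]
    refine (norm_sum_le _ _).trans ((sum_le_sum h4).trans ?_)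
    rw [← sum_filter, sum_const, nsmul_eq_mul, mul_one]
    have h5 : ((Icc 1 N).filter (fun n => n ≤ R)).card ≤ (Icc 1 R).card := by
      apply card_le_card
      intro n hn
      rw [mem_filter, mem_Icc] at hn
      rw [mem_Icc]
      exact ⟨hn.1.1, hn.2⟩
    rw [Nat.card_Icc] at h5
    exact_mod_cast (by omega : ((Icc 1 N).filter (fun n => n ≤ R)).card ≤ R)
  have e : ∑ n ∈ Icc 1 N, ((if Q n then (1 : ℂ) else 0) - l) * u n
      = (∑ n ∈ Icc 1 N, ((if Q n then (1 : ℂ) else 0) - l) * u n - ∑ n ∈ Icc 1 N, ((if P n then (1 : ℂ) else 0) - l) * u n)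
        + ∑ n ∈ Icc 1 N, ((if P n then (1 : ℂ) else 0) - l) * u n := by ring
  show ‖∑ n ∈ Icc 1 N, ((if Q n then (1 : ℂ) else 0) - l) * u n‖ ≤ ε * N
  rw [e]
  refine (norm_add_le _ _).trans ?_
  linarith

end Pool.Agent.Q49.AF
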