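import Pool.Agent.Q49.AF.Cell
import Pool.Agent.W41.MU23

/-! Invariant sets are orthogonal to the functions which split approximately over the primes. -/

set_option autoImplicit false

namespace Pool.Agent.Q49.AF

open Pool.Agent.H320R2.PD Pool.Agent.H499R2.ND Pool.Agent.H499R2.CO Finset MeasureTheory
  Pool.Agent.H376R2.MR Pool.Agent.W41.FU Pool.Agent.W41 Pool.Agent.W41.MU

/-- DYADIC BLOCKS. -/
theorem block_gen {ε : ℝ} (hε : 0 < ε) (hε1 : ε ≤ 1) (J : ℕ) {H : ℕ} (hH10 : 10 ≤ H) (hH256 : 256 / ε ≤ H)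
    {ϑ : ℝ} (hϑ0 : 0 < ϑ) (hϑ1 : ϑ ≤ 1 / 4) : ∃ θ1 : ℝ, 0 < θ1 ∧
    ∃ X0 : ℕ, 1 ≤ X0 ∧ ∀ X : ℕ, X0 ≤ X → ∀ t : ℕ → ℂ, (∀ n, ‖t n‖ ≤ 1) →
    (∀ v M : ℕ, θ1 * Real.log X ≤ (v : ℝ) / H → ((v : ℝ) + 1) / H ≤ ϑ / 8 * Real.log X →
      (X : ℝ) ≤ 4 * (M * Real.exp ((v : ℝ) / H)) → M * Real.exp ((v : ℝ) / H) ≤ 4 * X →
      ∀ w : ℕ → ℂ, (∀ p ∈ cell H v, ‖w p‖ ≤ 1 / p) →
      ∑ m ∈ Ico M (2 * M), ‖∑ p ∈ cell H v, w p * t (p * m)‖ ^ 2 ≤ (ε / (32 * (J + 1))) ^ 2 * (M * mm H v ^ 2)) →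
    ∀ F : ℕ → ℂ, (∀ n, ‖F n‖ ≤ 1) →
    (∀ v M : ℕ, θ1 * Real.log X ≤ (v : ℝ) / H → ((v : ℝ) + 1) / H ≤ ϑ / 8 * Real.log X →
      M = ⌈(X : ℝ) / Real.exp ((v : ℝ) / H)⌉₊ → 8 * (H : ℝ) ≤ Real.exp ((v : ℝ) / H) → 28 * (H : ℝ) ≤ M →
      (X : ℝ) ^ (1 / 2 : ℝ) ≤ M →
      Spl J (ε / 32) F H v M) →
    ‖∑ n ∈ Ico X (2 * X), t n * F n‖ ≤ ε * X := by
  obtain ⟨C, hC0, hC⟩ := Pool.Agent.H376R2.MR.tk
  obtain ⟨CW, hCW0, hCW⟩ := WW_bound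
  have hH1 : 1 ≤ H := by omega
  have hH0 : (0 : ℝ) < H := by exact_mod_cast (by omega : 0 < H)
  have hHε : 7 / (H : ℝ) ≤ ε / 8 := by
    have h1 := hH256
    rw [div_le_iff₀ hε] at h1
    rw [div_le_div_iff₀ hH0 (by norm_num)]
    linarith
  obtain ⟨ε2, hε2⟩ : ∃ ε2 : ℝ, ε2 = ε / (32 * (J + 1)) := ⟨_, rfl⟩
  have hJ0 : (0 : ℝ) ≤ J := Nat.cast_nonneg _
  have hε20 : 0 < ε2 := by rw [hε2]; positivity
  have hε21 : ε2 ≤ 1 := by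
    rw [hε2, div_le_one (by positivity)]; nlinarith
  have hJε : 4 * J * ε2 ≤ ε / 8 := by
    rw [hε2]
    rw [mul_div_assoc', div_le_div_iff₀ (by positivity) (by norm_num)]
    nlinarith
  obtain ⟨L, hL⟩ : ∃ L : ℝ, L = CW + 32 * C / ε ^ 2 + 1 := ⟨_, rfl⟩
  have hq0 : 0 < 32 * C / ε ^ 2 := by positivity
  obtain ⟨θ1, hθ1⟩ : ∃ θ1 : ℝ, θ1 = ϑ * Real.exp (-L) / 32 := ⟨_, rfl⟩
  have hθ10 : 0 < θ1 := by rw [hθ1]; positivity
  -- the size of `log X`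
  obtain ⟨ℓ0, hℓ0⟩ : ∃ ℓ0 : ℝ, ℓ0 = 1 / θ1 + 16 / (ϑ * H) + Real.log (8 * H) / θ1 + Real.log (28 * H) * 2 := ⟨_, rfl⟩
  have hlog8 : 0 ≤ Real.log (8 * H) := Real.log_nonneg (by
    have : (1 : ℝ) ≤ H := by exact_mod_cast hH1
    linarith)
  have hlog28 : 0 ≤ Real.log (28 * H) := Real.log_nonneg (by
    have : (1 : ℝ) ≤ H := by exact_mod_cast hH1
    linarith)
  refine ⟨θ1, hθ10, ⌈Real.exp ℓ0⌉₊ + 1, by omega, fun X hX t ht hmain F hF hSpl => ?_⟩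
  have hX1 : 1 ≤ X := by omega
  have hXr : (0 : ℝ) < X := by exact_mod_cast hX1
  have hXe : Real.exp ℓ0 ≤ X := (Nat.le_ceil _).trans (by exact_mod_cast (by omega : ⌈Real.exp ℓ0⌉₊ ≤ X))
  obtain ⟨ℓ, hℓ⟩ : ∃ ℓ : ℝ, ℓ = Real.log X := ⟨_, rfl⟩
  have hℓX : Real.exp ℓ = X := by rw [hℓ, Real.exp_log hXr]
  have hℓℓ0 : ℓ0 ≤ ℓ := by
    rw [hℓ, ← Real.log_exp ℓ0]
    exact Real.log_le_log (Real.exp_pos _) hXe
  have t1 : 0 < 1 / θ1 := by positivity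
  have t2 : 0 < 16 / (ϑ * H) := by positivity
  have t3 : 0 ≤ Real.log (8 * H) / θ1 := by positivity
  have hℓ1 : 1 ≤ θ1 * ℓ := by
    have : 1 / θ1 ≤ ℓ := by linarith only [hℓℓ0, hℓ0, t1, t2, t3, hlog28]
    rw [div_le_iff₀ hθ10] at this
    linarith only [this]
  have hℓ2 : 16 ≤ ϑ * H * ℓ := by
    have : 16 / (ϑ * H) ≤ ℓ := by linarith only [hℓℓ0, hℓ0, t1, t2, t3, hlog28]
    rw [div_le_iff₀ (by positivity)] at this
    linarith only [this]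
  have hℓ3 : Real.log (8 * H) ≤ θ1 * ℓ := by
    have : Real.log (8 * H) / θ1 ≤ ℓ := by linarith only [hℓℓ0, hℓ0, t1, t2, t3, hlog28]
    rw [div_le_iff₀ hθ10] at this
    linarith only [this]
  have hℓ4 : Real.log (28 * H) * 2 ≤ ℓ := by linarith only [hℓℓ0, hℓ0, t1, t2, t3, hlog28]
  have hℓ00 : 0 < ℓ := by linarith only [hℓℓ0, hℓ0, t1, t2, t3, hlog28]
  obtain ⟨v₀, hv₀⟩ : ∃ v₀ : ℕ, v₀ = ⌈H * (θ1 * ℓ)⌉₊ := ⟨_, rfl⟩
  obtain ⟨v₁, hv₁⟩ : ∃ v₁ : ℕ, v₁ = ⌊ϑ / 8 * ℓ * H⌋₊ := ⟨_, rfl⟩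
  have a1 : H * (θ1 * ℓ) ≤ v₀ := by rw [hv₀]; exact Nat.le_ceil _
  have a2 : (v₀ : ℝ) < H * (θ1 * ℓ) + 1 := by rw [hv₀]; exact Nat.ceil_lt_add_one (by positivity)
  have a3 : (v₁ : ℝ) ≤ ϑ / 8 * ℓ * H := by rw [hv₁]; exact Nat.floor_le (by positivity)
  have a4 : ϑ / 8 * ℓ * H < (v₁ : ℝ) + 1 := by rw [hv₁]; exact Nat.lt_floor_add_one _
  have hH10' : (10 : ℝ) ≤ H := by exact_mod_cast hH10
  have a5 : (H : ℝ) ≤ H * (θ1 * ℓ) := by nlinarith only [hℓ1, hH0]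
  have hHv₀ : H ≤ v₀ := by
    have : (H : ℝ) ≤ v₀ := a5.trans a1
    exact_mod_cast this
  have hv00 : (0 : ℝ) < v₀ := by
    have : (H : ℝ) ≤ v₀ := a5.trans a1
    linarith only [this, hH0]
  have a6 : (v₀ : ℝ) ≤ 2 * (H * (θ1 * ℓ)) := by linarith only [a2, a5, hH10']
  have a7 : ϑ / 16 * ℓ * H ≤ v₁ := by
    have e : ϑ * H * ℓ = 16 * (ϑ / 16 * ℓ * H) := by ring
    have e2 : ϑ / 8 * ℓ * H = 2 * (ϑ / 16 * ℓ * H) := by ring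
    rw [e] at hℓ2
    rw [e2] at a4
    linarith only [hℓ2, a4]
  have hL0 : 0 < L := by rw [hL]; linarith only [hq0, hCW0]
  have a8 : Real.exp L ≤ (v₁ : ℝ) / v₀ := by
    rw [le_div_iff₀ hv00]
    refine le_trans ?_ a7
    calc Real.exp L * v₀ ≤ Real.exp L * (2 * (H * (θ1 * ℓ))) := mul_le_mul_of_nonneg_left a6 (Real.exp_pos _).le
      _ = (Real.exp L * Real.exp (-L)) * (ϑ / 16 * ℓ * H) := by rw [hθ1]; ring
      _ = _ := by rw [← Real.exp_add, add_neg_cancel, Real.exp_zero, one_mul]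
  have hv01 : v₀ ≤ v₁ := by
    have h1 : (1 : ℝ) ≤ (v₁ : ℝ) / v₀ := (Real.one_le_exp hL0.le).trans a8
    rw [le_div_iff₀ hv00, one_mul] at h1
    exact_mod_cast h1
  obtain ⟨W, hW⟩ : ∃ W : ℝ, W = WW H v₀ v₁ := ⟨_, rfl⟩
  have hWL : L - CW ≤ W := by
    have h1 := hCW H v₀ v₁ hH1 hHv₀ hv01
    have h2 : L ≤ Real.log ((v₁ : ℝ) / v₀) := by
      rw [← Real.log_exp L]
      exact Real.log_le_log (Real.exp_pos _) a8
    rw [abs_le] at h1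
    rw [hW]
    linarith only [h1.1, h2]
  have hW1 : 1 ≤ W := by rw [hL] at hWL; linarith only [hWL, hq0]
  have hW2 : 32 * C / ε ^ 2 ≤ W := by rw [hL] at hWL; linarith only [hWL]
  have hWsum : ∑ p ∈ PR H v₀ v₁, 1 / (p : ℝ) = W := by
    rw [PR_sum hH1, hW]; rfl
  -- the cells
  have hcell : ∀ v ∈ Ico v₀ v₁, θ1 * ℓ ≤ (v : ℝ) / H ∧ ((v : ℝ) + 1) / H ≤ ϑ / 8 * ℓ := by
    intro v hv
    rw [mem_Ico] at hv
    have b1 : (v₀ : ℝ) ≤ v := by exact_mod_cast hv.1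
    have b2 : (v : ℝ) + 1 ≤ v₁ := by exact_mod_cast hv.2
    constructor
    · rw [le_div_iff₀ hH0]; linarith only [a1, b1]
    · rw [div_le_iff₀ hH0]; linarith only [a3, b2]
  have hprim : ∀ p ∈ PR H v₀ v₁, p.Prime ∧ (p : ℝ) ^ 4 ≤ X := by
    intro p hp
    unfold PR at hp
    rw [mem_biUnion] at hp
    obtain ⟨v, hv, hp⟩ := hp
    have h1 := cell_lt hp
    refine ⟨h1.1, ?_⟩
    have hp0 : (0 : ℝ) < p := by exact_mod_cast h1.1.pos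
    rw [← hℓX, ← Real.exp_log hp0, ← Real.exp_nat_mul]
    apply Real.exp_le_exp.2
    have h2 := (hcell v hv).2
    have h3 : ϑ / 8 * ℓ ≤ 1 / 32 * ℓ := mul_le_mul_of_nonneg_right (by linarith only [hϑ1]) hℓ00.le
    push_cast
    linarith only [h1.2.2, h2, h3, hℓ00]
  have hTn : ∀ n : ℕ, ‖t n * F n‖ ≤ 1 := fun n => by
    rw [norm_mul]
    exact mul_le_one₀ (ht _) (norm_nonneg _) (hF n)
  have key := tk_pass hC0 hC hX1 hprim hWsum hW1 hTn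
  -- the sum over the cells
  have hsum : ‖∑ p ∈ PR H v₀ v₁, ∑ n ∈ (Ico X (2 * X)).filter (fun n => p ∣ n), t n * F n‖
      ≤ W * (X * (ε / 2)) := by
    rw [PR_sum hH1]
    refine (norm_sum_le _ _).trans ?_
    have h1 : ∀ v ∈ Ico v₀ v₁, ‖∑ p ∈ cell H v, ∑ n ∈ (Ico X (2 * X)).filter (fun n => p ∣ n),
        t n * F n‖ ≤ mm H v * (X * (ε / 2)) := by
      intro v hv
      obtain ⟨c1, c2⟩ := hcell v hv
      obtain ⟨P, hP⟩ : ∃ P : ℝ, P = Real.exp ((v : ℝ) / H) := ⟨_, rfl⟩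
      obtain ⟨M, hM⟩ : ∃ M : ℕ, M = ⌈(X : ℝ) / P⌉₊ := ⟨_, rfl⟩
      have hP8 : 8 * (H : ℝ) ≤ P := by
        rw [hP, ← Real.exp_log (by positivity : (0 : ℝ) < 8 * H)]
        exact Real.exp_le_exp.2 (hℓ3.trans c1)
      have hP0 : 0 < P := by linarith only [hP8, hH0]
      have hv32 : (v : ℝ) / H ≤ 1 / 32 * ℓ := by
        have h4 : (v : ℝ) / H ≤ ϑ / 8 * ℓ := by
          refine le_trans ?_ c2
          apply div_le_div_of_nonneg_right _ hH0.le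
          linarith only
        have h5 : ϑ / 8 * ℓ ≤ 1 / 32 * ℓ := mul_le_mul_of_nonneg_right (by linarith only [hϑ1]) hℓ00.le
        linarith only [h4, h5]
      have hPP : P * P * ((28 * H) * (28 * H)) ≤ X * X := by
        have h3 : (28 * (H : ℝ)) = Real.exp (Real.log (28 * H)) := (Real.exp_log (by positivity)).symm
        rw [h3, hP, ← hℓX, ← Real.exp_add, ← Real.exp_add, ← Real.exp_add, ← Real.exp_add]
        apply Real.exp_le_exp.2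
        linarith only [hv32, hℓ4, hℓ00]
      have hPX : P * (28 * H) ≤ X := by
        have : (P * (28 * H)) ^ 2 ≤ (X : ℝ) ^ 2 := by nlinarith only [hPP]
        exact (abs_le_of_sq_le_sq' this hXr.le).2
      have hPX2 : 14 * P / X + 4 / P ≤ 1 / H := by
        have h3 : 14 * P / X ≤ 1 / (2 * H) := by
          rw [div_le_div_iff₀ hXr (by positivity)]; linarith only [hPX]
        have h4 : 4 / P ≤ 1 / (2 * H) := by
          rw [div_le_div_iff₀ hP0 (by positivity)]; linarith only [hP8]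
        have e : 1 / (H : ℝ) = 1 / (2 * H) + 1 / (2 * H) := by field_simp; norm_num
        linarith only [h3, h4, e]
      have hPX3 : P ≤ X := by nlinarith only [hPX, hP0, hH10']
      have m1 : (X : ℝ) / P ≤ M := by rw [hM]; exact Nat.le_ceil _
      have m2 : (M : ℝ) < X / P + 1 := by rw [hM]; exact Nat.ceil_lt_add_one (by positivity)
      have m3 : (X : ℝ) ≤ M * P := by rwa [div_le_iff₀ hP0] at m1
      have m4 : M * P ≤ 2 * (X : ℝ) := by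
        have h3 : M * P ≤ (X / P + 1) * P := mul_le_mul_of_nonneg_right m2.le hP0.le
        have e : ((X : ℝ) / P + 1) * P = X + P := by field_simp
        linarith only [h3, e, hPX3]
      have m5 : 28 * (H : ℝ) ≤ M := by
        refine le_trans ?_ m1
        rw [le_div_iff₀ hP0]; linarith only [hPX]
      have m6 : (X : ℝ) ^ (1 / 2 : ℝ) ≤ M := by
        refine le_trans ?_ m1
        rw [le_div_iff₀ hP0, hP, ← hℓX, ← Real.exp_mul, ← Real.exp_add]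
        apply Real.exp_le_exp.2
        linarith only [hv32, hℓ00]
      have hSp := hSpl v M (by rw [← hℓ]; exact c1) (by rw [← hℓ]; exact c2) (by rw [hM, hP])
        (by rw [← hP]; exact hP8) m5 m6
      have hcs := cell_sum' ht (ε1 := ε2) (η := ε / 32) hH10 hP hX1 hM hPX2 hε20.le (by positivity) hF hSp
        (fun w hw => by
          rw [hε2]
          exact hmain v M (by rw [← hℓ]; exact c1) (by rw [← hℓ]; exact c2)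
            (by rw [← hP]; linarith only [m3, hXr]) (by rw [← hP]; linarith only [m4, hXr]) w hw)
      refine hcs.trans ?_
      have hmm0 : 0 ≤ mm H v := sum_nonneg fun p _ => by positivity
      calc mm H v * X * (4 * J * ε2 + 4 * (ε / 32) + 7 / H) ≤ mm H v * X * (ε / 2) := by
            apply mul_le_mul_of_nonneg_left _ (by positivity)
            linarith only [hHε, hJε, hε]
        _ = _ := by ring
    refine (sum_le_sum h1).trans (le_of_eq ?_)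
    rw [← sum_mul, hW]; rfl
  have hsq : Real.sqrt (2 * C * W) ≤ W * (ε / 4) := by
    apply Real.sqrt_le_iff.2
    refine ⟨by positivity, ?_⟩
    rw [div_le_iff₀ (by positivity)] at hW2
    have h1 : 32 * C * W ≤ W * ε ^ 2 * W := mul_le_mul_of_nonneg_right hW2 (by linarith only [hW1])
    nlinarith only [h1]
  have h5 : W * ‖∑ n ∈ Ico X (2 * X), t n * F n‖ ≤ W * (ε * X) := by
    refine key.trans ?_
    have h6 : X * Real.sqrt (2 * C * W) ≤ X * (W * (ε / 4)) := mul_le_mul_of_nonneg_left hsq hXr.le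
    have h7 : 0 ≤ W * (X * ε) := by positivity
    linarith only [hsum, h6, h7]
  exact le_of_mul_le_mul_left h5 (by linarith only [hW1])

/-- DYADIC BLOCKS for invariant sets, with a linear phase. -/
theorem block' {s : ℤ} (hs : s = 1 ∨ s = -1) {ε : ℝ} (hε : 0 < ε) (hε1 : ε ≤ 1) (J : ℕ) :
    ∃ H : ℕ, 10 ≤ H ∧ 256 / ε ≤ H ∧ ∃ ϑ0 : ℝ, 0 < ϑ0 ∧ ∀ ϑ : ℝ, 0 < ϑ → ϑ ≤ ϑ0 → ∃ θ1 : ℝ, 0 < θ1 ∧
    ∃ X0 : ℕ, 1 ≤ X0 ∧ ∀ X : ℕ, X0 ≤ X → ∀ S : Set ℤ, Inv 1 S → ∀ δ : ℝ, HD s S δ → ∀ γ : ℝ,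
    ∀ F : ℕ → ℂ, (∀ n, ‖F n‖ ≤ 1) →
    (∀ v M : ℕ, θ1 * Real.log X ≤ (v : ℝ) / H → ((v : ℝ) + 1) / H ≤ ϑ / 8 * Real.log X →
      M = ⌈(X : ℝ) / Real.exp ((v : ℝ) / H)⌉₊ → 8 * (H : ℝ) ≤ Real.exp ((v : ℝ) / H) → 28 * (H : ℝ) ≤ M →
      (X : ℝ) ^ (1 / 2 : ℝ) ≤ M →
      Spl J (ε / 32) F H v M) →
    ‖∑ n ∈ Ico X (2 * X), tw (bal s S δ) γ (n : ℤ) * F n‖ ≤ ε * X := by
  obtain ⟨H, hH⟩ : ∃ H : ℕ, H = ⌈256 / ε⌉₊ + 10 := ⟨_, rfl⟩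
  have hH10 : 10 ≤ H := by omega
  have hH256 : 256 / ε ≤ H := by
    have h2 : 256 / ε ≤ (⌈256 / ε⌉₊ : ℕ) := Nat.le_ceil _
    have h3 : ((⌈256 / ε⌉₊ : ℕ) : ℝ) ≤ H := by exact_mod_cast (by omega : ⌈256 / ε⌉₊ ≤ H)
    linarith
  have hJ0 : (0 : ℝ) ≤ J := Nat.cast_nonneg _
  have he1 : ε / (32 * (J + 1)) ≤ 1 := by
    rw [div_le_one (by positivity)]; nlinarith
  have he0 : 0 < ε / (32 * ((J : ℝ) + 1)) := by positivity
  obtain ⟨ϑa, hϑa0, hϑa1, hcm⟩ := cellmain hs (ε := (ε / (32 * (J + 1))) ^ 2) (by positivity) (by nlinarith) hH10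
  refine ⟨H, hH10, hH256, ϑa, hϑa0, fun ϑ hϑ0 hϑϑ => ?_⟩
  obtain ⟨θ1, hθ1, X1, hX1, hgen⟩ := block_gen hε hε1 J hH10 hH256 hϑ0 (hϑϑ.trans hϑa1)
  obtain ⟨X0, hX01, hmain⟩ := hcm θ1 hθ1
  refine ⟨θ1, hθ1, ⌈X0⌉₊ + X1, by omega, fun X hX S hS δ hδ γ F hF hSpl => ?_⟩
  have hXX0 : X0 ≤ X := (Nat.le_ceil _).trans (by exact_mod_cast (by omega : ⌈X0⌉₊ ≤ X))
  have hlog : 0 ≤ Real.log X := Real.log_nonneg (by exact_mod_cast (by omega : 1 ≤ X))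
  obtain ⟨hd0, hd1⟩ := HD_mem hs hδ
  have hf : ∀ n, |bal s S δ n| ≤ 1 := fun n => bal_abs hd0 hd1 n
  apply hgen X (by omega) (fun n => tw (bal s S δ) γ (n : ℤ)) (fun n => tw_norm hf _ _) _ F hF hSpl
  intro v M h1 h2 h3 h4 w hw
  exact hmain X hXX0 S hS δ hδ γ v M h1 (h2.trans (mul_le_mul_of_nonneg_right (by linarith) hlog)) h3 h4 w hw

/-- from dyadic blocks to intervals -/
theorem halving' {ε : ℝ} (hε : 0 < ε) {X0 B : ℕ} {F : ℕ → ℂ} (hF : ∀ n, ‖F n‖ ≤ 1)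
    (hB : ∀ X : ℕ, X0 ≤ X → 2 * X ≤ B → ‖∑ n ∈ Ico X (2 * X), F n‖ ≤ ε / 4 * X) :
    ∀ N : ℕ, N ≤ B → ‖∑ n ∈ Ico 1 N, F n‖ ≤ ε / 2 * N + (2 * (X0 + ⌈4 / ε⌉₊) + 2 : ℕ) := by
  intro N
  induction N using Nat.strong_induction_on with
  | _ N ih =>
    intro hNB
    by_cases hN : N ≤ 2 * (X0 + ⌈4 / ε⌉₊) + 2
    · have h1 : ‖∑ n ∈ Ico 1 N, F n‖ ≤ N := by
        refine (norm_sum_le _ _).trans ?_
        calc ∑ n ∈ Ico 1 N, ‖F n‖ ≤ ∑ n ∈ Ico 1 N, (1 : ℝ) := sum_le_sum fun n _ => hF n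
          _ = ((N - 1 : ℕ) : ℝ) := by rw [sum_const, Nat.card_Ico, nsmul_eq_mul, mul_one]
          _ ≤ N := by exact_mod_cast Nat.sub_le _ _
      have h2 : (N : ℝ) ≤ ((2 * (X0 + ⌈4 / ε⌉₊) + 2 : ℕ) : ℝ) := by exact_mod_cast hN
      have h3 : 0 ≤ ε / 2 * N := by positivity
      linarith
    · push Not at hN
      set X := N / 2 with hX
      have hX0 : X0 ≤ X := by omega
      have hX1 : 1 ≤ X := by omega
      have hXN : X < N := by omega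
      have h4 : 4 / ε ≤ X := by
        have h5 : 4 / ε ≤ (⌈4 / ε⌉₊ : ℕ) := Nat.le_ceil _
        have h6 : ((⌈4 / ε⌉₊ : ℕ) : ℝ) ≤ X := by exact_mod_cast (by omega : ⌈4 / ε⌉₊ ≤ X)
        linarith
      rw [div_le_iff₀ hε] at h4
      have e1 : ∑ n ∈ Ico 1 N, F n = ∑ n ∈ Ico 1 X, F n + ∑ n ∈ Ico X (2 * X), F n + ∑ n ∈ Ico (2 * X) N, F n := by
        rw [sum_Ico_consecutive _ hX1 (by omega), sum_Ico_consecutive _ (by omega) (by omega)]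
      have h7 : ‖∑ n ∈ Ico (2 * X) N, F n‖ ≤ 1 := by
        refine (norm_sum_le _ _).trans ?_
        calc ∑ n ∈ Ico (2 * X) N, ‖F n‖ ≤ ∑ n ∈ Ico (2 * X) N, (1 : ℝ) := sum_le_sum fun n _ => hF n
          _ = ((N - 2 * X : ℕ) : ℝ) := by rw [sum_const, Nat.card_Ico, nsmul_eq_mul, mul_one]
          _ ≤ 1 := by exact_mod_cast (by omega : N - 2 * X ≤ 1)
      have h8 := ih X hXN (by omega)
      have h9 := hB X hX0 (by omega)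
      rw [e1]
      refine (norm_add_le _ _).trans ?_
      have h10 := norm_add_le (∑ n ∈ Ico 1 X, F n) (∑ n ∈ Ico X (2 * X), F n)
      have h11 : (X : ℝ) ≤ N / 2 := by
        rw [le_div_iff₀ (by norm_num)]
        exact_mod_cast (by omega : X * 2 ≤ N)
      have h12 : ε / 2 * X + ε / 4 * X + 1 ≤ ε / 2 * N := by nlinarith
      linarith

/-- From dyadic blocks to `n ≤ N`. -/
theorem from_blocks {ε : ℝ} (hε : 0 < ε) (X0 : ℕ) : ∃ N0 : ℕ, 1 ≤ N0 ∧ ∀ N : ℕ, N0 ≤ N →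
    ∀ F : ℕ → ℂ, (∀ n, ‖F n‖ ≤ 1) →
    (∀ X : ℕ, X0 ≤ X → 2 * X ≤ N → ‖∑ n ∈ Ico X (2 * X), F n‖ ≤ ε / 4 * X) →
    ‖∑ n ∈ Icc 1 N, F n‖ ≤ ε * N := by
  set K : ℕ := 2 * (X0 + ⌈4 / ε⌉₊) + 2 with hK
  refine ⟨⌈2 * (K + 1) / ε⌉₊ + 1, by omega, fun N hN F hF hB => ?_⟩
  have h1 := halving' hε hF hB N le_rfl
  have e : ∑ n ∈ Icc 1 N, F n = ∑ n ∈ Ico 1 N, F n + F N := by
    have h2 : Icc 1 N = Ico 1 (N + 1) := by ext n; simp only [mem_Icc, mem_Ico]; omega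
    rw [h2, sum_Ico_succ_top (by omega)]
  rw [e]
  refine (norm_add_le _ _).trans ?_
  rw [← hK] at h1
  have h2 : 2 * ((K : ℝ) + 1) / ε ≤ N := by
    have h3 : 2 * ((K : ℝ) + 1) / ε ≤ (⌈2 * ((K : ℝ) + 1) / ε⌉₊ : ℕ) := Nat.le_ceil _
    have h4 : ((⌈2 * ((K : ℝ) + 1) / ε⌉₊ : ℕ) : ℝ) ≤ N := by exact_mod_cast (by omega : ⌈2 * ((K : ℝ) + 1) / ε⌉₊ ≤ N)
    linarith
  rw [div_le_iff₀ hε] at h2
  have h3 := hF N
  linarith

end Pool.Agent.Q49.AF
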