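import Pool.Agent.W41.MU22

/-! Functions which split approximately over the primes of a cell: the sum over a cell. -/

set_option autoImplicit false

namespace Pool.Agent.Q49.AF

open Pool.Agent.H320R2.PD Pool.Agent.H499R2.ND Pool.Agent.H499R2.CO Finset MeasureTheory
  Pool.Agent.H376R2.MR Pool.Agent.W41.FU Pool.Agent.W41 Pool.Agent.W41.MU

/-- Approximate splitting of `F (p m)` over the primes `p` of a cell, with at most `J` patterns. -/
def Spl (J : ℕ) (η : ℝ) (F : ℕ → ℂ) (H v M : ℕ) : Prop :=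
  ∃ (ι : Type) (_ : Fintype ι) (V : ι → ℕ → ℂ) (j : ℕ → ι) (c : ℕ → ℂ), Fintype.card ι ≤ J ∧
    (∀ i p, ‖V i p‖ ≤ 1) ∧ (∀ m, ‖c m‖ ≤ 1) ∧
    ∑ m ∈ Ico M (2 * M), ∑ p ∈ cell H v, ‖F (p * m) - c m * V (j m) p‖ / p ≤ η * (M * mm H v)

/-- THE SUM OVER A CELL. -/
theorem cell_sum' {t : ℕ → ℂ} (ht : ∀ n, ‖t n‖ ≤ 1) {ε1 η P : ℝ} {H v X M J : ℕ} (hH : 10 ≤ H)
    (hP : P = Real.exp ((v : ℝ) / H)) (hX : 1 ≤ X) (hM : M = ⌈(X : ℝ) / P⌉₊) (hPX : 14 * P / X + 4 / P ≤ 1 / H)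
    (hε1 : 0 ≤ ε1) (hη : 0 ≤ η) {F : ℕ → ℂ} (hF : ∀ n, ‖F n‖ ≤ 1) (hS : Spl J η F H v M)
    (hmain : ∀ w : ℕ → ℂ, (∀ p ∈ cell H v, ‖w p‖ ≤ 1 / p) →
      ∑ m ∈ Ico M (2 * M), ‖∑ p ∈ cell H v, w p * t (p * m)‖ ^ 2 ≤ ε1 ^ 2 * (M * mm H v ^ 2)) :
    ‖∑ p ∈ cell H v, ∑ n ∈ (Ico X (2 * X)).filter (fun n => p ∣ n), t n * F n‖
      ≤ mm H v * X * (4 * J * ε1 + 4 * η + 7 / H) := by
  have hH0 : (0 : ℝ) < H := by exact_mod_cast (by omega : 0 < H)
  have hX0 : (0 : ℝ) < X := by exact_mod_cast hX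
  have hP1 : 1 ≤ P := by rw [hP]; exact Real.one_le_exp (by positivity)
  have hP0 : 0 < P := by linarith
  have hHi : 1 / (H : ℝ) ≤ 1 / 10 := one_div_le_one_div_of_le (by norm_num) (by exact_mod_cast hH)
  have hPX2 : P ≤ X := by
    have h1 : 0 < 4 / P := by positivity
    have h2 : 14 * P / X ≤ 1 := by linarith
    rw [div_le_one hX0] at h2
    linarith
  have hM1 : (X : ℝ) / P ≤ M := by rw [hM]; exact Nat.le_ceil _
  have hM2 : (M : ℝ) ≤ X / P + 1 := by rw [hM]; exact (Nat.ceil_lt_add_one (by positivity)).le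
  have hmm0 : 0 ≤ mm H v := sum_nonneg fun p _ => by positivity
  have hup : ∀ q ∈ cell H v, P ≤ (q : ℝ) ∧ (q : ℝ) ≤ 2 * P ∧ (q : ℝ) * (1 - 1 / H) ≤ P := by
    intro q hq
    have h1 := cell_lt hq
    have hq0 : (0 : ℝ) < q := by exact_mod_cast h1.1.pos
    refine ⟨?_, ?_, ?_⟩
    · rw [hP, ← Real.exp_log hq0]
      exact Real.exp_le_exp.2 h1.2.1
    · rw [← Real.exp_log hq0]
      calc Real.exp (Real.log q) ≤ Real.exp (((v : ℝ) + 1) / H) := Real.exp_le_exp.2 h1.2.2.le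
        _ = Real.exp (1 / H) * P := by rw [hP, ← Real.exp_add]; congr 1; ring
        _ ≤ Real.exp (9 / 20) * P := by
            apply mul_le_mul_of_nonneg_right _ hP0.le
            apply Real.exp_le_exp.2
            linarith
        _ ≤ 2 * P := mul_le_mul_of_nonneg_right exp_045 hP0.le
    · have h2 : (q : ℝ) ≤ Real.exp (1 / H) * P := by
        rw [← Real.exp_log hq0]
        calc Real.exp (Real.log q) ≤ Real.exp (((v : ℝ) + 1) / H) := Real.exp_le_exp.2 h1.2.2.le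
          _ = Real.exp (1 / H) * P := by rw [hP, ← Real.exp_add]; congr 1; ring
      have h3 : 1 - 1 / (H : ℝ) ≤ Real.exp (-(1 / H)) := by
        have := Real.add_one_le_exp (-(1 / (H : ℝ)))
        linarith
      calc (q : ℝ) * (1 - 1 / H) ≤ q * Real.exp (-(1 / H)) := mul_le_mul_of_nonneg_left h3 hq0.le
        _ ≤ (Real.exp (1 / H) * P) * Real.exp (-(1 / H)) := mul_le_mul_of_nonneg_right h2 (Real.exp_pos _).le
        _ = P * (Real.exp (1 / H) * Real.exp (-(1 / H))) := by ring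
        _ = P := by rw [← Real.exp_add, add_neg_cancel, Real.exp_zero, mul_one]
  -- one prime
  have hone : ∀ p ∈ cell H v, ‖∑ n ∈ (Ico X (2 * X)).filter (fun n => p ∣ n), t n * F n
      - ∑ m ∈ Ico M (2 * M), t (p * m) * F (p * m)‖ ≤ 3 * X / (P * H) + 3 := by
    intro p hp
    have hpp := (cell_lt hp).1
    have hp0 : (0 : ℝ) < p := by exact_mod_cast hpp.pos
    obtain ⟨u1, u2, u3⟩ := hup p hp
    rw [mult_sum (fun n : ℕ => t n * F n) hpp.one_le]
    have hG : ∀ m, ‖t (p * m) * F (p * m)‖ ≤ 1 := fun m => by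
      rw [norm_mul]
      exact mul_le_one₀ (ht _) (norm_nonneg _) (hF _)
    have ha : ⌈(X : ℝ) / p⌉₊ ≤ M := by
      rw [hM]
      exact Nat.ceil_le_ceil (div_le_div_of_nonneg_left hX0.le hP0 u1)
    have hb : ⌈(2 * X : ℝ) / p⌉₊ ≤ 2 * M := by
      rw [Nat.ceil_le]
      push_cast
      calc (2 * X : ℝ) / p ≤ 2 * X / P := div_le_div_of_nonneg_left (by positivity) hP0 u1
        _ = 2 * (X / P) := by ring
        _ ≤ 2 * M := by linarith
    have hab : ⌈(X : ℝ) / p⌉₊ ≤ ⌈(2 * X : ℝ) / p⌉₊ := by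
      apply Nat.ceil_le_ceil
      apply div_le_div_of_nonneg_right _ hp0.le
      linarith
    have c1 := ico_change hG ha hb hab
    have c3 : (X : ℝ) / p ≤ ⌈(X : ℝ) / p⌉₊ := Nat.le_ceil _
    have c4 : (2 * X : ℝ) / p ≤ ⌈(2 * X : ℝ) / p⌉₊ := Nat.le_ceil _
    have c5 : (X : ℝ) / P - X / p ≤ X / (P * H) := by
      rw [div_sub_div _ _ hP0.ne' hp0.ne', div_le_div_iff₀ (by positivity) (by positivity)]
      have : (p : ℝ) * H - p ≤ P * H := by
        have := mul_le_mul_of_nonneg_right u3 hH0.le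
        have e : (p : ℝ) * (1 - 1 / H) * H = p * H - p := by field_simp
        linarith
      have h1 : (X : ℝ) * p - P * X = X * (p - P) := by ring
      rw [h1]
      have h2 : ((p : ℝ) - P) * H ≤ p := by linarith
      calc (X : ℝ) * (p - P) * (P * H) = X * P * ((p - P) * H) := by ring
        _ ≤ X * P * p := mul_le_mul_of_nonneg_left h2 (by positivity)
        _ = X * (P * p) := by ring
    have c7 : ((M : ℝ) - (⌈(X : ℝ) / p⌉₊ : ℕ)) + ((2 * M : ℕ) - ((⌈(2 * X : ℝ) / p⌉₊ : ℕ) : ℝ)) ≤ 3 * X / (P * H) + 3 := by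
      push_cast
      have e1 : (2 * X : ℝ) / p = 2 * (X / p) := by ring
      have e2 : 3 * (X : ℝ) / (P * H) = 3 * (X / (P * H)) := by ring
      have c4' : 2 * ((X : ℝ) / p) ≤ (⌈(2 * X : ℝ) / p⌉₊ : ℕ) := by rw [← e1]; exact c4
      rw [e2]
      linarith only [c3, c4', c5, hM2]
    exact c1.trans c7
  -- the main term
  have hPM : 2 * P * M ≤ 4 * X := by
    have h6 : P * M ≤ P * (X / P + 1) := mul_le_mul_of_nonneg_left hM2 hP0.le
    have h7 : P * ((X : ℝ) / P + 1) = X + P := by field_simp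
    rw [h7] at h6
    linarith
  have hmainb : ‖∑ p ∈ cell H v, ∑ m ∈ Ico M (2 * M), t (p * m) * F (p * m)‖
      ≤ mm H v * X * (4 * J * ε1 + 4 * η) := by
    obtain ⟨ι, hι, V, j, c, hJ, hV, hc, herr⟩ := hS
    have h2P : ((2 * P : ℝ) : ℂ) ≠ 0 := by
      rw [Complex.ofReal_ne_zero]; positivity
    rw [sum_comm]
    have e : ∑ m ∈ Ico M (2 * M), ∑ p ∈ cell H v, t (p * m) * F (p * m)
        = ∑ m ∈ Ico M (2 * M), ∑ p ∈ cell H v, t (p * m) * (F (p * m) - c m * V (j m) p)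
        + ∑ m ∈ Ico M (2 * M), ((2 * P : ℝ) : ℂ) * (c m * ∑ p ∈ cell H v, (V (j m) p / ((2 * P : ℝ) : ℂ)) * t (p * m)) := by
      rw [← sum_add_distrib]
      apply sum_congr rfl; intro m _
      rw [mul_sum, mul_sum, ← sum_add_distrib]
      apply sum_congr rfl; intro p _
      field_simp
      ring
    rw [e]
    have h1 : ‖∑ m ∈ Ico M (2 * M), ∑ p ∈ cell H v, t (p * m) * (F (p * m) - c m * V (j m) p)‖
        ≤ 2 * P * (η * (M * mm H v)) := by
      refine le_trans ?_ (mul_le_mul_of_nonneg_left herr (by positivity : 0 ≤ 2 * P))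
      rw [mul_sum]
      refine (norm_sum_le _ _).trans (sum_le_sum fun m _ => ?_)
      rw [mul_sum]
      refine (norm_sum_le _ _).trans (sum_le_sum fun p hp => ?_)
      have hp0 : (0 : ℝ) < p := by exact_mod_cast (cell_lt hp).1.pos
      rw [norm_mul]
      have h2 : ‖t (p * m)‖ * ‖F (p * m) - c m * V (j m) p‖ ≤ ‖F (p * m) - c m * V (j m) p‖ := by
        have := mul_le_mul_of_nonneg_right (ht (p * m)) (norm_nonneg (F (p * m) - c m * V (j m) p))
        linarith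
      refine h2.trans ?_
      have h3 : 1 ≤ 2 * P / p := by
        rw [le_div_iff₀ hp0]; linarith [(hup p hp).2.1]
      have h4 := mul_le_mul_of_nonneg_right h3 (norm_nonneg (F (p * m) - c m * V (j m) p))
      calc ‖F (p * m) - c m * V (j m) p‖ ≤ 2 * P / p * ‖F (p * m) - c m * V (j m) p‖ := by linarith
        _ = _ := by ring
    have h2 : ‖∑ m ∈ Ico M (2 * M), ((2 * P : ℝ) : ℂ) * (c m * ∑ p ∈ cell H v, (V (j m) p / ((2 * P : ℝ) : ℂ)) * t (p * m))‖
        ≤ J * (2 * P * (M * ε1 * mm H v)) := by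
      have g1 : ‖∑ m ∈ Ico M (2 * M), ((2 * P : ℝ) : ℂ) * (c m * ∑ p ∈ cell H v, (V (j m) p / ((2 * P : ℝ) : ℂ)) * t (p * m))‖
          ≤ ∑ i : ι, ∑ m ∈ Ico M (2 * M), 2 * P * ‖∑ p ∈ cell H v, (V i p / ((2 * P : ℝ) : ℂ)) * t (p * m)‖ := by
        rw [sum_comm]
        refine (norm_sum_le _ _).trans (sum_le_sum fun m _ => ?_)
        rw [norm_mul, norm_mul, Complex.norm_real, Real.norm_eq_abs, abs_of_pos (by positivity : 0 < 2 * P)]
        have g2 : ‖c m‖ * ‖∑ p ∈ cell H v, (V (j m) p / ((2 * P : ℝ) : ℂ)) * t (p * m)‖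
            ≤ ‖∑ p ∈ cell H v, (V (j m) p / ((2 * P : ℝ) : ℂ)) * t (p * m)‖ := by
          have := mul_le_mul_of_nonneg_right (hc m) (norm_nonneg (∑ p ∈ cell H v, (V (j m) p / ((2 * P : ℝ) : ℂ)) * t (p * m)))
          linarith
        refine (mul_le_mul_of_nonneg_left g2 (by positivity)).trans ?_
        exact single_le_sum (f := fun i => 2 * P * ‖∑ p ∈ cell H v, (V i p / ((2 * P : ℝ) : ℂ)) * t (p * m)‖)
          (fun i _ => by positivity) (mem_univ (j m))
      have g3 : ∀ i : ι, ∑ m ∈ Ico M (2 * M), 2 * P * ‖∑ p ∈ cell H v, (V i p / ((2 * P : ℝ) : ℂ)) * t (p * m)‖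
          ≤ 2 * P * (M * ε1 * mm H v) := by
        intro i
        rw [← mul_sum]
        apply mul_le_mul_of_nonneg_left _ (by positivity)
        have hw : ∀ p ∈ cell H v, ‖V i p / ((2 * P : ℝ) : ℂ)‖ ≤ 1 / p := by
          intro p hp
          have hp0 : (0 : ℝ) < p := by exact_mod_cast (cell_lt hp).1.pos
          rw [norm_div, Complex.norm_real, Real.norm_eq_abs, abs_of_pos (by positivity : 0 < 2 * P)]
          exact div_le_div₀ (by norm_num) (hV i p) hp0 (hup p hp).2.1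
        have h1 := hmain (fun p => V i p / ((2 * P : ℝ) : ℂ)) hw
        have h3 : (∑ m ∈ Ico M (2 * M), ‖∑ p ∈ cell H v, (V i p / ((2 * P : ℝ) : ℂ)) * t (p * m)‖) ^ 2
            ≤ (M * ε1 * mm H v) ^ 2 := by
          refine sq_sum_le_card_mul_sum_sq.trans ?_
          rw [Nat.card_Ico, show 2 * M - M = M by omega]
          calc (M : ℝ) * ∑ m ∈ Ico M (2 * M), ‖∑ p ∈ cell H v, (V i p / ((2 * P : ℝ) : ℂ)) * t (p * m)‖ ^ 2
              ≤ M * (ε1 ^ 2 * (M * mm H v ^ 2)) := mul_le_mul_of_nonneg_left h1 (Nat.cast_nonneg _)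
            _ = _ := by ring
        exact (abs_le_of_sq_le_sq' h3 (by positivity)).2
      refine g1.trans ((sum_le_sum fun i _ => g3 i).trans ?_)
      rw [sum_const, card_univ, nsmul_eq_mul]
      exact mul_le_mul_of_nonneg_right (by exact_mod_cast hJ) (by positivity)
    refine (norm_add_le _ _).trans ((add_le_add h1 h2).trans ?_)
    have k1 : 2 * P * (η * (M * mm H v)) ≤ 4 * X * (η * mm H v) := by
      calc 2 * P * (η * (M * mm H v)) = (2 * P * M) * (η * mm H v) := by ring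
        _ ≤ _ := mul_le_mul_of_nonneg_right hPM (by positivity)
    have k2 : J * (2 * P * (M * ε1 * mm H v)) ≤ J * (4 * X * (ε1 * mm H v)) := by
      apply mul_le_mul_of_nonneg_left _ (Nat.cast_nonneg _)
      calc 2 * P * (M * ε1 * mm H v) = (2 * P * M) * (ε1 * mm H v) := by ring
        _ ≤ _ := mul_le_mul_of_nonneg_right hPM (by positivity)
    calc 2 * P * (η * (M * mm H v)) + J * (2 * P * (M * ε1 * mm H v))
        ≤ 4 * X * (η * mm H v) + J * (4 * X * (ε1 * mm H v)) := add_le_add k1 k2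
      _ = _ := by ring
  -- the number of primes
  have hcard : ((cell H v).card : ℝ) ≤ 2 * P * mm H v := by
    have h1 : (cell H v).card * (1 / (2 * P)) ≤ mm H v := by
      have h2 : ∑ p ∈ cell H v, 1 / (2 * P) ≤ ∑ p ∈ cell H v, 1 / (p : ℝ) := by
        apply sum_le_sum
        intro p hp
        have hp0 : (0 : ℝ) < p := by exact_mod_cast (cell_lt hp).1.pos
        exact one_div_le_one_div_of_le hp0 (hup p hp).2.1
      rw [sum_const, nsmul_eq_mul] at h2
      exact h2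
    rw [mul_one_div, div_le_iff₀ (by positivity)] at h1
    linarith
  have herr : ‖∑ p ∈ cell H v, ∑ n ∈ (Ico X (2 * X)).filter (fun n => p ∣ n), t n * F n
      - ∑ p ∈ cell H v, ∑ m ∈ Ico M (2 * M), t (p * m) * F (p * m)‖ ≤ mm H v * X * (7 / H) := by
    rw [← sum_sub_distrib]
    refine (norm_sum_le _ _).trans ((sum_le_sum hone).trans ?_)
    rw [sum_const, nsmul_eq_mul]
    have h1 : (0 : ℝ) ≤ 3 * X / (P * H) + 3 := by positivity
    have h4 : 0 < 4 / P := by positivity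
    have h5 : 6 * P / X ≤ 14 * P / X := div_le_div_of_nonneg_right (by linarith) hX0.le
    calc ((cell H v).card : ℝ) * (3 * X / (P * H) + 3)
        ≤ 2 * P * mm H v * (3 * X / (P * H) + 3) := mul_le_mul_of_nonneg_right hcard h1
      _ = mm H v * X * (6 / H + 6 * P / X) := by field_simp; ring
      _ ≤ mm H v * X * (6 / H + 1 / H) := by
          apply mul_le_mul_of_nonneg_left _ (by positivity)
          linarith
      _ = _ := by ring
  have e : ∑ p ∈ cell H v, ∑ n ∈ (Ico X (2 * X)).filter (fun n => p ∣ n), t n * F n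
      = (∑ p ∈ cell H v, ∑ n ∈ (Ico X (2 * X)).filter (fun n => p ∣ n), t n * F n
      - ∑ p ∈ cell H v, ∑ m ∈ Ico M (2 * M), t (p * m) * F (p * m))
      + ∑ p ∈ cell H v, ∑ m ∈ Ico M (2 * M), t (p * m) * F (p * m) := by ring
  rw [e]
  refine (norm_add_le _ _).trans ?_
  linarith

end Pool.Agent.Q49.AF
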