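import Pool.Agent.Q49.AF.All
import Pool.Agent.H499R2.LT.R5
import Pool.Agent.H499R2.LT.CY

/-! The entrance times into finite sets closed under the `3x+1` map. -/

set_option autoImplicit false

namespace Pool.Agent.Q49.AF

open Finset Filter Topology
open Pool.Agent.Y964.LW hiding thr
open Pool.Agent.H499R2.CO (Tz)
open Pool.Agent.H499R2.ND (Dn Td Phi Phi_continuous phi_cdf cnt cnt_le cntn_nonneg cnt_or cnt_small)
open Pool.Agent.H499R2.LT (od Dn_iff joint_side hit_side od_side tb2)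
open Pool.Agent.H499R2.HL (rr rr_pos)

/-- the trajectory of `n` enters `Z` after exactly `k` steps -/
def En (s : ℤ) (Z : Finset ℤ) (k : ℕ) (n : ℤ) : Prop := (Tz s)^[k] n ∈ Z ∧ ∀ i < k, (Tz s)^[i] n ∉ Z

theorem oc_two (s X : ℤ) (k : ℕ) : oc s (k + 1) (2 * X) = oc s k X := by
  rw [oc_succ, Tz_two, if_neg (by omega), Nat.zero_add]

theorem En_two {s : ℤ} {Z : Finset ℤ} {X : ℤ} (hX : 2 * X ∉ Z) {Q : ℕ → ℕ → Prop} :
    (∃ k, En s Z k (2 * X) ∧ Q k (oc s k (2 * X))) ↔ ∃ k, En s Z k X ∧ Q (k + 1) (oc s k X) := by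
  have hit : ∀ i : ℕ, (Tz s)^[i + 1] (2 * X) = (Tz s)^[i] X := by
    intro i; rw [Function.iterate_succ_apply, Tz_two]
  constructor
  · rintro ⟨k, ⟨h1, h2⟩, h3⟩
    rcases Nat.eq_zero_or_pos k with h | h
    · subst h; exact absurd h1 hX
    · obtain ⟨k', rfl⟩ : ∃ k', k = k' + 1 := ⟨k - 1, by omega⟩
      rw [oc_two] at h3
      rw [hit] at h1
      exact ⟨k', ⟨h1, fun i hi => by rw [← hit]; exact h2 (i + 1) (by omega)⟩, h3⟩
  · rintro ⟨k, ⟨h1, h2⟩, h3⟩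
    refine ⟨k + 1, ⟨by rw [hit]; exact h1, fun i hi => ?_⟩, by rw [oc_two]; exact h3⟩
    rcases Nat.eq_zero_or_pos i with h | h
    · subst h; exact hX
    · obtain ⟨i', rfl⟩ : ∃ i', i = i' + 1 := ⟨i - 1, by omega⟩
      rw [hit]; exact h2 i' (by omega)

theorem En_pow {s : ℤ} {Z : Finset ℤ} {X : ℤ} (J : ℕ) (hX : ∀ i, 1 ≤ i → i ≤ J → 2 ^ i * X ∉ Z) {Q : ℕ → ℕ → Prop} :
    (∃ k, En s Z k (2 ^ J * X) ∧ Q k (oc s k (2 ^ J * X))) ↔ ∃ k, En s Z k X ∧ Q (k + J) (oc s k X) := by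
  induction J generalizing Q with
  | zero => simp
  | succ J ih =>
    have e : (2 : ℤ) ^ (J + 1) * X = 2 * (2 ^ J * X) := by rw [pow_succ]; ring
    rw [e, En_two (by rw [← e]; exact hX (J + 1) (by omega) le_rfl),
      ih (fun i h1 h2 => hX i h1 (by omega)) (Q := fun k o => Q (k + 1) o)]
    exact exists_congr fun k => by rw [show k + J + 1 = k + (J + 1) by ring]

theorem closed_iter {s : ℤ} {Z : Finset ℤ} (hZ : ∀ z ∈ Z, Tz s z ∈ Z) {z : ℤ} (hz : z ∈ Z) (j : ℕ) : (Tz s)^[j] z ∈ Z := by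
  induction j with
  | zero => exact hz
  | succ j ih => rw [Function.iterate_succ_apply']; exact hZ _ ih

theorem En_same {s : ℤ} {Z : Finset ℤ} (hZ : ∀ z ∈ Z, Tz s z ∈ Z) {x y : ℤ} {j : ℕ} (h1 : (Tz s)^[j] x = (Tz s)^[j] y)
    (h2 : oc s j x = oc s j y) (h3 : (Tz s)^[j] x ∉ Z) {Q : ℕ → ℕ → Prop}
    (h : ∃ k, En s Z k x ∧ Q k (oc s k x)) : ∃ k, En s Z k y ∧ Q k (oc s k y) := by
  obtain ⟨k, ⟨hk1, hk2⟩, hk3⟩ := h
  have hjk : j < k := by
    by_contra hcon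
    apply h3
    obtain ⟨i, rfl⟩ := Nat.exists_eq_add_of_le (not_lt.1 hcon)
    rw [Nat.add_comm, Function.iterate_add_apply]
    exact closed_iter hZ hk1 i
  obtain ⟨i, rfl⟩ := Nat.exists_eq_add_of_le hjk.le
  refine ⟨j + i, ⟨?_, fun l hl => ?_⟩, ?_⟩
  · rw [Nat.add_comm, Function.iterate_add_apply] at hk1 ⊢
    rw [← h1]; exact hk1
  · rcases Nat.lt_or_ge l j with h5 | h5
    · intro h6
      apply h3
      rw [h1]
      obtain ⟨l', rfl⟩ := Nat.exists_eq_add_of_le h5.le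
      rw [Nat.add_comm, Function.iterate_add_apply]
      exact closed_iter hZ h6 l'
    · obtain ⟨i', rfl⟩ := Nat.exists_eq_add_of_le h5
      have h6 := hk2 (j + i') hl
      rw [Nat.add_comm, Function.iterate_add_apply] at h6 ⊢
      rw [← h1]; exact h6
  · rw [oc_add, ← h2, ← h1, ← oc_add]; exact hk3

theorem oc_pow_two (s X : ℤ) (J : ℕ) : oc s J (2 ^ J * X) = 0 := by
  induction J with
  | zero => rfl
  | succ J ih =>
    rw [show (2 : ℤ) ^ (J + 1) * X = 2 * (2 ^ J * X) by rw [pow_succ]; ring, oc_two, ih]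

theorem Dn_fin {P Q : ℕ → Prop} {l : ℝ} {R : ℕ} (h : ∀ n, R < n → (P n ↔ Q n)) (hP : Dn P l) : Dn Q l := by
  classical
  have h1 : Tendsto (fun N : ℕ => cnt Q N / N - cnt P N / N) atTop (𝓝 0) := by
    have h2 : Tendsto (fun N : ℕ => (R : ℝ) / N) atTop (𝓝 0) := tendsto_const_div_atTop_nhds_zero_nat _
    refine squeeze_zero_norm (fun N => ?_) h2
    rw [← sub_div, norm_div, Real.norm_eq_abs, Real.norm_eq_abs, abs_of_nonneg (Nat.cast_nonneg N : (0 : ℝ) ≤ N)]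
    apply div_le_div_of_nonneg_right _ (Nat.cast_nonneg N)
    have key : ∀ {P Q : ℕ → Prop}, (∀ n, R < n → (P n ↔ Q n)) → cnt P N ≤ cnt Q N + R := by
      intro P Q h
      have h3 := cnt_or (P := P) (Q := Q) (R := fun n => (n : ℝ) ≤ (R : ℝ)) N (fun n _ _ hP => by
        by_cases h4 : n ≤ R
        · exact Or.inr (by exact_mod_cast h4)
        · exact Or.inl ((h n (by omega)).1 hP))
      exact h3.trans (add_le_add_right (cnt_small (Nat.cast_nonneg R) N) _)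
    rw [abs_le]
    constructor
    · linarith [key h]
    · linarith [key (fun n hn => (h n hn).symm)]
  have h2 := h1.add hP
  rw [zero_add] at h2
  refine h2.congr fun N => ?_
  ring

/-- families of events given by the entrance time and the number of odd terms -/
noncomputable def enFam {s : ℤ} {Z : Finset ℤ} (hZ : ∀ z ∈ Z, Tz s z ∈ Z) {J : ℕ} (hJ : ∀ z ∈ Z, z < 2 ^ J)
    {ι : Type} (R : ι → ℝ → ℤ → ℕ → Prop) (sh : ι → ι) (w α σ : ℝ) (F : ι → ℝ → ℝ)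
    (hw : 0 ≤ w) (hσ : 0 < σ) (mono : ∀ i τ τ' k o, τ ≤ τ' → R i τ k o → R i τ' k o)
    (two : ∀ i τ k o, R i τ (k + 1) o ↔ R (sh i) (τ - w) k o) (Fsh : ∀ i x, F (sh i) x = F i x)
    (F01 : ∀ i x, 0 ≤ F i x ∧ F i x ≤ 1) (cont : ∀ i, Continuous (F i))
    (law : ∀ i x, Dn (fun n => ∃ k : ℕ, En s Z k n ∧ R i (Pool.Agent.Y964.LW.thr α σ x (Real.log n)) k (oc s k n)) (F i x)) :
    Fam s (2 ^ J) ι where
  E := fun i τ n => ∃ k : ℕ, En s Z k (2 ^ J * n) ∧ R i τ ((k : ℤ) - J) (oc s k (2 ^ J * n))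
  sh := sh
  w := w
  α := α
  σ := σ
  F := F
  hw := hw
  hσ := hσ
  mono := fun i τ τ' n h ⟨k, hk, hR⟩ => ⟨k, hk, mono i τ τ' _ _ h hR⟩
  same := fun i τ j x y _ _ h1 h2 h3 h => by
    have e1 : ∀ x : ℤ, (Tz s)^[j + J] (2 ^ J * x) = (Tz s)^[j] x := fun x => by
      rw [Function.iterate_add_apply, Tz_two_pow]
    have e2 : ∀ x : ℤ, oc s (j + J) (2 ^ J * x) = oc s j x := fun x => by
      rw [Nat.add_comm, oc_add, oc_pow_two, Tz_two_pow, Nat.zero_add]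
    refine En_same hZ (j := j + J) (by rw [e1, e1]; exact h1) (by rw [e2, e2]; exact h2) ?_
      (Q := fun k o => R i τ ((k : ℤ) - J) o) h
    rw [e1]
    intro h4
    have h5 := hJ _ h4
    push_cast at h3
    linarith
  two := fun i τ n hn => by
    have e : (2 : ℤ) ^ J * ((2 * n : ℕ) : ℤ) = 2 * (2 ^ J * n) := by push_cast; ring
    rw [e]
    have hn' : (1 : ℤ) ≤ n := by exact_mod_cast hn
    have h2 : (0 : ℤ) < 2 ^ J := by positivity
    rw [En_two (s := s) (Z := Z) (X := 2 ^ J * n) (fun h => by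
      have h1 := hJ _ h
      nlinarith) (Q := fun k o => R i τ ((k : ℤ) - J) o)]
    refine exists_congr fun k => and_congr_right fun _ => ?_
    have e3 : (((k + 1 : ℕ) : ℤ) - J) = ((k : ℤ) - J) + 1 := by push_cast; ring
    rw [e3]
    exact two _ _ _ _
  Fsh := Fsh
  F01 := F01
  cont := cont
  law := fun i x => by
    refine Dn_fin (R := 2 ^ J) (fun n hn => ?_) (law i x)
    have hn1 : ((2 : ℤ) ^ J) < n := by exact_mod_cast hn
    have h0 : (0 : ℤ) < 2 ^ J := by positivity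
    have h2 := En_pow (s := s) (Z := Z) (X := (n : ℤ)) J (fun i' h1 h2 h3 => by
      have h4 := hJ _ h3
      have h5 : (1 : ℤ) ≤ 2 ^ i' := one_le_pow₀ (by norm_num)
      nlinarith) (Q := fun k o => R i (Pool.Agent.Y964.LW.thr α σ x (Real.log n)) ((k : ℤ) - J) o)
    rw [h2]
    refine exists_congr fun k => and_congr_right fun _ => ?_
    rw [show (((k + J : ℕ) : ℤ) - J) = k by push_cast; ring]

theorem oc_od (s : ℤ) (k : ℕ) : ∀ x : ℤ, ((oc s k x : ℕ) : ℤ) = od s k x := by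
  induction k with
  | zero => intro x; rfl
  | succ k ih =>
    intro x
    rw [oc_succ, od]
    push_cast
    rw [ih]
    rcases Int.emod_two_eq_zero_or_one x with h | h
    · rw [if_neg (by omega), if_pos h]; rfl
    · rw [if_pos h, if_neg (by omega)]; rfl

/-- `RX` for a family of entrance events -/
theorem enRX {s : ℤ} (hs : s = 1 ∨ s = -1) {Z : Finset ℤ} (hZ : ∀ z ∈ Z, Tz s z ∈ Z) {J : ℕ} (hJ : ∀ z ∈ Z, z < 2 ^ J)
    {ι : Type} (R : ι → ℝ → ℤ → ℕ → Prop) (sh : ι → ι) (w α σ : ℝ) (F : ι → ℝ → ℝ)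
    (hw : 0 ≤ w) (hσ : 0 < σ) (mono : ∀ i τ τ' k o, τ ≤ τ' → R i τ k o → R i τ' k o)
    (two : ∀ i τ k o, R i τ (k + 1) o ↔ R (sh i) (τ - w) k o) (Fsh : ∀ i x, F (sh i) x = F i x)
    (F01 : ∀ i x, 0 ≤ F i x ∧ F i x ≤ 1) (cont : ∀ i, Continuous (F i))
    (law : ∀ i x, Dn (fun n => ∃ k : ℕ, En s Z k n ∧ R i (Pool.Agent.Y964.LW.thr α σ x (Real.log n)) k (oc s k n)) (F i x))
    (i : ι) (x : ℝ) :
    RX (fun n => ∃ k : ℕ, En s Z k n ∧ R i (Pool.Agent.Y964.LW.thr α σ x (Real.log n)) k (oc s k n)) (F i x) := by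
  have h1 := fam_RX hs (enFam hZ hJ R sh w α σ F hw hσ mono two Fsh F01 cont law) i x
  refine RX_fin (F01 i x).1 (F01 i x).2 (R := 2 ^ J) (fun n hn => ?_) h1
  have hn1 : ((2 : ℤ) ^ J) < n := by exact_mod_cast hn
  have h0 : (0 : ℤ) < 2 ^ J := by positivity
  have h2 := En_pow (s := s) (Z := Z) (X := (n : ℤ)) J (fun i' h1 h2 h3 => by
    have h4 := hJ _ h3
    have h5 : (1 : ℤ) ≤ 2 ^ i' := one_le_pow₀ (by norm_num)
    nlinarith) (Q := fun k o => R i (Pool.Agent.Y964.LW.thr α σ x (Real.log n)) ((k : ℤ) - J) o)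
  refine Iff.trans h2 ?_
  refine exists_congr fun k => and_congr_right fun _ => ?_
  rw [show (((k + J : ℕ) : ℤ) - J) = k by push_cast; ring]

/-- THE LAWS of the entrance time into a finite closed set, relative to arithmetical functions. -/
theorem en_laws {s : ℤ} (hs : s = 1 ∨ s = -1) {Z : Finset ℤ} (hZ : ∀ z ∈ Z, Td 1 z ∈ Z) :
    ∃ δ : ℝ, 0 ≤ δ ∧ δ ≤ 1 ∧ ((∃ a ∈ Z, 0 < s * a ∧ ¬ (3 : ℤ) ∣ a) → 0 < δ) ∧
    Dn (fun n : ℕ => ∃ k : ℕ, (Td 1)^[k] (s * n) ∈ Z) δ ∧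
    RX (fun n : ℕ => ∃ k : ℕ, (Td 1)^[k] (s * n) ∈ Z) δ ∧
    ∀ (x : ℝ) (m : ℕ) (a b : ℤ), 1 ≤ m → RX (fun n : ℕ => ∃ k : ℕ,
      (k : ℝ) ≤ 2 / Real.log (4 / 3) * Real.log n + x * (Real.log 3 * Real.sqrt (2 * Real.log n / Real.log (4 / 3) ^ 3)) ∧
      ((Td 1)^[k] (s * n) ∈ Z ∧ ∀ i < k, (Td 1)^[i] (s * n) ∉ Z) ∧
      (k : ℤ) ≡ a [ZMOD m] ∧ od 1 k (s * n) ≡ b [ZMOD m]) (δ / m ^ 2 * Phi x) := by
  classical
  have h13 : ¬ (3 : ℤ) ∣ 1 := by omega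
  obtain ⟨δ, h0, hpos, hδ, hlaw⟩ := joint_side odd_one h13 hs Z
  have h1 : δ ≤ 1 := by
    refine le_of_tendsto hδ (Filter.Eventually.of_forall fun N => ?_)
    rcases Nat.eq_zero_or_pos N with h | h
    · subst h; simp
    · have hN : (0 : ℝ) < N := by exact_mod_cast h
      rw [div_le_one hN]
      exact cnt_le _ N
  set Z' : Finset ℤ := Z.image (fun a => s * a) with hZ'
  have hTz : ∀ x, Tz s x = Td (s * 1) x := by
    intro x; rw [mul_one]; rfl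
  have hiter : ∀ (k : ℕ) (x : ℤ), (Tz s)^[k] x ∈ Z' ↔ (Td 1)^[k] (s * x) ∈ Z := by
    intro k x
    have e : Tz s = Td (s * 1) := funext hTz
    rw [e]
    exact hit_side odd_one hs Z k x
  have hoc : ∀ (k : ℕ) (x : ℤ), ((oc s k x : ℕ) : ℤ) = od 1 k (s * x) := by
    intro k x
    rw [oc_od, ← od_side odd_one hs, mul_one]
  have hcl : ∀ z ∈ Z', Tz s z ∈ Z' := by
    intro z hz
    have h2 := (hiter 0 z).1 hz
    exact (hiter 1 z).2 (hZ _ h2)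
  obtain ⟨J, hJ⟩ : ∃ J : ℕ, ∀ z ∈ Z', z < 2 ^ J := by
    obtain ⟨M, hM⟩ := Z'.bddAbove
    refine ⟨M.toNat, fun z hz => ?_⟩
    have h2 : z ≤ M := hM hz
    have h3 : M ≤ M.toNat := Int.self_le_toNat M
    have h4 : M.toNat < 2 ^ M.toNat := Nat.lt_two_pow_self
    have h5 : ((M.toNat : ℕ) : ℤ) < ((2 ^ M.toNat : ℕ) : ℤ) := by exact_mod_cast h4
    push_cast at h5
    linarith
  have hEn : ∀ (k n : ℕ), En s Z' k n ↔ ((Td 1)^[k] (s * n) ∈ Z ∧ ∀ i < k, (Td 1)^[i] (s * n) ∉ Z) := by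
    intro k n
    unfold En
    rw [hiter]
    exact and_congr_right fun _ => forall_congr' fun i => by rw [hiter]
  have hbas : ∀ n : ℕ, (∃ k : ℕ, En s Z' k n ∧ True) ↔ ∃ k : ℕ, (Td 1)^[k] (s * n) ∈ Z := by
    intro n
    constructor
    · rintro ⟨k, hk, _⟩; exact ⟨k, ((hEn k n).1 hk).1⟩
    · intro h
      exact ⟨Nat.find h, (hEn _ n).2 ⟨Nat.find_spec h, fun i hi => Nat.find_min h hi⟩, trivial⟩
  have hrr := rr_pos
  have hl3 : 0 < Real.log 3 := Real.log_pos (by norm_num)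
  have c0 : Continuous (fun _ : ℝ => δ) := continuous_const
  refine ⟨δ, h0, h1, hpos, hδ, ?_, fun x m a b hm => ?_⟩
  · have h5 := enRX (ι := Unit) hs hcl hJ (fun _ _ _ _ => True) id 0 1 1 (fun _ _ => δ) le_rfl one_pos
      (fun _ _ _ _ _ _ h => h) (fun _ _ _ _ => Iff.rfl) (fun _ _ => rfl) (fun _ _ => ⟨h0, h1⟩) (fun _ => c0)
      (fun _ _ => Dn_iff (fun n _ => (hbas n).symm) hδ) () 0
    exact RX_congr (fun n _ => hbas n) h5
  · have hm0 : (0 : ℝ) < (m : ℝ) ^ 2 := by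
      have : (0 : ℝ) < m := by exact_mod_cast hm
      positivity
    have hm1 : (1 : ℝ) ≤ (m : ℝ) ^ 2 := one_le_pow₀ (by exact_mod_cast hm)
    have hd01 : 0 ≤ δ / (m : ℝ) ^ 2 ∧ δ / (m : ℝ) ^ 2 ≤ 1 :=
      ⟨div_nonneg h0 hm0.le, (div_le_one hm0).2 (h1.trans hm1)⟩
    have hthr : ∀ (y : ℝ) (n : ℕ), 1 ≤ n → Pool.Agent.Y964.LW.thr (2 / Real.log (4 / 3)) (Real.log 3 * rr) y (Real.log n)
        = 2 / Real.log (4 / 3) * Real.log n + y * (Real.log 3 * Real.sqrt (2 * Real.log n / Real.log (4 / 3) ^ 3)) := by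
      intro y n _
      rw [← bk_thr]
      rfl
    have hconv : ∀ (i : ℤ × ℤ) (y : ℝ) (n : ℕ), 1 ≤ n →
        ((∃ k : ℕ, (k : ℝ) ≤ 2 / Real.log (4 / 3) * Real.log n + y * (Real.log 3 * Real.sqrt (2 * Real.log n / Real.log (4 / 3) ^ 3)) ∧
      ((Td 1)^[k] (s * n) ∈ Z ∧ ∀ i < k, (Td 1)^[i] (s * n) ∉ Z) ∧
      (k : ℤ) ≡ i.1 [ZMOD m] ∧ od 1 k (s * n) ≡ i.2 [ZMOD m]) ↔
        ∃ k : ℕ, En s Z' k n ∧ ((((k : ℤ) : ℝ) ≤ Pool.Agent.Y964.LW.thr (2 / Real.log (4 / 3)) (Real.log 3 * rr) y (Real.log n)) ∧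
          (k : ℤ) ≡ i.1 [ZMOD m] ∧ ((oc s k n : ℕ) : ℤ) ≡ i.2 [ZMOD m])) := by
      intro i y n hn
      refine exists_congr fun k => ?_
      rw [hEn, hthr y n hn, hoc, Int.cast_natCast]
      constructor
      · rintro ⟨g1, g2, g3, g4⟩; exact ⟨g2, g1, g3, g4⟩
      · rintro ⟨g2, g1, g3, g4⟩; exact ⟨g1, g2, g3, g4⟩
    have h5 := enRX (ι := ℤ × ℤ) hs hcl hJ (fun i τ k o => ((k : ℝ) ≤ τ ∧ k ≡ i.1 [ZMOD m] ∧ (o : ℤ) ≡ i.2 [ZMOD m]))
      (fun i => (i.1 - 1, i.2)) 1 (2 / Real.log (4 / 3)) (Real.log 3 * rr) (fun _ y => δ / (m : ℝ) ^ 2 * Phi y)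
      zero_le_one (by positivity)
      (fun i τ τ' k o hτ h => ⟨h.1.trans hτ, h.2⟩)
      (fun i τ k o => by
        constructor
        · rintro ⟨g1, g2, g3⟩
          refine ⟨by push_cast at g1; linarith, ?_, g3⟩
          have := g2.sub_right 1
          simpa using this
        · rintro ⟨g1, g2, g3⟩
          refine ⟨by push_cast; linarith, ?_, g3⟩
          have := g2.add_right 1
          simpa using this)
      (fun _ _ => rfl)
      (fun _ y => ⟨mul_nonneg hd01.1 (phi01 y).1, mul_le_one₀ hd01.2 (phi01 y).1 (phi01 y).2⟩)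
      (fun _ => continuous_const.mul Phi_continuous)
      (fun i y => Dn_iff (fun n hn => by
        rw [tb2 y n hn]
        exact hconv i y n hn) (hlaw y m i.1 i.2 hm)) (a, b) x
    exact RX_congr (fun n hn => (hconv (a, b) x n hn).symm) h5

end Pool.Agent.Q49.AF
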