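import Pool.Agent.Q49.AF.GenInv
import Pool.Agent.Y964.LW.C1

/-! Events given by the total stopping time and functions which split approximately over the primes. -/

set_option autoImplicit false

namespace Pool.Agent.Q49.AF

open Pool.Agent.H320R2.PD Pool.Agent.H499R2.ND Pool.Agent.H499R2.CO Finset MeasureTheory Filter Topology
  Pool.Agent.H376R2.MR Pool.Agent.W41.FU Pool.Agent.W41 Pool.Agent.W41.MU Pool.Agent.Y964.LW

/-- DYADIC BLOCKS for functions constant on coalescing trajectories. -/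
theorem block_same (R : ℕ) {s : ℤ} (hs : s = 1 ∨ s = -1) {ε : ℝ} (hε : 0 < ε) (hε1 : ε ≤ 1) (J : ℕ)
    {H : ℕ} (hH10 : 10 ≤ H) (hH256 : 256 / ε ≤ H) :
    ∃ ϑ0 : ℝ, 0 < ϑ0 ∧ ∀ ϑ : ℝ, 0 < ϑ → ϑ ≤ ϑ0 → ∃ θ1 : ℝ, 0 < θ1 ∧ ∃ X0 : ℕ, 1 ≤ X0 ∧ ∃ μ : ℝ, 0 < μ ∧
    ∀ X : ℕ, X0 ≤ X → ∀ f ∈ SameR R s, (∀ n : ℕ, (n : ℝ) ≤ 16 * X → |∑ m ∈ Icc 1 n, f (m : ℕ)| ≤ μ * X) →
    ∀ F : ℕ → ℂ, (∀ n, ‖F n‖ ≤ 1) →
    (∀ v M : ℕ, θ1 * Real.log X ≤ (v : ℝ) / H → ((v : ℝ) + 1) / H ≤ ϑ / 8 * Real.log X →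
      8 * (H : ℝ) ≤ Real.exp ((v : ℝ) / H) → 28 * (H : ℝ) ≤ M → Spl J (ε / 32) F H v M) →
    ‖∑ n ∈ Ico X (2 * X), (f (n : ℤ) : ℂ) * F n‖ ≤ ε * X := by
  have hJ0 : (0 : ℝ) ≤ J := Nat.cast_nonneg _
  have he1 : ε / (32 * (J + 1)) ≤ 1 := by
    rw [div_le_one (by positivity)]; nlinarith
  have he0 : 0 < ε / (32 * ((J : ℝ) + 1)) := by positivity
  obtain ⟨ϑa, hϑa0, hϑa1, hmaj⟩ := Pool.Agent.Y964.LW.major R hs (ε := (ε / (32 * (J + 1))) ^ 2) (by positivity)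
    (by nlinarith) hH10
  refine ⟨ϑa, hϑa0, fun ϑ hϑ0 hϑϑ => ?_⟩
  obtain ⟨θ1, hθ1, X1, hX1, hgen⟩ := block_gen hε hε1 J hH10 hH256 hϑ0 (hϑϑ.trans hϑa1)
  obtain ⟨X0, hX01, μ, hμ0, hμ1, hmain⟩ := hmaj ϑ hϑ0 hϑϑ θ1 hθ1
  refine ⟨θ1, hθ1, ⌈X0⌉₊ + X1, by omega, μ, hμ0, fun X hX f hf hmean F hF hSpl => ?_⟩
  have hXX0 : X0 ≤ X := (Nat.le_ceil _).trans (by exact_mod_cast (by omega : ⌈X0⌉₊ ≤ X))
  apply hgen X (by omega) (fun n => (f (n : ℤ) : ℂ)) (fun n => by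
    rw [Complex.norm_real, Real.norm_eq_abs]; exact hf.1 _) _ F hF (fun v M h1 h2 _ h4 h5 _ => hSpl v M h1 h2 h4 h5)
  intro v M h1 h2 h3 h4 w hw
  have h5 := hmain X hXX0 f hf hmean 0 (by
    rw [abs_zero]; exact Real.rpow_nonneg (by linarith) _) v M h1 h2 h3 h4 w hw
  refine le_trans (le_of_eq ?_) h5
  apply sum_congr rfl; intro m _
  congr 2
  apply sum_congr rfl; intro p _
  rw [tw_zero']

open scoped Classical in
/-- THE LAW for events of a family: all functions which split approximately over the primes. -/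
theorem fam_gen {s : ℤ} (hs : s = 1 ∨ s = -1) {R : ℕ} {ι : Type} (A : Fam s R ι) (i : ι) (x : ℝ) {ε : ℝ} (hε : 0 < ε)
    (hε1 : ε ≤ 1) (J : ℕ) {H : ℕ} (hH10 : 10 ≤ H) (hH : 2048 / ε ≤ H) :
    ∃ ϑ0 : ℝ, 0 < ϑ0 ∧ ∀ ϑ : ℝ, 0 < ϑ → ϑ ≤ ϑ0 → ∃ θ1 : ℝ, 0 < θ1 ∧ ∃ N0 : ℕ, 1 ≤ N0 ∧ ∀ N : ℕ, N0 ≤ N →
    ∀ F : ℕ → ℂ, Hyp J (ε / 256) H ϑ θ1 N F →
      ‖∑ n ∈ Icc 1 N, ((if A.E i (Pool.Agent.Y964.LW.thr A.α A.σ x (Real.log n)) n then (1 : ℂ) else 0) - A.F i x) * F n‖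
        ≤ ε * N := by
  obtain ⟨ϑ0, hϑ0, hb⟩ := block_same R hs (ε := ε / 8) (by positivity) (by linarith) J hH10 (by
    have e : 256 / (ε / 8) = 2048 / ε := by field_simp; norm_num
    rw [e]; exact hH)
  refine ⟨ϑ0, hϑ0, fun ϑ h1 h2 => ?_⟩
  obtain ⟨θ1, hθ1, X0, hX0, μ, hμ0, hB⟩ := hb ϑ h1 h2
  obtain ⟨F0, F1⟩ := A.F01 i x
  set μ1 : ℝ := min (μ * (ε / 32)) (ε / 16) with hμ1
  have hμ10 : 0 < μ1 := by positivity
  obtain ⟨κ, hκ, hfix⟩ := fix_law (P := A.E i) (A.mono i) A.hσ (A.cont i) (A.law i) x hμ10 8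
  -- the thresholds vary little
  have tl : Tendsto (fun N : ℕ => Real.log N) atTop atTop :=
    Real.tendsto_log_atTop.comp tendsto_natCast_atTop_atTop
  have t2 : Tendsto (fun L : ℝ => Real.log L / L ^ (1 / 2 : ℝ)) atTop (𝓝 0) :=
    (isLittleO_log_rpow_atTop (by norm_num)).tendsto_div_nhds_zero
  set C : ℝ := 2 * (|A.α| + |x| * A.σ) with hC
  have hC0 : 0 ≤ C := by have := A.hσ; positivity
  have t3 : ∀ᶠ N : ℕ in atTop, C * (Real.log (Real.log N) / (Real.log N) ^ (1 / 2 : ℝ)) < κ := by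
    have := (t2.comp tl).const_mul C
    rw [mul_zero] at this
    exact this.eventually_lt_const hκ
  obtain ⟨N3, hN3⟩ := eventually_atTop.1 ((t3.and (tl.eventually_ge_atTop (3 + 16 / ε))).and hfix)
  refine ⟨θ1, hθ1, N3 + ⌈32 * ((X0 : ℝ) + 1) / ε⌉₊ + ⌈256 * (8 / ε + 3) / ε⌉₊ + ⌈(32 / ε) ^ 2⌉₊ + 2, by omega,
    fun N hN F hF => ?_⟩
  have hN2 : 2 ≤ N := by omega
  have hN0 : (0 : ℝ) < N := by exact_mod_cast (by omega : 0 < N)
  obtain ⟨⟨g1, g2⟩, g3⟩ := hN3 N (by omega)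
  have hNX : 32 * ((X0 : ℝ) + 1) / ε ≤ N := (Nat.le_ceil _).trans (by exact_mod_cast (by omega : ⌈32 * ((X0 : ℝ) + 1) / ε⌉₊ ≤ N))
  have hNK : 256 * (8 / ε + 3) / ε ≤ N := (Nat.le_ceil _).trans (by exact_mod_cast (by omega : ⌈256 * (8 / ε + 3) / ε⌉₊ ≤ N))
  have hNS : (32 / ε) ^ 2 ≤ N := (Nat.le_ceil _).trans (by exact_mod_cast (by omega : ⌈(32 / ε) ^ 2⌉₊ ≤ N))
  set L := Real.log N with hL
  have h16 : 0 < 16 / ε := by positivity
  have hL0 : 0 < L := by linarith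
  have hLL : 0 ≤ Real.log L := Real.log_nonneg (by linarith)
  set Λ := Pool.Agent.Y964.LW.thr A.α A.σ x L with hΛ
  set B := κ * Real.sqrt L with hB'
  have hs0 : 0 < Real.sqrt L := Real.sqrt_pos.2 hL0
  have hB0 : 0 < B := by positivity
  have hvar : ∀ n : ℕ, N / L ^ 2 < n → n ≤ N → |Pool.Agent.Y964.LW.thr A.α A.σ x (Real.log n) - Λ| ≤ B := by
    intro n h1 h2
    have hn0 : (0 : ℝ) < n := lt_of_le_of_lt (by positivity) h1
    have b1 : L - 2 * Real.log L ≤ Real.log n := by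
      have h3 : Real.log (N / L ^ 2) = L - 2 * Real.log L := by
        rw [Real.log_div hN0.ne' (by positivity), Real.log_pow]
        push_cast; ring
      rw [← h3]
      exact Real.log_le_log (by positivity) h1.le
    have b2 : Real.log n ≤ L := Real.log_le_log hn0 (by exact_mod_cast h2)
    have b3 : 0 ≤ Real.log n := Real.log_natCast_nonneg n
    have b4 : |Real.log n - L| ≤ 2 * Real.log L := by rw [abs_le]; constructor <;> linarith
    have b5 : |Real.sqrt (Real.log n) - Real.sqrt L| ≤ 2 * Real.log L := by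
      have h5 : (Real.sqrt (Real.log n) - Real.sqrt L) * (Real.sqrt (Real.log n) + Real.sqrt L) = Real.log n - L := by
        have h6 := Real.sq_sqrt b3
        have h7 := Real.sq_sqrt hL0.le
        nlinarith
      have h8 : 1 ≤ Real.sqrt L := Real.one_le_sqrt.2 (by linarith)
      have h9 : 0 ≤ Real.sqrt (Real.log n) := Real.sqrt_nonneg _
      have h10 : |Real.sqrt (Real.log n) - Real.sqrt L| * (Real.sqrt (Real.log n) + Real.sqrt L) ≤ 2 * Real.log L := by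
        rw [← abs_of_nonneg (by positivity : 0 ≤ Real.sqrt (Real.log n) + Real.sqrt L), ← abs_mul, h5]
        exact b4
      have h11 := abs_nonneg (Real.sqrt (Real.log n) - Real.sqrt L)
      nlinarith
    have e : Pool.Agent.Y964.LW.thr A.α A.σ x (Real.log n) - Λ = A.α * (Real.log n - L) + x * (A.σ * (Real.sqrt (Real.log n) - Real.sqrt L)) := by
      rw [hΛ]; unfold Pool.Agent.Y964.LW.thr; ring
    rw [e]
    have a1 : |A.α * (Real.log n - L)| ≤ |A.α| * (2 * Real.log L) := by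
      rw [abs_mul]; exact mul_le_mul_of_nonneg_left b4 (abs_nonneg _)
    have a2 : |x * (A.σ * (Real.sqrt (Real.log n) - Real.sqrt L))| ≤ |x| * A.σ * (2 * Real.log L) := by
      rw [abs_mul, abs_mul, abs_of_pos A.hσ, mul_assoc]
      exact mul_le_mul_of_nonneg_left (mul_le_mul_of_nonneg_left b5 A.hσ.le) (abs_nonneg _)
    refine (abs_add_le _ _).trans ?_
    have a3 : C * Real.log L ≤ B := by
      have h12 : C * (Real.log L / L ^ (1 / 2 : ℝ)) * Real.sqrt L ≤ κ * Real.sqrt L :=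
        mul_le_mul_of_nonneg_right g1.le hs0.le
      have h13 : C * (Real.log L / L ^ (1 / 2 : ℝ)) * Real.sqrt L = C * Real.log L := by
        rw [← Real.sqrt_eq_rpow]; field_simp
      rw [h13] at h12
      exact h12
    have e2 : C * Real.log L = |A.α| * (2 * Real.log L) + |x| * A.σ * (2 * Real.log L) := by rw [hC]; ring
    linarith
  have f0 := g3 Λ (by rw [sub_self, abs_zero]; positivity)
  have f1 := g3 (Λ + B) (by rw [add_sub_cancel_left, abs_of_pos hB0]) N (by omega)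
  have f2 := g3 (Λ - B) (by rw [sub_sub_cancel_left, abs_neg, abs_of_pos hB0]) N (by omega)
  have hμε : μ1 ≤ ε / 16 := min_le_right _ _
  have hμμ : μ1 ≤ μ * (ε / 32) := min_le_left _ _
  -- the sum at the fixed threshold
  have hsame : bf (A.E i Λ) (A.F i x) ∈ SameR R s := bf_same hs F0 F1 (A.same i Λ)
  have hG1 : ∀ n : ℕ, ‖((bf (A.E i Λ) (A.F i x) (n : ℤ) : ℝ) : ℂ) * F n‖ ≤ 1 := fun n => by
    rw [norm_mul, Complex.norm_real, Real.norm_eq_abs]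
    exact mul_le_one₀ (hsame.1 _) (norm_nonneg _) (hF.1 n)
  have key := halving' (ε := ε / 2) (by positivity) (X0 := ⌈ε * N / 32⌉₊) (B := N) hG1 (fun X hX hXN => by
    obtain ⟨hXX, k2, hX1⟩ := num_blocks hε hNX hNK hNS hX
    have e : ε / 2 / 4 = ε / 8 := by ring
    rw [e]
    apply hB X hXX _ hsame _ F hF.1
    · intro v M h3 h4 h8 h28
      have e : ε / 8 / 32 = ε / 256 := by ring
      rw [e]
      exact hF.2 X v M k2 (by omega) h3 h4 h8 h28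
    · intro n hn
      rw [bf_sum]
      have hn8 : n ≤ 8 * N := by
        have h3 : (n : ℝ) ≤ ((8 * N : ℕ) : ℝ) := by
          have h4 : (2 : ℝ) * X ≤ N := by exact_mod_cast hXN
          push_cast; linarith
        exact_mod_cast h3
      refine (f0 n hn8).trans ?_
      calc μ1 * N ≤ μ * (ε / 32) * N := mul_le_mul_of_nonneg_right hμμ hN0.le
        _ = μ * (ε * N / 32) := by ring
        _ ≤ μ * X := mul_le_mul_of_nonneg_left hX1 hμ0.le) N le_rfl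
  have hfixed : ‖∑ n ∈ Icc 1 N, ((bf (A.E i Λ) (A.F i x) (n : ℤ) : ℝ) : ℂ) * F n‖ ≤ ε / 2 * N := by
    have e : ∑ n ∈ Icc 1 N, ((bf (A.E i Λ) (A.F i x) (n : ℤ) : ℝ) : ℂ) * F n
        = ∑ n ∈ Ico 1 N, ((bf (A.E i Λ) (A.F i x) (n : ℤ) : ℝ) : ℂ) * F n + ((bf (A.E i Λ) (A.F i x) (N : ℤ) : ℝ) : ℂ) * F N := by
      have h2 : Icc 1 N = Ico 1 (N + 1) := by ext n; simp only [mem_Icc, mem_Ico]; omega
      rw [h2, sum_Ico_succ_top (by omega)]
    rw [e]
    refine (norm_add_le _ _).trans ?_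
    have h3 := hG1 N
    have c1 : ((⌈ε * N / 32⌉₊ : ℕ) : ℝ) ≤ ε * N / 32 + 1 := (Nat.ceil_lt_add_one (by positivity)).le
    have c2 : ((⌈4 / (ε / 2)⌉₊ : ℕ) : ℝ) ≤ 8 / ε + 1 := by
      have e4 : 4 / (ε / 2) = 8 / ε := by field_simp; norm_num
      rw [e4]
      exact (Nat.ceil_lt_add_one (by positivity)).le
    push_cast at key
    have h8 : 0 < 8 / ε := by positivity
    rw [div_le_iff₀ hε] at hNK
    have h9 : 0 < ε * N := by positivity
    linarith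
  -- the change of the threshold
  have hcard : cnt (A.E i (Λ + B)) N - cnt (A.E i (Λ - B)) N ≤ 2 * μ1 * N := by
    obtain ⟨u1, u2⟩ := abs_le.1 f1
    obtain ⟨u3, u4⟩ := abs_le.1 f2
    linarith
  have hdiff : ‖∑ n ∈ Icc 1 N, ((if A.E i (Pool.Agent.Y964.LW.thr A.α A.σ x (Real.log n)) n then (1 : ℂ) else 0) - A.F i x) * F n
      - ∑ n ∈ Icc 1 N, ((bf (A.E i Λ) (A.F i x) (n : ℤ) : ℝ) : ℂ) * F n‖ ≤
      (cnt (A.E i (Λ + B)) N - cnt (A.E i (Λ - B)) N) + cnt (fun n : ℕ => (n : ℝ) ≤ N / L ^ 2) N := by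
    rw [← sum_sub_distrib, cnt_eq, cnt_eq, cnt_eq, card_filter, card_filter, card_filter]
    push_cast
    rw [← sum_sub_distrib, ← sum_add_distrib]
    refine (norm_sum_le _ _).trans (sum_le_sum fun n hn => ?_)
    rw [mem_Icc] at hn
    have hn0 : (0 : ℤ) < n := by exact_mod_cast hn.1
    have hmon : A.E i (Λ - B) n → A.E i (Λ + B) n := A.mono i _ _ n (by linarith)
    have hFn := hF.1 n
    have e1 : ((if A.E i (Pool.Agent.Y964.LW.thr A.α A.σ x (Real.log n)) n then (1 : ℂ) else 0) - A.F i x) * F n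
        - ((bf (A.E i Λ) (A.F i x) (n : ℤ) : ℝ) : ℂ) * F n
        = ((if A.E i (Pool.Agent.Y964.LW.thr A.α A.σ x (Real.log n)) n then (1 : ℂ) else 0)
          - (if A.E i Λ n then (1 : ℂ) else 0)) * F n := by
      unfold bf
      simp only [Int.toNat_natCast, hn0, true_and]
      by_cases h3 : A.E i Λ n
      · rw [if_pos h3, if_pos h3]; push_cast; ring
      · rw [if_neg h3, if_neg h3]; push_cast; ring
    rw [e1, norm_mul]
    have e2 : ‖(if A.E i (Pool.Agent.Y964.LW.thr A.α A.σ x (Real.log n)) n then (1 : ℂ) else 0)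
          - (if A.E i Λ n then (1 : ℂ) else 0)‖ * ‖F n‖ ≤ ‖(if A.E i (Pool.Agent.Y964.LW.thr A.α A.σ x (Real.log n)) n then (1 : ℂ) else 0)
          - (if A.E i Λ n then (1 : ℂ) else 0)‖ := mul_le_of_le_one_right (norm_nonneg _) hFn
    refine e2.trans ?_
    have e3 : ‖(if A.E i (Pool.Agent.Y964.LW.thr A.α A.σ x (Real.log n)) n then (1 : ℂ) else 0)
          - (if A.E i Λ n then (1 : ℂ) else 0)‖ ≤ 1 := by
      split_ifs <;> simp
    have e4 : (0 : ℝ) ≤ (if A.E i (Λ + B) n then 1 else 0) - (if A.E i (Λ - B) n then 1 else 0) := by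
      by_cases h4 : A.E i (Λ - B) n
      · rw [if_pos h4, if_pos (hmon h4)]; norm_num
      · rw [if_neg h4]; split_ifs <;> norm_num
    by_cases hsn : (n : ℝ) ≤ N / L ^ 2
    · rw [if_pos hsn]
      linarith
    · rw [if_neg hsn, add_zero]
      push Not at hsn
      obtain ⟨v1, v2⟩ := abs_le.1 (hvar n hsn hn.2)
      have m1 : A.E i (Pool.Agent.Y964.LW.thr A.α A.σ x (Real.log n)) n → A.E i (Λ + B) n := A.mono i _ _ n (by linarith)
      have m2 : A.E i (Λ - B) n → A.E i (Pool.Agent.Y964.LW.thr A.α A.σ x (Real.log n)) n := A.mono i _ _ n (by linarith)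
      have m3 : A.E i Λ n → A.E i (Λ + B) n := A.mono i _ _ n (by linarith)
      have m4 : A.E i (Λ - B) n → A.E i Λ n := A.mono i _ _ n (by linarith)
      by_cases q1 : A.E i (Λ - B) n
      · rw [if_pos (m2 q1), if_pos (m4 q1), sub_self, norm_zero]
        exact e4
      · by_cases q2 : A.E i (Λ + B) n
        · rw [if_pos q2, if_neg q1, sub_zero]
          exact e3
        · rw [if_neg (fun h => q2 (m1 h)), if_neg (fun h => q2 (m3 h)), sub_self, norm_zero]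
          exact e4
  have hsmall : cnt (fun n : ℕ => (n : ℝ) ≤ N / L ^ 2) N ≤ ε / 16 * N := by
    refine (cnt_small (by positivity) N).trans ?_
    rw [div_le_iff₀ (by positivity)]
    have h3 : 1 ≤ ε / 16 * L ^ 2 := by
      have h4 : 16 / ε ≤ L := by linarith
      rw [div_le_iff₀ hε] at h4
      have h5 : 1 ≤ L := by linarith
      nlinarith
    nlinarith
  have e : ∑ n ∈ Icc 1 N, ((if A.E i (Pool.Agent.Y964.LW.thr A.α A.σ x (Real.log n)) n then (1 : ℂ) else 0) - A.F i x) * F n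
      = (∑ n ∈ Icc 1 N, ((if A.E i (Pool.Agent.Y964.LW.thr A.α A.σ x (Real.log n)) n then (1 : ℂ) else 0) - A.F i x) * F n
      - ∑ n ∈ Icc 1 N, ((bf (A.E i Λ) (A.F i x) (n : ℤ) : ℝ) : ℂ) * F n)
      + ∑ n ∈ Icc 1 N, ((bf (A.E i Λ) (A.F i x) (n : ℤ) : ℝ) : ℂ) * F n := by ring
  rw [e]
  refine (norm_add_le _ _).trans ?_
  have h3 : 2 * μ1 * N ≤ 2 * (ε / 16) * N := by
    apply mul_le_mul_of_nonneg_right _ hN0.le
    linarith
  have h9 : 0 < ε * N := by positivity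
  linarith

end Pool.Agent.Q49.AF
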