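import Pool.Agent.Q49.AF.Block

/-! Orthogonality of invariant sets to functions which split approximately over the primes. -/

set_option autoImplicit false

namespace Pool.Agent.Q49.AF

open Pool.Agent.H320R2.PD Pool.Agent.H499R2.ND Pool.Agent.H499R2.CO Finset MeasureTheory Filter Topology
  Pool.Agent.H376R2.MR Pool.Agent.W41.FU Pool.Agent.W41 Pool.Agent.W41.MU

/-- functions which split approximately over the primes of all cells -/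
def Hyp (J : ℕ) (η : ℝ) (H : ℕ) (ϑ θ1 : ℝ) (N : ℕ) (F : ℕ → ℂ) : Prop :=
  (∀ n, ‖F n‖ ≤ 1) ∧ ∀ X v M : ℕ, N ≤ X * X → X ≤ N → θ1 * Real.log X ≤ (v : ℝ) / H →
    ((v : ℝ) + 1) / H ≤ ϑ / 8 * Real.log X →
    8 * (H : ℝ) ≤ Real.exp ((v : ℝ) / H) → 28 * (H : ℝ) ≤ M → Spl J η F H v M

/-- numerical facts for the passage from blocks to `n ≤ N` -/
theorem num_blocks {ε : ℝ} (hε : 0 < ε) {X0 N : ℕ} (h1 : 32 * ((X0 : ℝ) + 1) / ε ≤ N)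
    (h2 : 256 * (8 / ε + 3) / ε ≤ N) (h3 : (32 / ε) ^ 2 ≤ N) {X : ℕ} (hX : ⌈ε * N / 32⌉₊ ≤ X) :
    X0 ≤ X ∧ N ≤ X * X ∧ ε * N / 32 ≤ X := by
  rw [div_le_iff₀ hε] at h1 h2
  have hN0 : (0 : ℝ) ≤ N := Nat.cast_nonneg _
  have hX1 : ε * N / 32 ≤ X := (Nat.le_ceil _).trans (by exact_mod_cast hX)
  refine ⟨?_, ?_, hX1⟩
  · have : (X0 : ℝ) ≤ X := by linarith
    exact_mod_cast this
  · have h4 : (32 / ε) ^ 2 * (ε * N / 32) ^ 2 = N * N := by field_simp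
    have h5 : (N : ℝ) * N ≤ N * (X * X) := by
      rw [← h4]
      have h6 : (ε * N / 32) ^ 2 ≤ X * X := by
        rw [← sq]; exact pow_le_pow_left₀ (by positivity) hX1 2
      exact mul_le_mul h3 h6 (by positivity) hN0
    rcases Nat.eq_zero_or_pos N with h | h
    · omega
    · have h7 : (0 : ℝ) < N := by exact_mod_cast h
      have h8 := le_of_mul_le_mul_left h5 h7
      exact_mod_cast h8

/-- invariant sets -/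
theorem inv_gen {s : ℤ} (hs : s = 1 ∨ s = -1) {ε : ℝ} (hε : 0 < ε) (hε1 : ε ≤ 1) (J : ℕ) :
    ∃ H : ℕ, 10 ≤ H ∧ 2048 / ε ≤ H ∧ ∃ ϑ0 : ℝ, 0 < ϑ0 ∧ ∀ ϑ : ℝ, 0 < ϑ → ϑ ≤ ϑ0 →
    ∃ θ1 : ℝ, 0 < θ1 ∧
    ∃ N0 : ℕ, 1 ≤ N0 ∧ ∀ N : ℕ, N0 ≤ N → ∀ S : Set ℤ, Inv 1 S → ∀ δ : ℝ, HD s S δ → ∀ γ : ℝ,
    ∀ F : ℕ → ℂ, Hyp J (ε / 256) H ϑ θ1 N F →
      ‖∑ n ∈ Icc 1 N, tw (bal s S δ) γ (n : ℤ) * F n‖ ≤ ε * N := by
  obtain ⟨H, hH10, hH, ϑ0, hϑ0, hb⟩ := block' hs (ε := ε / 8) (by positivity) (by linarith) J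
  refine ⟨H, hH10, ?_, ϑ0, hϑ0, fun ϑ h1 h2 => ?_⟩
  · have e : 256 / (ε / 8) = 2048 / ε := by field_simp; norm_num
    rwa [e] at hH
  obtain ⟨θ1, hθ1, X0, hX0, hB⟩ := hb ϑ h1 h2
  refine ⟨θ1, hθ1, ⌈32 * ((X0 : ℝ) + 1) / ε⌉₊ + ⌈256 * (8 / ε + 3) / ε⌉₊ + ⌈(32 / ε) ^ 2⌉₊ + 2, by omega,
    fun N hN S hS δ hδ γ F hF => ?_⟩
  obtain ⟨hd0, hd1⟩ := HD_mem hs hδ
  have hN0 : (0 : ℝ) < N := by exact_mod_cast (by omega : 0 < N)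
  have hNX : 32 * ((X0 : ℝ) + 1) / ε ≤ N := (Nat.le_ceil _).trans (by exact_mod_cast (by omega : ⌈32 * ((X0 : ℝ) + 1) / ε⌉₊ ≤ N))
  have hNK : 256 * (8 / ε + 3) / ε ≤ N := (Nat.le_ceil _).trans (by exact_mod_cast (by omega : ⌈256 * (8 / ε + 3) / ε⌉₊ ≤ N))
  have hNS : (32 / ε) ^ 2 ≤ N := (Nat.le_ceil _).trans (by exact_mod_cast (by omega : ⌈(32 / ε) ^ 2⌉₊ ≤ N))
  have hG1 : ∀ n : ℕ, ‖tw (bal s S δ) γ (n : ℤ) * F n‖ ≤ 1 := by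
    intro n
    rw [norm_mul]
    exact mul_le_one₀ (tw_norm (fun n => bal_abs hd0 hd1 n) _ _) (norm_nonneg _) (hF.1 n)
  have key := halving' (ε := ε / 2) (by positivity) (X0 := ⌈ε * N / 32⌉₊) (B := N) hG1 (fun X hX hXN => by
    obtain ⟨k1, k2, k3⟩ := num_blocks hε hNX hNK hNS hX
    have e : ε / 2 / 4 = ε / 8 := by ring
    rw [e]
    apply hB X k1 S hS δ hδ γ _ hF.1
    intro v M h3 h4 _ h8 h28 _
    have e : ε / 8 / 32 = ε / 256 := by ring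
    rw [e]
    exact hF.2 X v M k2 (by omega) h3 h4 h8 h28) N le_rfl
  have e : ∑ n ∈ Icc 1 N, tw (bal s S δ) γ (n : ℤ) * F n
      = ∑ n ∈ Ico 1 N, tw (bal s S δ) γ (n : ℤ) * F n + tw (bal s S δ) γ (N : ℤ) * F N := by
    have h2 : Icc 1 N = Ico 1 (N + 1) := by ext n; simp only [mem_Icc, mem_Ico]; omega
    rw [h2, sum_Ico_succ_top (by omega)]
  rw [e]
  refine (norm_add_le _ _).trans ?_
  have h3 := hG1 N
  have c1 : ((⌈ε * N / 32⌉₊ : ℕ) : ℝ) ≤ ε * N / 32 + 1 := (Nat.ceil_lt_add_one (by positivity)).le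
  have c2 : ((⌈4 / (ε / 2)⌉₊ : ℕ) : ℝ) ≤ 8 / ε + 1 := by
    have e4 : 4 / (ε / 2) = 8 / ε := by field_simp; norm_num
    rw [e4]
    exact (Nat.ceil_lt_add_one (by positivity)).le
  push_cast at key
  have h8 : 0 < 8 / ε := by positivity
  rw [div_le_iff₀ hε] at hNK
  have h9 : 0 < ε * N := by positivity
  linarith

end Pool.Agent.Q49.AF
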