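import Pool.Agent.Q49.AF.Thr

/-! Arbitrary functions of additive functions with few values at the primes. -/

set_option autoImplicit false

namespace Pool.Agent.Q49.AF

open Pool.Agent.H320R2.PD Pool.Agent.H499R2.ND Pool.Agent.H499R2.CO Finset MeasureTheory
  Pool.Agent.H376R2.MR Pool.Agent.W41.FU Pool.Agent.W41 Pool.Agent.W41.MU

/-- additive functions with values in an additive monoid -/
def AddA {A : Type} [AddCommMonoid A] (h : ℕ → A) : Prop := ∀ m n : ℕ, Nat.Coprime m n → h (m * n) = h m + h n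

/-- a finite net of the unit disc -/
theorem disc_net {η : ℝ} (hη : 0 < η) : ∃ T : Finset ℂ, 1 ≤ T.card ∧ (∀ z ∈ T, ‖z‖ ≤ 1) ∧
    ∀ z : ℂ, ‖z‖ ≤ 1 → ∃ w ∈ T, ‖z - w‖ ≤ η := by
  obtain ⟨t, ht1, ht2, ht3⟩ := (isCompact_closedBall (0 : ℂ) 1).finite_cover_balls hη
  refine ⟨ht2.toFinset, ?_, ?_, ?_⟩
  · have h0 : (0 : ℂ) ∈ Metric.closedBall (0 : ℂ) 1 := by simp
    have h1 := ht3 h0
    rw [Set.mem_iUnion₂] at h1
    obtain ⟨x, hx, _⟩ := h1
    exact Finset.card_pos.2 ⟨x, ht2.mem_toFinset.2 hx⟩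
  · intro z hz
    have := ht1 (ht2.mem_toFinset.1 hz)
    simpa using this
  · intro z hz
    have h0 : z ∈ Metric.closedBall (0 : ℂ) 1 := by simpa using hz
    have h1 := ht3 h0
    rw [Set.mem_iUnion₂] at h1
    obtain ⟨x, hx, hx2⟩ := h1
    refine ⟨x, ht2.mem_toFinset.2 hx, ?_⟩
    have := Metric.mem_ball.1 hx2
    rw [dist_eq_norm] at this
    exact this.le

open scoped Classical in
theorem spl_lev {A : Type} [AddCommMonoid A] {g : ℕ → ℂ} (hg : MulB g) {h : ℕ → A} (hh : AddA h)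
    {V : Finset A} (hV : ∀ p : ℕ, p.Prime → h p ∈ V) {r : ℕ} (hVr : V.card ≤ r)
    {Φ : ℕ → A → ℂ} (hΦ : ∀ n a, ‖Φ n a‖ ≤ 1) {η P : ℝ} {H v M : ℕ}
    (hΦc : ∀ p ∈ cell H v, ∀ m a, Φ (p * m) a = Φ m a)
    {T : Finset ℂ} (hT1 : 1 ≤ T.card) (hT : ∀ z ∈ T, ‖z‖ ≤ 1) (hTn : ∀ z : ℂ, ‖z‖ ≤ 1 → ∃ w ∈ T, ‖z - w‖ ≤ η / 2)
    (hη : 0 ≤ η) (hP : P = Real.exp ((v : ℝ) / H)) (hM : 1 ≤ M) (h2 : 2 / P + 2 / M ≤ η / 2) :
    Spl (T.card ^ r) η (fun n => g n * Φ n (h n)) H v M := by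
  have hP0 : 0 < P := by rw [hP]; exact Real.exp_pos _
  have hM0 : (0 : ℝ) < M := by exact_mod_cast hM
  have hmm0 : 0 ≤ mm H v := sum_nonneg fun p _ => by positivity
  have hnet : ∀ m a, ∃ w : ↥T, ‖Φ m (a + h m) - w‖ ≤ η / 2 := by
    intro m a
    obtain ⟨w, hw, hw2⟩ := hTn _ (hΦ m (a + h m))
    exact ⟨⟨w, hw⟩, hw2⟩
  choose w hw using hnet
  refine ⟨↥V → ↥T, inferInstance, fun κ p => if hp : h p ∈ V then (κ ⟨h p, hp⟩ : ℂ) * g p else 0,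
    fun m a => w m a, g, ?_, ?_, hg.1, ?_⟩
  · rw [Fintype.card_fun, Fintype.card_coe, Fintype.card_coe]
    exact Nat.pow_le_pow_right hT1 hVr
  · intro κ p
    simp only
    split_ifs with hp
    · rw [norm_mul]
      exact mul_le_one₀ (hT _ (κ ⟨h p, hp⟩).2) (norm_nonneg _) (hg.1 p)
    · simp
  · have hterm : ∀ m ∈ Ico M (2 * M), ∀ p ∈ cell H v,
        ‖g (p * m) * Φ (p * m) (h (p * m)) - g m * (if hp : h p ∈ V then ((w m (h p) : ↥T) : ℂ) * g p else 0)‖ / p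
        ≤ η / 2 * (1 / p) + (if p ∣ m then 2 / (p : ℝ) else 0) := by
      intro m _ p hp
      have hpp := (cell_lt hp).1
      have hp0 : (0 : ℝ) < p := by exact_mod_cast hpp.pos
      rw [dif_pos (hV p hpp)]
      by_cases hpm : p ∣ m
      · rw [if_pos hpm]
        have hn : ‖g (p * m) * Φ (p * m) (h (p * m)) - g m * (((w m (h p) : ↥T) : ℂ) * g p)‖ ≤ 2 := by
          refine (norm_sub_le _ _).trans ?_
          have b1 : ‖g (p * m) * Φ (p * m) (h (p * m))‖ ≤ 1 := by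
            rw [norm_mul]; exact mul_le_one₀ (hg.1 _) (norm_nonneg _) (hΦ _ _)
          have b2 : ‖g m * (((w m (h p) : ↥T) : ℂ) * g p)‖ ≤ 1 := by
            rw [norm_mul, norm_mul]
            exact mul_le_one₀ (hg.1 _) (by positivity) (mul_le_one₀ (hT _ (w m (h p)).2) (norm_nonneg _) (hg.1 _))
          linarith
        have := div_le_div_of_nonneg_right hn hp0.le
        have h3 : 0 ≤ η / 2 * (1 / p) := by positivity
        linarith
      · rw [if_neg hpm, add_zero]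
        have hco : Nat.Coprime p m := (Nat.Prime.coprime_iff_not_dvd hpp).2 hpm
        rw [hg.2 p m hco, hΦc p hp m, hh p m hco]
        have e : g p * g m * Φ m (h p + h m) - g m * (((w m (h p) : ↥T) : ℂ) * g p)
            = (g p * g m) * (Φ m (h p + h m) - ((w m (h p) : ↥T) : ℂ)) := by ring
        rw [e, norm_mul, norm_mul]
        have h3 : ‖g p‖ * ‖g m‖ * ‖Φ m (h p + h m) - ((w m (h p) : ↥T) : ℂ)‖ ≤ 1 * (η / 2) :=
          mul_le_mul (mul_le_one₀ (hg.1 _) (norm_nonneg _) (hg.1 _)) (hw m (h p)) (norm_nonneg _) (by norm_num)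
        rw [one_mul] at h3
        calc _ ≤ η / 2 / p := div_le_div_of_nonneg_right h3 hp0.le
          _ = _ := by ring
    have hsum : ∑ m ∈ Ico M (2 * M), ∑ p ∈ cell H v,
        ‖g (p * m) * Φ (p * m) (h (p * m)) - g m * (if hp : h p ∈ V then ((w m (h p) : ↥T) : ℂ) * g p else 0)‖ / p
        ≤ ∑ m ∈ Ico M (2 * M), ∑ p ∈ cell H v, (η / 2 * (1 / (p : ℝ)) + (if p ∣ m then 2 / (p : ℝ) else 0)) :=
      sum_le_sum fun m hm => sum_le_sum fun p hp => hterm m hm p hp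
    refine hsum.trans ?_
    simp_rw [sum_add_distrib]
    have hA1 : ∑ m ∈ Ico M (2 * M), ∑ p ∈ cell H v, η / 2 * (1 / (p : ℝ)) = η / 2 * (M * mm H v) := by
      simp_rw [← mul_sum]
      rw [sum_const, Nat.card_Ico, show 2 * M - M = M by omega, nsmul_eq_mul]
      rfl
    have hA2 : ∑ m ∈ Ico M (2 * M), ∑ p ∈ cell H v, (if p ∣ m then 2 / (p : ℝ) else 0)
        ≤ (2 / P + 2 / M) * (M * mm H v) := by
      rw [sum_comm]
      have h3 : ∀ p ∈ cell H v, ∑ m ∈ Ico M (2 * M), (if p ∣ m then 2 / (p : ℝ) else 0)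
          ≤ (2 / P + 2 / M) * M * (1 / p) := by
        intro p hp
        have hpp := (cell_lt hp).1
        have hp0 : (0 : ℝ) < p := by exact_mod_cast hpp.pos
        have hPp : P ≤ p := by
          rw [hP, ← Real.exp_log hp0]
          exact Real.exp_le_exp.2 (cell_lt hp).2.1
        rw [← sum_filter, sum_const, nsmul_eq_mul]
        have h4 := card_mult (M := M) hpp.one_le
        have h5 : (M : ℝ) / p ≤ M / P := div_le_div_of_nonneg_left hM0.le hP0 hPp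
        calc (((Ico M (2 * M)).filter (fun m => p ∣ m)).card : ℝ) * (2 / p) ≤ (M / P + 1) * (2 / p) :=
              mul_le_mul_of_nonneg_right (h4.trans (by linarith)) (by positivity)
          _ = (2 / P + 2 / M) * M * (1 / p) := by field_simp
      refine (sum_le_sum h3).trans (le_of_eq ?_)
      rw [← mul_sum]
      unfold mm
      ring
    rw [hA1]
    have h5 : (2 / P + 2 / M) * (M * mm H v) ≤ η / 2 * (M * mm H v) := mul_le_mul_of_nonneg_right h2 (by positivity)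
    linarith

theorem hyp_lev {ε : ℝ} (hε : 0 < ε) {H N : ℕ} (hH10 : 10 ≤ H)
    (hH : 2048 / ε ≤ H) {A : Type} [AddCommMonoid A] {g : ℕ → ℂ} (hg : MulB g) {h : ℕ → A} (hh : AddA h)
    {V : Finset A} (hV : ∀ p : ℕ, p.Prime → h p ∈ V) {r : ℕ} (hVr : V.card ≤ r)
    {Φ : ℕ → A → ℂ} (hΦ : ∀ n a, ‖Φ n a‖ ≤ 1)
    {T : Finset ℂ} (hT1 : 1 ≤ T.card) (hT : ∀ z ∈ T, ‖z‖ ≤ 1) (hTn : ∀ z : ℂ, ‖z‖ ≤ 1 → ∃ w ∈ T, ‖z - w‖ ≤ ε / 512)
    {ϑ θ1 : ℝ}
    (hΦc : ∀ X p m : ℕ, N ≤ X * X → X ≤ N → p.Prime → (X : ℝ) ^ θ1 ≤ p → (p : ℝ) ≤ (X : ℝ) ^ (ϑ / 8) →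
      ∀ a, Φ (p * m) a = Φ m a) :
    Hyp (T.card ^ r) (ε / 256) H ϑ θ1 N (fun n => g n * Φ n (h n)) := by
  have hHpos : (0 : ℝ) < H := by exact_mod_cast (by omega : 0 < H)
  refine ⟨fun n => by rw [norm_mul]; exact mul_le_one₀ (hg.1 _) (norm_nonneg _) (hΦ _ _), fun X v M hX1 hX2 hv1 hv2 h8 h28 => ?_⟩
  have hM0 : (0 : ℝ) < M := by linarith
  have hM1 : 1 ≤ M := by exact_mod_cast hM0
  have hXpos : (0 : ℝ) < X := by
    rcases Nat.eq_zero_or_pos X with h | h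
    · exfalso
      subst h
      have h9 : Real.exp ((v : ℝ) / H) ≤ 1 := by
        rw [Nat.cast_zero, Real.log_zero, mul_zero] at hv2
        rw [Real.exp_le_one_iff]
        refine le_trans ?_ hv2
        exact div_le_div_of_nonneg_right (by linarith) hHpos.le
      have h10 : (10 : ℝ) ≤ H := by exact_mod_cast hH10
      linarith
    · exact_mod_cast h
  have hcell : ∀ p ∈ cell H v, ∀ m a, Φ (p * m) a = Φ m a := by
    intro p hp m
    have h1 := cell_lt hp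
    have hp0 : (0 : ℝ) < p := by exact_mod_cast h1.1.pos
    apply hΦc X p m hX1 hX2 h1.1
    · rw [Real.rpow_def_of_pos hXpos, ← Real.exp_log hp0]
      apply Real.exp_le_exp.2
      rw [mul_comm]
      exact hv1.trans h1.2.1
    · rw [Real.rpow_def_of_pos hXpos, ← Real.exp_log hp0]
      apply Real.exp_le_exp.2
      rw [mul_comm (Real.log (X : ℝ))]
      exact h1.2.2.le.trans hv2
  have hHε : 2048 ≤ ε * H := by
    rw [div_le_iff₀ hε] at hH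
    linarith
  have h3 : 2 / Real.exp ((v : ℝ) / H) ≤ ε / 256 / 4 := by
    rw [div_le_iff₀ (Real.exp_pos _)]
    nlinarith
  have h4 : 2 / (M : ℝ) ≤ ε / 256 / 4 := by
    rw [div_le_iff₀ hM0]
    nlinarith
  exact spl_lev hg hh hV hVr hΦ hcell hT1 hT (by
    intro z hz
    obtain ⟨w, hw, hw2⟩ := hTn z hz
    exact ⟨w, hw, by linarith⟩) (by positivity) rfl hM1 (by linarith)

/-- ORTHOGONALITY TO ARBITRARY FUNCTIONS OF ADDITIVE FUNCTIONS WITH FEW VALUES AT THE PRIMES. -/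
theorem orth_lev {s : ℤ} (hs : s = 1 ∨ s = -1) {ε : ℝ} (hε : 0 < ε) (hε1 : ε ≤ 1) (r : ℕ) :
    ∃ N0 : ℕ, 1 ≤ N0 ∧ ∀ S : Set ℤ, Inv 1 S → ∀ δ : ℝ, HD s S δ → ∀ N : ℕ, N0 ≤ N → ∀ γ : ℝ,
    ∀ (A : Type) [AddCommMonoid A], ∀ g : ℕ → ℂ, MulB g → ∀ h : ℕ → A, AddA h →
    ∀ V : Finset A, (∀ p : ℕ, p.Prime → h p ∈ V) → V.card ≤ r → ∀ Φ : A → ℂ, (∀ a, ‖Φ a‖ ≤ 1) →
      ‖∑ n ∈ Icc 1 N, tw (bal s S δ) γ (n : ℤ) * (g n * Φ (h n))‖ ≤ ε * N := by
  obtain ⟨T, hT1, hT, hTn⟩ := disc_net (show 0 < ε / 512 by positivity)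
  obtain ⟨H, hH10, hH, ϑ0, hϑ0, hgen⟩ := inv_gen hs hε hε1 (T.card ^ r)
  obtain ⟨θ1, hθ1, N0, hN01, hN0⟩ := hgen ϑ0 hϑ0 le_rfl
  exact ⟨N0, hN01, fun S hS δ hδ N hN γ A _ g hg h hh V hV hVr Φ hΦ =>
    hN0 N hN S hS δ hδ γ _ (hyp_lev hε hH10 hH hg hh hV hVr (Φ := fun _ => Φ) (fun _ => hΦ) hT1 hT hTn
      (fun _ _ _ _ _ _ _ _ _ => rfl))⟩

end Pool.Agent.Q49.AF
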