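import Pool.Agent.Q49.AF.GenInv

/-! Thresholds of additive functions. -/

set_option autoImplicit false

namespace Pool.Agent.Q49.AF

open Pool.Agent.H320R2.PD Pool.Agent.H499R2.ND Pool.Agent.H499R2.CO Finset MeasureTheory
  Pool.Agent.H376R2.MR Pool.Agent.W41.FU Pool.Agent.W41 Pool.Agent.W41.MU

open scoped Classical in
/-- the sets `{f ≤ u}` are approximated by `K` fixed sets -/
theorem prefix_net (T : Finset ℕ) (w : ℕ → ℝ) (hw : ∀ p ∈ T, 0 ≤ w p) (f : ℕ → ℝ) {K : ℕ} (hK : 1 ≤ K) :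
    ∃ A : Fin K → Set ℕ, ∀ u : ℝ, ∃ k : Fin K,
      ∑ p ∈ T, (if (f p ≤ u ↔ p ∈ A k) then 0 else w p) ≤ (∑ p ∈ T, w p) / K := by
  have hK0 : (0 : ℝ) < K := by exact_mod_cast hK
  set W : ℝ := ∑ p ∈ T, w p with hW
  have hW0 : 0 ≤ W := sum_nonneg hw
  set G : ℝ → ℝ := fun u => ∑ p ∈ T, (if f p ≤ u then w p else 0) with hG
  have hG0 : ∀ u, 0 ≤ G u := fun u => sum_nonneg fun p hp => by split_ifs <;> [exact hw p hp; exact le_rfl]
  have hG1 : ∀ u, G u ≤ W := fun u => sum_le_sum fun p hp => by split_ifs <;> [exact le_rfl; exact hw p hp]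
  set kk : ℝ → Fin K := fun u => ⟨min ⌊K * G u / W⌋₊ (K - 1), by omega⟩ with hkk
  have hx : ∀ u, ((kk u : ℕ) : ℝ) ≤ K * G u / W ∧ K * G u / W ≤ ((kk u : ℕ) : ℝ) + 1 := by
    intro u
    have hx0 : 0 ≤ K * G u / W := by have := hG0 u; positivity
    have hx1 : K * G u / W ≤ K := by
      rcases hW0.eq_or_lt with h | h
      · rw [← h, div_zero]; exact hK0.le
      · rw [div_le_iff₀ h]; exact mul_le_mul_of_nonneg_left (hG1 u) hK0.le
    have e : (kk u : ℕ) = min ⌊K * G u / W⌋₊ (K - 1) := rfl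
    rw [e]
    rcases le_total ⌊K * G u / W⌋₊ (K - 1) with h | h
    · rw [min_eq_left h]
      exact ⟨Nat.floor_le hx0, (Nat.lt_floor_add_one _).le⟩
    · rw [min_eq_right h]
      constructor
      · exact (Nat.cast_le.2 h).trans (Nat.floor_le hx0)
      · have : ((K - 1 : ℕ) : ℝ) + 1 = K := by exact_mod_cast (by omega : K - 1 + 1 = K)
        rw [this]; exact hx1
  have hdiff : ∀ u u', kk u = kk u' → |G u - G u'| ≤ W / K := by
    intro u u' h
    rcases hW0.eq_or_lt with h0 | h0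
    · have h1 : G u = 0 := le_antisymm (by rw [h0]; exact hG1 u) (hG0 u)
      have h2 : G u' = 0 := le_antisymm (by rw [h0]; exact hG1 u') (hG0 u')
      rw [h1, h2, sub_zero, abs_zero]; positivity
    · obtain ⟨a1, a2⟩ := hx u
      obtain ⟨b1, b2⟩ := hx u'
      rw [h] at a1 a2
      have h3 : |K * G u / W - K * G u' / W| ≤ 1 := by rw [abs_le]; constructor <;> linarith
      have e : K * G u / W - K * G u' / W = (G u - G u') * (K / W) := by ring
      rw [e, abs_mul, abs_of_pos (by positivity : (0 : ℝ) < K / W)] at h3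
      rw [le_div_iff₀ hK0]
      have h4 := mul_le_mul_of_nonneg_right h3 h0.le
      calc |G u - G u'| * K = |G u - G u'| * (K / W) * W := by field_simp
        _ ≤ 1 * W := h4
        _ = W := one_mul _
  have hnest : ∀ u u', u ≤ u' → ∑ p ∈ T, (if (f p ≤ u ↔ f p ≤ u') then 0 else w p) = G u' - G u := by
    intro u u' h
    rw [hG]
    simp only
    rw [← sum_sub_distrib]
    apply sum_congr rfl; intro p _
    by_cases h1 : f p ≤ u
    · have h2 : f p ≤ u' := h1.trans h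
      simp [h1, h2]
    · by_cases h2 : f p ≤ u' <;> simp [h1, h2]
  refine ⟨fun k => if h : ∃ u, kk u = k then {p | f p ≤ h.choose} else ∅, fun u => ⟨kk u, ?_⟩⟩
  have hex : ∃ u', kk u' = kk u := ⟨u, rfl⟩
  simp only [dif_pos hex]
  have hc := hex.choose_spec
  set u' := hex.choose with hu'
  have hd := hdiff u' u hc
  simp only [Set.mem_ofPred_eq]
  rcases le_total u u' with h | h
  · rw [hnest u u' h]; exact (le_abs_self _).trans hd
  · have e : ∀ p, (if (f p ≤ u ↔ f p ≤ u') then 0 else w p) = (if (f p ≤ u' ↔ f p ≤ u) then 0 else w p) := by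
      intro p; congr 1; exact propext Iff.comm
    simp_rw [e]
    rw [hnest u' u h]
    rw [abs_sub_comm] at hd
    exact (le_abs_self _).trans hd

/-- the multiples of `p` in `[M, 2 M)` -/
theorem card_mult {M p : ℕ} (hp : 1 ≤ p) : (((Ico M (2 * M)).filter (fun m => p ∣ m)).card : ℝ) ≤ M / p + 1 := by
  have hp0 : (0 : ℝ) < p := by exact_mod_cast hp
  have h3 : ((Ico M (2 * M)).filter (fun m => p ∣ m)).card ≤ (Ico ⌈(M : ℝ) / p⌉₊ ⌈((2 * M : ℕ) : ℝ) / p⌉₊).card := by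
    apply card_le_card_of_injOn (fun m => m / p)
    · intro m hm
      rw [mem_coe, mem_filter, mem_Ico] at hm
      obtain ⟨k, rfl⟩ := hm.2
      rw [mem_coe, mem_Ico]
      simp only
      rw [Nat.mul_div_cancel_left _ hp, Nat.ceil_le, Nat.lt_ceil, div_le_iff₀ hp0, lt_div_iff₀ hp0]
      constructor
      · have : (M : ℝ) ≤ ((p * k : ℕ) : ℝ) := by exact_mod_cast hm.1.1
        push_cast at this; linarith
      · have : ((p * k : ℕ) : ℝ) < ((2 * M : ℕ) : ℝ) := by exact_mod_cast hm.1.2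
        push_cast at this ⊢; linarith
    · intro a ha b hb hab
      rw [mem_coe, mem_filter] at ha hb
      obtain ⟨k, rfl⟩ := ha.2
      obtain ⟨l, rfl⟩ := hb.2
      simp only at hab
      rw [Nat.mul_div_cancel_left _ hp, Nat.mul_div_cancel_left _ hp] at hab
      rw [hab]
  rw [Nat.card_Ico] at h3
  have h4 : (((⌈((2 * M : ℕ) : ℝ) / p⌉₊ - ⌈(M : ℝ) / p⌉₊ : ℕ)) : ℝ) ≤ M / p + 1 := by
    have h5 : ⌈(M : ℝ) / p⌉₊ ≤ ⌈((2 * M : ℕ) : ℝ) / p⌉₊ := by
      apply Nat.ceil_le_ceil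
      apply div_le_div_of_nonneg_right _ hp0.le
      push_cast
      have : (0 : ℝ) ≤ M := Nat.cast_nonneg _
      linarith
    rw [Nat.cast_sub h5]
    have h6 : (M : ℝ) / p ≤ ⌈(M : ℝ) / p⌉₊ := Nat.le_ceil _
    have h7 : ((⌈((2 * M : ℕ) : ℝ) / p⌉₊ : ℕ) : ℝ) < ((2 * M : ℕ) : ℝ) / p + 1 := Nat.ceil_lt_add_one (by positivity)
    have e : ((2 * M : ℕ) : ℝ) / p = M / p + M / p := by push_cast; ring
    linarith
  exact le_trans (by exact_mod_cast h3) h4

/-- real additive functions -/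
def AddR (f : ℕ → ℝ) : Prop := ∀ m n : ℕ, Nat.Coprime m n → f (m * n) = f m + f n

open scoped Classical in
/-- `g` restricted to the `n` with `f i n ≤ t i` for all `i`, times `Ψ` -/
noncomputable def thr {d : ℕ} (g : ℕ → ℂ) (f : Fin d → ℕ → ℝ) (t : Fin d → ℝ) (Ψ : ℕ → ℂ) (n : ℕ) : ℂ :=
  if ∀ i, f i n ≤ t i then g n * Ψ n else 0

theorem thr_norm {d : ℕ} {g : ℕ → ℂ} (hg : ∀ n, ‖g n‖ ≤ 1) (f : Fin d → ℕ → ℝ) (t : Fin d → ℝ) {Ψ : ℕ → ℂ}
    (hΨ : ∀ n, ‖Ψ n‖ ≤ 1) (n : ℕ) : ‖thr g f t Ψ n‖ ≤ 1 := by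
  unfold thr
  split_ifs
  · rw [norm_mul]; exact mul_le_one₀ (hg n) (norm_nonneg _) (hΨ n)
  · simp

open scoped Classical in
/-- thresholds split approximately -/
theorem spl_thr {d K : ℕ} (hK : 1 ≤ K) {g : ℕ → ℂ} (hg : MulB g) {f : Fin d → ℕ → ℝ} (hf : ∀ i, AddR (f i))
    (t : Fin d → ℝ) {Ψ : ℕ → ℂ} (hΨ : ∀ n, ‖Ψ n‖ ≤ 1) {η P : ℝ} {H v M : ℕ}
    (hΨc : ∀ p ∈ cell H v, ∀ m, Ψ (p * m) = Ψ m) (hP : P = Real.exp ((v : ℝ) / H)) (hM : 1 ≤ M)
    (h1 : (d : ℝ) / K ≤ η / 2) (h2 : 2 / P + 2 / M ≤ η / 2) :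
    Spl (K ^ d) η (thr g f t Ψ) H v M := by
  have hK0 : (0 : ℝ) < K := by exact_mod_cast hK
  have hP0 : 0 < P := by rw [hP]; exact Real.exp_pos _
  have hM0 : (0 : ℝ) < M := by exact_mod_cast hM
  have hmm0 : 0 ≤ mm H v := sum_nonneg fun p _ => by positivity
  have hnet := fun i : Fin d => prefix_net (cell H v) (fun p => 1 / (p : ℝ)) (fun p _ => by positivity) (f i) hK
  choose A hA using hnet
  choose k hk using hA
  refine ⟨Fin d → Fin K, inferInstance, fun κ p => if ∀ i, p ∈ A i (κ i) then g p else 0,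
    fun m i => k i (t i - f i m), fun m => g m * Ψ m, ?_, ?_, fun m => ?_, ?_⟩
  · rw [Fintype.card_fun, Fintype.card_fin, Fintype.card_fin]
  · intro κ p
    simp only
    split_ifs
    · exact hg.1 p
    · simp
  · rw [norm_mul]; exact mul_le_one₀ (hg.1 m) (norm_nonneg _) (hΨ m)
  · -- the error
    have hgm : ∀ m, ‖g m * Ψ m‖ ≤ 1 := fun m => by
      rw [norm_mul]; exact mul_le_one₀ (hg.1 m) (norm_nonneg _) (hΨ m)
    have hterm : ∀ m ∈ Ico M (2 * M), ∀ p ∈ cell H v,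
        ‖thr g f t Ψ (p * m) - g m * Ψ m * (if ∀ i, p ∈ A i (k i (t i - f i m)) then g p else 0)‖ / p
        ≤ ∑ i : Fin d, (if (f i p ≤ t i - f i m ↔ p ∈ A i (k i (t i - f i m))) then 0 else 1 / (p : ℝ))
          + (if p ∣ m then 2 / (p : ℝ) else 0) := by
      intro m _ p hp
      have hpp := (cell_lt hp).1
      have hp0 : (0 : ℝ) < p := by exact_mod_cast hpp.pos
      have hsum0 : 0 ≤ ∑ i : Fin d, (if (f i p ≤ t i - f i m ↔ p ∈ A i (k i (t i - f i m))) then 0 else 1 / (p : ℝ)) :=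
        sum_nonneg fun i _ => by split_ifs <;> positivity
      by_cases hpm : p ∣ m
      · rw [if_pos hpm]
        have hn : ‖thr g f t Ψ (p * m) - g m * Ψ m * (if ∀ i, p ∈ A i (k i (t i - f i m)) then g p else 0)‖ ≤ 2 := by
          refine (norm_sub_le _ _).trans ?_
          have b1 := thr_norm hg.1 f t hΨ (p * m)
          have b2 : ‖g m * Ψ m * (if ∀ i, p ∈ A i (k i (t i - f i m)) then g p else 0)‖ ≤ 1 := by
            rw [norm_mul]
            apply mul_le_one₀ (hgm m) (norm_nonneg _)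
            split_ifs
            · exact hg.1 p
            · simp
          linarith
        have := div_le_div_of_nonneg_right hn hp0.le
        linarith
      · rw [if_neg hpm, add_zero]
        have hco : Nat.Coprime p m := (Nat.Prime.coprime_iff_not_dvd hpp).2 hpm
        have e1 : (∀ i, f i (p * m) ≤ t i) ↔ ∀ i, f i p ≤ t i - f i m := by
          apply forall_congr'
          intro i
          rw [hf i p m hco]
          constructor <;> intro h <;> linarith
        unfold thr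
        rw [hg.2 p m hco, hΨc p hp m]
        by_cases hall : ∀ i, (f i p ≤ t i - f i m ↔ p ∈ A i (k i (t i - f i m)))
        · have e2 : (∀ i, f i (p * m) ≤ t i) ↔ ∀ i, p ∈ A i (k i (t i - f i m)) := by
            rw [e1]; exact forall_congr' hall
          have e3 : (if ∀ i, f i (p * m) ≤ t i then g p * g m * Ψ m else 0)
              - g m * Ψ m * (if ∀ i, p ∈ A i (k i (t i - f i m)) then g p else 0) = 0 := by
            by_cases h : ∀ i, p ∈ A i (k i (t i - f i m))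
            · rw [if_pos (e2.2 h), if_pos h]; ring
            · rw [if_neg (fun h' => h (e2.1 h')), if_neg h]; ring
          rw [e3, norm_zero, zero_div]
          exact hsum0
        · push Not at hall
          obtain ⟨i, hi⟩ := hall
          have hi' : ¬ (f i p ≤ t i - f i m ↔ p ∈ A i (k i (t i - f i m))) := by
            rcases hi with ⟨a, b⟩ | ⟨a, b⟩
            · exact fun h => b (h.1 a)
            · exact fun h => absurd (h.2 b) (not_le.2 a)
          have hn : ‖(if ∀ i, f i (p * m) ≤ t i then g p * g m * Ψ m else 0)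
              - g m * Ψ m * (if ∀ i, p ∈ A i (k i (t i - f i m)) then g p else 0)‖ ≤ 1 := by
            have hgg : ‖g p * (g m * Ψ m)‖ ≤ 1 := by
              rw [norm_mul]; exact mul_le_one₀ (hg.1 _) (norm_nonneg _) (hgm _)
            have e5 : g p * g m * Ψ m = g p * (g m * Ψ m) := by ring
            have e6 : g m * Ψ m * g p = g p * (g m * Ψ m) := by ring
            split_ifs
            · rw [e5, e6, sub_self, norm_zero]; norm_num
            · rw [mul_zero, sub_zero, e5]; exact hgg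
            · rw [zero_sub, norm_neg, e6]; exact hgg
            · rw [mul_zero, sub_zero, norm_zero]; norm_num
          have h5 := div_le_div_of_nonneg_right hn hp0.le
          refine h5.trans ?_
          have h6 := single_le_sum (f := fun i : Fin d => (if (f i p ≤ t i - f i m ↔ p ∈ A i (k i (t i - f i m))) then 0 else 1 / (p : ℝ)))
            (fun i _ => by split_ifs <;> positivity) (mem_univ i)
          simp only [if_neg hi'] at h6
          exact h6
    have hsum : ∑ m ∈ Ico M (2 * M), ∑ p ∈ cell H v,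
        ‖thr g f t Ψ (p * m) - g m * Ψ m * (if ∀ i, p ∈ A i (k i (t i - f i m)) then g p else 0)‖ / p
        ≤ ∑ m ∈ Ico M (2 * M), ∑ p ∈ cell H v,
          (∑ i : Fin d, (if (f i p ≤ t i - f i m ↔ p ∈ A i (k i (t i - f i m))) then 0 else 1 / (p : ℝ))
          + (if p ∣ m then 2 / (p : ℝ) else 0)) :=
      sum_le_sum fun m hm => sum_le_sum fun p hp => hterm m hm p hp
    refine hsum.trans ?_
    simp_rw [sum_add_distrib]
    have hA1 : ∑ m ∈ Ico M (2 * M), ∑ p ∈ cell H v,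
        ∑ i : Fin d, (if (f i p ≤ t i - f i m ↔ p ∈ A i (k i (t i - f i m))) then 0 else 1 / (p : ℝ))
        ≤ M * (d * (mm H v / K)) := by
      have h3 : ∀ m ∈ Ico M (2 * M), ∑ p ∈ cell H v,
          ∑ i : Fin d, (if (f i p ≤ t i - f i m ↔ p ∈ A i (k i (t i - f i m))) then 0 else 1 / (p : ℝ))
          ≤ d * (mm H v / K) := by
        intro m _
        rw [sum_comm]
        refine (sum_le_sum fun i _ => hk i (t i - f i m)).trans (le_of_eq ?_)
        rw [sum_const, card_univ, Fintype.card_fin, nsmul_eq_mul]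
        rfl
      refine (sum_le_sum h3).trans (le_of_eq ?_)
      rw [sum_const, Nat.card_Ico, show 2 * M - M = M by omega, nsmul_eq_mul]
    have hA2 : ∑ m ∈ Ico M (2 * M), ∑ p ∈ cell H v, (if p ∣ m then 2 / (p : ℝ) else 0)
        ≤ (2 / P + 2 / M) * (M * mm H v) := by
      rw [sum_comm]
      have h3 : ∀ p ∈ cell H v, ∑ m ∈ Ico M (2 * M), (if p ∣ m then 2 / (p : ℝ) else 0)
          ≤ (2 / P + 2 / M) * M * (1 / p) := by
        intro p hp
        have hpp := (cell_lt hp).1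
        have hp0 : (0 : ℝ) < p := by exact_mod_cast hpp.pos
        have hPp : P ≤ p := by
          rw [hP, ← Real.exp_log hp0]
          exact Real.exp_le_exp.2 (cell_lt hp).2.1
        rw [← sum_filter, sum_const, nsmul_eq_mul]
        have h4 := card_mult (M := M) hpp.one_le
        have h5 : (M : ℝ) / p ≤ M / P := div_le_div_of_nonneg_left hM0.le hP0 hPp
        calc (((Ico M (2 * M)).filter (fun m => p ∣ m)).card : ℝ) * (2 / p) ≤ (M / P + 1) * (2 / p) :=
              mul_le_mul_of_nonneg_right (h4.trans (by linarith)) (by positivity)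
          _ = (2 / P + 2 / M) * M * (1 / p) := by field_simp
      refine (sum_le_sum h3).trans (le_of_eq ?_)
      rw [← mul_sum]
      unfold mm
      ring
    have h4 : M * (d * (mm H v / K)) ≤ η / 2 * (M * mm H v) := by
      calc M * (d * (mm H v / K)) = (d / K) * (M * mm H v) := by ring
        _ ≤ _ := mul_le_mul_of_nonneg_right h1 (by positivity)
    have h5 : (2 / P + 2 / M) * (M * mm H v) ≤ η / 2 * (M * mm H v) := mul_le_mul_of_nonneg_right h2 (by positivity)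
    linarith

/-- the class of the thresholds -/
theorem hyp_thr {ε : ℝ} (hε : 0 < ε) {d K H N : ℕ} (hK : 1 ≤ K) (hdK : 512 * d / ε ≤ K) (hH10 : 10 ≤ H)
    (hH : 2048 / ε ≤ H) {g : ℕ → ℂ} (hg : MulB g) {f : Fin d → ℕ → ℝ} (hf : ∀ i, AddR (f i)) (t : Fin d → ℝ)
    {Ψ : ℕ → ℂ} (hΨ : ∀ n, ‖Ψ n‖ ≤ 1) {ϑ θ1 : ℝ}
    (hΨc : ∀ X p m : ℕ, N ≤ X * X → X ≤ N → p.Prime → (X : ℝ) ^ θ1 ≤ p → (p : ℝ) ≤ (X : ℝ) ^ (ϑ / 8) → Ψ (p * m) = Ψ m) :
    Hyp (K ^ d) (ε / 256) H ϑ θ1 N (thr g f t Ψ) := by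
  have hK0 : (0 : ℝ) < K := by exact_mod_cast hK
  have hHpos : (0 : ℝ) < H := by exact_mod_cast (by omega : 0 < H)
  refine ⟨thr_norm hg.1 f t hΨ, fun X v M hX1 hX2 hv1 hv2 h8 h28 => ?_⟩
  have hM0 : (0 : ℝ) < M := by linarith
  have hM1 : 1 ≤ M := by exact_mod_cast hM0
  have hdK' : (d : ℝ) / K ≤ ε / 256 / 2 := by
    rw [div_le_iff₀ hε] at hdK
    rw [div_le_iff₀ hK0]
    linarith
  have hXpos : (0 : ℝ) < X := by
    rcases Nat.eq_zero_or_pos X with h | h
    · exfalso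
      subst h
      have h9 : Real.exp ((v : ℝ) / H) ≤ 1 := by
        rw [Nat.cast_zero, Real.log_zero, mul_zero] at hv2
        rw [Real.exp_le_one_iff]
        refine le_trans ?_ hv2
        exact div_le_div_of_nonneg_right (by linarith) hHpos.le
      have h10 : (10 : ℝ) ≤ H := by exact_mod_cast hH10
      linarith
    · exact_mod_cast h
  have hcell : ∀ p ∈ cell H v, ∀ m, Ψ (p * m) = Ψ m := by
    intro p hp m
    have h1 := cell_lt hp
    have hp0 : (0 : ℝ) < p := by exact_mod_cast h1.1.pos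
    apply hΨc X p m hX1 hX2 h1.1
    · rw [Real.rpow_def_of_pos hXpos, ← Real.exp_log hp0]
      apply Real.exp_le_exp.2
      rw [mul_comm]
      exact hv1.trans h1.2.1
    · rw [Real.rpow_def_of_pos hXpos, ← Real.exp_log hp0]
      apply Real.exp_le_exp.2
      rw [mul_comm (Real.log (X : ℝ))]
      exact h1.2.2.le.trans hv2
  apply spl_thr hK hg hf t hΨ hcell rfl hM1 hdK'
  have hHε : 2048 ≤ ε * H := by
    rw [div_le_iff₀ hε] at hH
    linarith
  have h3 : 2 / Real.exp ((v : ℝ) / H) ≤ ε / 256 / 4 := by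
    rw [div_le_iff₀ (Real.exp_pos _)]
    nlinarith
  have h4 : 2 / (M : ℝ) ≤ ε / 256 / 4 := by
    rw [div_le_iff₀ hM0]
    nlinarith
  linarith

/-- ORTHOGONALITY TO MULTIPLICATIVE FUNCTIONS RESTRICTED BY THRESHOLDS OF ADDITIVE FUNCTIONS. -/
theorem orth_thr {s : ℤ} (hs : s = 1 ∨ s = -1) {ε : ℝ} (hε : 0 < ε) (hε1 : ε ≤ 1) (d : ℕ) :
    ∃ N0 : ℕ, 1 ≤ N0 ∧ ∀ S : Set ℤ, Inv 1 S → ∀ δ : ℝ, HD s S δ → ∀ N : ℕ, N0 ≤ N → ∀ γ : ℝ,
    ∀ g : ℕ → ℂ, MulB g → ∀ f : Fin d → ℕ → ℝ, (∀ i, AddR (f i)) → ∀ t : Fin d → ℝ,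
      ‖∑ n ∈ Icc 1 N, tw (bal s S δ) γ (n : ℤ) * thr g f t (fun _ => 1) n‖ ≤ ε * N := by
  obtain ⟨K, hK⟩ : ∃ K : ℕ, K = ⌈512 * d / ε⌉₊ + 1 := ⟨_, rfl⟩
  have hK1 : 1 ≤ K := by omega
  have hdK : 512 * d / ε ≤ K := (Nat.le_ceil _).trans (by exact_mod_cast (by omega : ⌈512 * (d : ℝ) / ε⌉₊ ≤ K))
  obtain ⟨H, hH10, hH, ϑ0, hϑ0, hgen⟩ := inv_gen hs hε hε1 (K ^ d)
  obtain ⟨θ1, hθ1, N0, hN01, hN0⟩ := hgen ϑ0 hϑ0 le_rfl
  exact ⟨N0, hN01, fun S hS δ hδ N hN γ g hg f hf t =>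
    hN0 N hN S hS δ hδ γ _ (hyp_thr hε hK1 hdK hH10 hH hg hf t (fun _ => by simp) (fun _ _ _ _ _ _ _ _ => rfl))⟩

end Pool.Agent.Q49.AF
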